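import Pool.Agent.H43.G.R_seed8.H343R2.Defs

open Finset

namespace H343

namespace PhiSum

/-- the radical -/
def rd (n : ℕ) : ℕ := ∏ p ∈ n.primeFactors, p

theorem rd_pos (n : ℕ) : 0 < rd n :=
  prod_pos fun _ hp => (Nat.prime_of_mem_primeFactors hp).pos

theorem rd_dvd (n : ℕ) : rd n ∣ n := Nat.prod_primeFactors_dvd n

theorem rd_sqf {n : ℕ} (hn : Squarefree n) : rd n = n := Nat.prod_primeFactors_of_squarefree hn

theorem rd_squarefree (n : ℕ) : Squarefree (rd n) := by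
  unfold rd
  rw [← Nat.radical_eq_prod_primeFactors]
  exact UniqueFactorizationMonoid.squarefree_radical

theorem primeFactors_rd (n : ℕ) : (rd n).primeFactors = n.primeFactors := by
  unfold rd
  exact Nat.primeFactors_prod_primeFactors n

/-- the weight -/
noncomputable def g (q m : ℕ) : ℝ :=
  if m ≠ 0 ∧ m.primeFactors ⊆ q.primeFactors then (1 : ℝ) / (q * m) else 0

theorem g_nonneg (q m : ℕ) : 0 ≤ g q m := by
  unfold g
  split_ifs <;> positivity

theorem hasSum_g (q : ℕ) (hq : q ≠ 0) :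
    HasSum (fun m => g q m) (1 / (Nat.totient q : ℝ)) := by
  classical
  let f : ℕ →* ℝ :=
    { toFun := fun n => ((n : ℝ))⁻¹
      map_one' := by simp
      map_mul' := fun a b => by push_cast; rw [mul_inv] }
  have h1 := (EulerProduct.summable_and_hasSum_factoredNumbers_prod_filter_prime_geometric
    (f := f) (fun {p} hp => by
      have h2 : (1 : ℝ) < p := by exact_mod_cast hp.one_lt
      change ‖((p : ℝ))⁻¹‖ < 1
      rw [Real.norm_of_nonneg (by positivity)]
      exact inv_lt_one_of_one_lt₀ h2) q.primeFactors).2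
  have h2 : (∏ p ∈ q.primeFactors with p.Prime, (1 - f p)⁻¹) = (q : ℝ) / Nat.totient q := by
    have h3 : (q.primeFactors.filter (fun p => p.Prime)) = q.primeFactors := by
      apply filter_true_of_mem
      intro p hp
      exact Nat.prime_of_mem_primeFactors hp
    rw [h3]
    have h4 : ((Nat.totient q : ℚ) : ℝ) = ((q * ∏ p ∈ q.primeFactors, (1 - (p : ℚ)⁻¹) : ℚ) : ℝ) := by
      rw [Nat.totient_eq_mul_prod_factors]
    push_cast at h4
    rw [h4, prod_inv_distrib]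
    have hq0 : (q : ℝ) ≠ 0 := by exact_mod_cast hq
    have h5 : ∏ p ∈ q.primeFactors, (1 - f p) = ∏ p ∈ q.primeFactors, (1 - (p : ℝ)⁻¹) := rfl
    rw [h5]
    have h6 : ∏ p ∈ q.primeFactors, (1 - (p : ℝ)⁻¹) ≠ 0 := by
      apply prod_ne_zero_iff.2
      intro p hp
      have h7 : (1 : ℝ) < p := by exact_mod_cast (Nat.prime_of_mem_primeFactors hp).one_lt
      have h8 : (p : ℝ)⁻¹ < 1 := inv_lt_one_of_one_lt₀ h7
      linarith
    field_simp
  rw [h2] at h1
  have h3 : HasSum (Set.indicator (Nat.factoredNumbers q.primeFactors) (fun m => f m))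
      ((q : ℝ) / Nat.totient q) := hasSum_subtype_iff_indicator.1 h1
  have h4 := h3.mul_left ((1 : ℝ) / q)
  have hq0 : (q : ℝ) ≠ 0 := by exact_mod_cast hq
  have e1 : (fun m => g q m) = (fun m => 1 / (q : ℝ) *
      Set.indicator (Nat.factoredNumbers q.primeFactors) (fun m => f m) m) := by
    funext m
    unfold g
    rw [Set.indicator_apply]
    by_cases hm : m ∈ Nat.factoredNumbers q.primeFactors
    · have h5 := Nat.mem_factoredNumbers_iff_primeFactors_subset.1 hm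
      rw [if_pos h5, if_pos hm]
      change _ = 1 / (q : ℝ) * ((m : ℝ))⁻¹
      rw [one_div, one_div, mul_inv]
    · have h5 := fun h => hm (Nat.mem_factoredNumbers_iff_primeFactors_subset.2 h)
      rw [if_neg h5, if_neg hm, mul_zero]
  have e2 : (1 / (Nat.totient q : ℝ)) = 1 / (q : ℝ) * ((q : ℝ) / Nat.totient q) := by
    have : (Nat.totient q : ℝ) ≠ 0 := by
      exact_mod_cast (Nat.totient_pos.2 (Nat.pos_of_ne_zero hq)).ne'
    field_simp
  rw [e1, e2]
  exact h4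

theorem sum_Ioc_le (t N : ℕ) (ht : 1 ≤ t) (h : t ≤ N) :
    ∑ a ∈ Ioc t N, (1 : ℝ) / a ≤ Real.log N - Real.log t := by
  induction N, h using Nat.le_induction with
  | base => simp
  | succ n hn ih =>
    rw [← Finset.insert_Ioc_right_eq_Ioc_add_one (by omega), sum_insert (by simp)]
    have hn0 : (0 : ℝ) < n := by exact_mod_cast (by omega : 0 < n)
    have h1 : Real.log ((n : ℝ) / (n + 1)) ≤ n / (n + 1) - 1 :=
      Real.log_le_sub_one_of_pos (by positivity)
    rw [Real.log_div (by positivity) (by positivity)] at h1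
    have h2 : (n : ℝ) / (n + 1) - 1 = - (1 / (n + 1)) := by
      field_simp
      ring
    push_cast
    linarith

theorem sum_Ioc_block (N b : ℕ) (hN : 1 ≤ N) (hb : 1 ≤ b) :
    ∑ a ∈ Ioc (N / b ^ 2) N, (1 : ℝ) / a ≤ 1 + 2 * Real.log b := by
  have hb2 : 0 < b ^ 2 := by positivity
  have hbr : (1 : ℝ) ≤ b := by exact_mod_cast hb
  rcases Nat.eq_zero_or_pos (N / b ^ 2) with h0 | h0
  · rw [h0]
    have h1 : N < b ^ 2 := by
      rwa [Nat.div_eq_zero_iff_lt hb2] at h0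
    have h2 : ∑ a ∈ Ioc 0 N, (1 : ℝ) / a ≤ 1 + Real.log N := by
      have h3 : Ioc 0 N = insert 1 (Ioc 1 N) := by
        ext x; simp only [mem_Ioc, mem_insert]; omega
      rw [h3, sum_insert (by simp)]
      have := sum_Ioc_le 1 N le_rfl hN
      simp at this ⊢
      linarith
    have h3 : Real.log N ≤ 2 * Real.log b := by
      have : Real.log N ≤ Real.log ((b : ℝ) ^ 2) := by
        apply Real.log_le_log (by exact_mod_cast hN)
        exact_mod_cast h1.le
      rw [Real.log_pow] at this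
      exact_mod_cast this
    linarith
  · have h1 := sum_Ioc_le (N / b ^ 2) N h0 (Nat.div_le_self _ _)
    have h2 : N < (N / b ^ 2 + 1) * b ^ 2 := by
      rw [mul_comm]
      exact Nat.lt_mul_div_succ _ hb2
    have h3 : (N : ℝ) ≤ 2 * (N / b ^ 2 : ℕ) * (b : ℝ) ^ 2 := by
      have : N ≤ 2 * (N / b ^ 2) * b ^ 2 := by nlinarith
      exact_mod_cast this
    have ht : (0 : ℝ) < (N / b ^ 2 : ℕ) := by exact_mod_cast h0
    have h4 : Real.log N ≤ Real.log 2 + Real.log (N / b ^ 2 : ℕ) + 2 * Real.log b := by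
      have : Real.log N ≤ Real.log (2 * (N / b ^ 2 : ℕ) * (b : ℝ) ^ 2) :=
        Real.log_le_log (by exact_mod_cast hN) h3
      rw [Real.log_mul (by positivity) (by positivity), Real.log_mul (by positivity) (by positivity),
        Real.log_pow] at this
      exact_mod_cast this
    have h5 : Real.log 2 ≤ 1 := by
      have := Real.log_two_lt_d9
      linarith
    linarith

/-- bound for numbers with small radical -/
theorem sum_rad_le : ∃ C : ℝ, 0 < C ∧ ∀ (N : ℕ) (G : Finset ℕ), 1 ≤ N →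
    (∀ n ∈ G, n ≠ 0 ∧ rd n ≤ N) → ∑ n ∈ G, (1 : ℝ) / n ≤ Real.log N + C := by
  classical
  have hs : Summable (fun b : ℕ => 5 * (1 / (b : ℝ) ^ (3 / 2 : ℝ))) :=
    (Real.summable_one_div_nat_rpow.mpr (by norm_num)).mul_left _
  set D := ∑' b : ℕ, 5 * (1 / (b : ℝ) ^ (3 / 2 : ℝ)) with hD
  have hD0 : 0 ≤ D := tsum_nonneg fun b => by positivity
  refine ⟨D + 1, by linarith, fun N G hN hG => ?_⟩
  rw [← sum_filter_add_sum_filter_not G (fun n => n ≤ N)]
  have h1 : ∑ n ∈ G.filter (fun n => n ≤ N), (1 : ℝ) / n ≤ 1 + Real.log N := by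
    have h2 : ∑ n ∈ G.filter (fun n => n ≤ N), (1 : ℝ) / n ≤ ∑ n ∈ Icc 1 N, (1 : ℝ) / n := by
      apply sum_le_sum_of_subset_of_nonneg
      · intro n hn
        rw [mem_filter] at hn
        rw [mem_Icc]
        exact ⟨Nat.pos_of_ne_zero (hG n hn.1).1, hn.2⟩
      · intro n _ _; positivity
    have h3 := harmonic_le_one_add_log N
    rw [harmonic_eq_sum_Icc] at h3
    push_cast at h3
    refine h2.trans ?_
    simpa [one_div] using h3
  have h2 : ∑ n ∈ G.filter (fun n => ¬ n ≤ N), (1 : ℝ) / n ≤ D := by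
    have hex : ∀ n : ℕ, ∃ x : ℕ × ℕ, x.1 ^ 2 * x.2 = n ∧ Squarefree x.2 := by
      intro n
      obtain ⟨a, b, h1, h2⟩ := Nat.sq_mul_squarefree n
      exact ⟨(b, a), h1, h2⟩
    choose φ hφ1 hφ2 using hex
    have hinj : Function.Injective φ := by
      intro n m h
      rw [← hφ1 n, ← hφ1 m, h]
    set B := G.sup id with hB
    have hle : ∀ n ∈ G, n ≤ B := fun n hn => Finset.le_sup (f := id) hn
    set P : Finset (Σ _ : ℕ, ℕ) := (Icc 1 B).sigma (fun b => Ioc (N / b ^ 2) N) with hP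
    let ψ : ℕ → (Σ _ : ℕ, ℕ) := fun n => ⟨(φ n).1, (φ n).2⟩
    have hψ : Function.Injective ψ := by
      intro n m h
      apply hinj
      simp only [ψ, Sigma.mk.injEq, heq_eq_eq] at h
      exact Prod.ext h.1 h.2
    have h3 : ∑ n ∈ G.filter (fun n => ¬ n ≤ N), (1 : ℝ) / n =
        ∑ x ∈ (G.filter (fun n => ¬ n ≤ N)).image ψ, (1 : ℝ) / ((x.1 : ℝ) ^ 2 * x.2) := by
      rw [sum_image (fun a _ b _ h => hψ h)]
      apply sum_congr rfl
      intro n _
      have : ((n : ℕ) : ℝ) = ((φ n).1 : ℝ) ^ 2 * (φ n).2 := by exact_mod_cast (hφ1 n).symm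
      simp only [ψ]
      rw [← this]
    have h4 : (G.filter (fun n => ¬ n ≤ N)).image ψ ⊆ P := by
      intro x hx
      rw [mem_image] at hx
      obtain ⟨n, hn, rfl⟩ := hx
      rw [mem_filter] at hn
      have hn0 := (hG n hn.1).1
      have hb0 : (φ n).1 ≠ 0 := by
        intro h
        apply hn0
        rw [← hφ1 n, h]
        simp
      have ha0 : (φ n).2 ≠ 0 := (hφ2 n).ne_zero
      rw [hP, mem_sigma, mem_Icc, mem_Ioc]
      simp only [ψ]
      have h5 : (φ n).1 ≤ n := by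
        conv_rhs => rw [← hφ1 n]
        have h6 : (φ n).1 ≤ (φ n).1 ^ 2 := Nat.le_self_pow (by norm_num) _
        exact h6.trans (Nat.le_mul_of_pos_right _ (Nat.pos_of_ne_zero ha0))
      have h7 : (φ n).2 ≤ rd n := by
        apply Nat.le_of_dvd (rd_pos n)
        have h8 : (φ n).2 ∣ n := ⟨(φ n).1 ^ 2, by rw [mul_comm]; exact (hφ1 n).symm⟩
        have h9 : rd (φ n).2 ∣ rd n := by
          unfold rd
          apply prod_dvd_prod_of_subset
          exact Nat.primeFactors_mono h8 hn0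
        rwa [rd_sqf (hφ2 n)] at h9
      refine ⟨⟨Nat.pos_of_ne_zero hb0, h5.trans (hle n hn.1)⟩, ?_, h7.trans (hG n hn.1).2⟩
      rw [Nat.div_lt_iff_lt_mul (by positivity), mul_comm, hφ1 n]
      omega
    rw [h3]
    refine (sum_le_sum_of_subset_of_nonneg h4 (fun x _ _ => by positivity)).trans ?_
    rw [hP, sum_sigma]
    have h5 : ∀ b ∈ Icc 1 B, ∑ a ∈ Ioc (N / b ^ 2) N, (1 : ℝ) / ((b : ℝ) ^ 2 * a) ≤
        5 * (1 / (b : ℝ) ^ (3 / 2 : ℝ)) := by
      intro b hb
      rw [mem_Icc] at hb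
      have hb1 : (1 : ℝ) ≤ b := by exact_mod_cast hb.1
      have h6 : ∑ a ∈ Ioc (N / b ^ 2) N, (1 : ℝ) / ((b : ℝ) ^ 2 * a) =
          1 / (b : ℝ) ^ 2 * ∑ a ∈ Ioc (N / b ^ 2) N, (1 : ℝ) / a := by
        rw [mul_sum]
        apply sum_congr rfl
        intro a _
        rw [one_div, one_div, one_div, mul_inv]
      rw [h6]
      have h7 := sum_Ioc_block N b hN hb.1
      have h8 : Real.log b ≤ (b : ℝ) ^ (1 / 2 : ℝ) / (1 / 2) :=
        Real.log_le_rpow_div (by linarith) (by norm_num)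
      have h9 : (1 : ℝ) ≤ (b : ℝ) ^ (1 / 2 : ℝ) := Real.one_le_rpow hb1 (by norm_num)
      have h10 : (b : ℝ) ^ 2 = (b : ℝ) ^ (3 / 2 : ℝ) * (b : ℝ) ^ (1 / 2 : ℝ) := by
        rw [← Real.rpow_add (by linarith), ← Real.rpow_natCast]
        norm_num
      have h11 : (0 : ℝ) < (b : ℝ) ^ (3 / 2 : ℝ) := Real.rpow_pos_of_pos (by linarith) _
      calc 1 / (b : ℝ) ^ 2 * ∑ a ∈ Ioc (N / b ^ 2) N, (1 : ℝ) / a
          ≤ 1 / (b : ℝ) ^ 2 * (5 * (b : ℝ) ^ (1 / 2 : ℝ)) := by
            apply mul_le_mul_of_nonneg_left _ (by positivity)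
            linarith
        _ = 5 * (1 / (b : ℝ) ^ (3 / 2 : ℝ)) := by
            rw [h10]
            field_simp
    refine (sum_le_sum h5).trans ?_
    exact hs.sum_le_tsum _ (fun b _ => by positivity)
  linarith

theorem totient_upper : ∃ C : ℝ, 0 < C ∧ ∀ N : ℕ, 1 ≤ N → LL 0 N ≤ Real.log N + C := by
  classical
  obtain ⟨C, hC, h⟩ := sum_rad_le
  refine ⟨C, hC, fun N hN => ?_⟩
  have h1 : HasSum (fun m => ∑ q ∈ Mod 0 N, g q m) (LL 0 N) := by
    unfold LL
    apply hasSum_sum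
    intro q hq
    apply hasSum_g
    rw [Mod, mem_filter, mem_Ioc] at hq
    omega
  apply hasSum_le_of_sum_le h1
  intro s
  rw [← sum_product']
  set T := (s ×ˢ Mod 0 N).filter (fun x => x.1 ≠ 0 ∧ x.1.primeFactors ⊆ x.2.primeFactors) with hT
  have h2 : ∑ x ∈ s ×ˢ Mod 0 N, g x.2 x.1 = ∑ x ∈ T, (1 : ℝ) / ((x.2 * x.1 : ℕ) : ℝ) := by
    rw [hT, sum_filter]
    apply sum_congr rfl
    intro x _
    unfold g
    push_cast
    rfl
  have h3 : ∀ x ∈ T, x.2 ≠ 0 ∧ x.1 ≠ 0 ∧ (x.2 * x.1).primeFactors = x.2.primeFactors ∧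
      rd (x.2 * x.1) = x.2 ∧ x.2 ≤ N := by
    intro x hx
    rw [hT, mem_filter, mem_product, Mod, mem_filter, mem_Ioc] at hx
    have hx2 : x.2 ≠ 0 := by omega
    have h4 : (x.2 * x.1).primeFactors = x.2.primeFactors := by
      rw [Nat.primeFactors_mul hx2 hx.2.1, union_eq_left]
      exact hx.2.2
    refine ⟨hx2, hx.2.1, h4, ?_, hx.1.2.1.2⟩
    unfold rd
    rw [h4]
    exact rd_sqf hx.1.2.2
  rw [h2]
  have h4 : ∑ x ∈ T, (1 : ℝ) / ((x.2 * x.1 : ℕ) : ℝ) =
      ∑ n ∈ T.image (fun x : ℕ × ℕ => x.2 * x.1), (1 : ℝ) / (n : ℝ) := by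
    rw [sum_image]
    intro x hx y hy hxy
    obtain ⟨a1, a2, a3, a4, a5⟩ := h3 x hx
    obtain ⟨b1, b2, b3, b4, b5⟩ := h3 y hy
    simp only at hxy
    have h5 : x.2 = y.2 := by rw [← a4, ← b4, hxy]
    have h6 : x.1 = y.1 := by
      rw [h5] at hxy
      exact Nat.eq_of_mul_eq_mul_left (Nat.pos_of_ne_zero b1) hxy
    exact Prod.ext h6 h5
  rw [h4]
  apply h N _ hN
  intro n hn
  rw [mem_image] at hn
  obtain ⟨x, hx, rfl⟩ := hn
  obtain ⟨a1, a2, a3, a4, a5⟩ := h3 x hx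
  exact ⟨mul_ne_zero a1 a2, by rw [a4]; exact a5⟩

theorem totient_lower (N : ℕ) (hN : 1 ≤ N) : Real.log N ≤ LL 0 N := by
  classical
  have h1 : ∑ n ∈ Icc 1 N, (1 : ℝ) / n ≤ ∑ x ∈ (Icc 1 N) ×ˢ Mod 0 N, g x.2 x.1 := by
    have hψ : Set.InjOn (fun n => (n / rd n, rd n)) (Icc 1 N : Finset ℕ) := by
      intro n _ m _ h
      simp only [Prod.mk.injEq] at h
      rw [← Nat.div_mul_cancel (rd_dvd n), ← Nat.div_mul_cancel (rd_dvd m), h.1, h.2]
    have h2 : ∑ n ∈ Icc 1 N, (1 : ℝ) / n =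
        ∑ x ∈ (Icc 1 N).image (fun n => (n / rd n, rd n)), g x.2 x.1 := by
      rw [sum_image hψ]
      apply sum_congr rfl
      intro n hn
      rw [mem_Icc] at hn
      simp only [g]
      have h3 : n / rd n ≠ 0 := by
        rw [Nat.div_ne_zero_iff]
        exact ⟨(rd_pos n).ne', Nat.le_of_dvd (by omega) (rd_dvd n)⟩
      have h4 : (n / rd n).primeFactors ⊆ (rd n).primeFactors := by
        rw [primeFactors_rd]
        exact Nat.primeFactors_mono (Nat.div_dvd_of_dvd (rd_dvd n)) (by omega)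
      rw [if_pos ⟨h3, h4⟩]
      rw [← Nat.cast_mul, Nat.mul_div_cancel' (rd_dvd n)]
    rw [h2]
    apply sum_le_sum_of_subset_of_nonneg
    · intro x hx
      rw [mem_image] at hx
      obtain ⟨n, hn, rfl⟩ := hx
      rw [mem_Icc] at hn
      have h5 : rd n ≤ n := Nat.le_of_dvd (by omega) (rd_dvd n)
      rw [mem_product, mem_Icc, Mod, mem_filter, mem_Ioc]
      exact ⟨⟨Nat.div_pos h5 (rd_pos n), (Nat.div_le_self _ _).trans hn.2⟩,
        ⟨rd_pos n, h5.trans hn.2⟩, rd_squarefree n⟩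
    · intro x _ _
      exact g_nonneg _ _
  have h2 : ∑ x ∈ (Icc 1 N) ×ˢ Mod 0 N, g x.2 x.1 ≤ LL 0 N := by
    rw [sum_product_right]
    unfold LL
    apply sum_le_sum
    intro q hq
    rw [Mod, mem_filter, mem_Ioc] at hq
    exact sum_le_hasSum _ (fun m _ => g_nonneg q m) (hasSum_g q (by omega))
  have h3 := log_add_one_le_harmonic N
  rw [harmonic_eq_sum_Icc] at h3
  push_cast at h3
  have h4 : Real.log N ≤ Real.log ((N : ℝ) + 1) := by
    apply Real.log_le_log (by exact_mod_cast hN)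
    linarith
  have h5 : ∑ n ∈ Icc 1 N, (1 : ℝ) / n = ∑ n ∈ Icc 1 N, ((n : ℝ))⁻¹ := by simp [one_div]
  linarith

theorem LL_split (Q R : ℕ) (h : Q ≤ R) : LL 0 Q + LL Q R = LL 0 R := by
  classical
  unfold LL
  rw [← sum_union]
  · congr 1
    ext q
    simp only [Mod, mem_union, mem_filter, mem_Ioc]
    constructor
    · rintro (⟨h1, h2⟩ | ⟨h1, h2⟩)
      · exact ⟨⟨h1.1, h1.2.trans h⟩, h2⟩
      · exact ⟨⟨by omega, h1.2⟩, h2⟩
    · rintro ⟨h1, h2⟩
      by_cases h3 : q ≤ Q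
      · exact Or.inl ⟨⟨h1.1, h3⟩, h2⟩
      · exact Or.inr ⟨⟨by omega, h1.2⟩, h2⟩
  · rw [Finset.disjoint_left]
    intro q hq hq'
    simp only [Mod, mem_filter, mem_Ioc] at hq hq'
    omega

end PhiSum

open PhiSum

theorem LL_lower : ∃ C : ℝ, 0 < C ∧ ∀ Q R : ℕ, 1 ≤ Q → Q ≤ R →
    Real.log R - Real.log Q - C ≤ LL Q R := by
  obtain ⟨C, hC, h⟩ := totient_upper
  refine ⟨C, hC, fun Q R hQ hQR => ?_⟩
  have h1 := totient_lower R (hQ.trans hQR)
  have h2 := h Q hQ
  have h3 := LL_split Q R hQR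
  linarith

theorem LL_upper : ∃ C : ℝ, 0 < C ∧ ∀ Q R : ℕ, LL Q R ≤ C * (1 + Real.log R) := by
  obtain ⟨C, hC, h⟩ := totient_upper
  refine ⟨C + 1, by linarith, fun Q R => ?_⟩
  have hlog : 0 ≤ Real.log R := Real.log_natCast_nonneg R
  rcases Nat.lt_or_ge R 1 with hR | hR
  · have : LL Q R = 0 := by
      unfold LL Mod
      have h1 : Ioc Q R = ∅ := by
        rw [Ioc_eq_empty_iff]
        omega
      rw [h1]
      simp
    rw [this]
    positivity
  · rcases Nat.lt_or_ge R Q with hQR | hQR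
    · have : LL Q R = 0 := by
        unfold LL Mod
        have h1 : Ioc Q R = ∅ := by
          rw [Ioc_eq_empty_iff]
          omega
        rw [h1]
        simp
      rw [this]
      positivity
    · have h1 := h R hR
      have h3 := LL_split Q R hQR
      have h4 : 0 ≤ LL 0 Q := by
        unfold LL
        exact sum_nonneg fun q _ => by positivity
      nlinarith

end H343
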