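import Pool.Agent.H43.G.R_seed8.H343R2.Defs
import Pool.Agent.H43.G.R_seed8.Helper923.PNT

set_option autoImplicit false
set_option maxHeartbeats 1000000

open Finset

namespace H343

/-- sum of `Λ` over `n ≤ N` not coprime to `q` -/
lemma sum_not_coprime (q N : ℕ) (hq : 1 ≤ q) (hN : 1 ≤ N) :
    ∑ n ∈ (Icc 1 N).filter (fun n => ¬ n.Coprime q), ArithmeticFunction.vonMangoldt n ≤
      q.divisors.card * Real.log N := by
  have h1 : ∑ n ∈ (Icc 1 N).filter (fun n => ¬ n.Coprime q), ArithmeticFunction.vonMangoldt n ≤
      ∑ m ∈ (q.primeFactors).biUnion fun p ↦ image (p ^ ·) (Icc 1 (p.log N)),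
        ArithmeticFunction.vonMangoldt m := by
    rw [← Finset.sum_filter_ne_zero]
    apply Finset.sum_le_sum_of_subset_of_nonneg
    · intro n hn
      rw [mem_filter, mem_filter, mem_Icc] at hn
      obtain ⟨⟨⟨h1, h2⟩, h3⟩, h4⟩ := hn
      have h5 := ArithmeticFunction.vonMangoldt_ne_zero_iff.1 h4
      obtain ⟨p, k, hp, hk, rfl⟩ := (isPrimePow_nat_iff _).1 h5
      have hpq : p ∣ q := by
        by_contra hc
        exact h3 (((Nat.Prime.coprime_iff_not_dvd hp).2 hc).pow_left k)
      rw [mem_biUnion]
      refine ⟨p, Nat.mem_primeFactors.2 ⟨hp, hpq, by omega⟩, ?_⟩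
      rw [mem_image]
      exact ⟨k, mem_Icc.2 ⟨hk, Nat.le_log_of_pow_le hp.one_lt h2⟩, rfl⟩
    · intro n _ _
      exact ArithmeticFunction.vonMangoldt_nonneg
  have h2 : ∑ m ∈ (q.primeFactors).biUnion fun p ↦ image (p ^ ·) (Icc 1 (p.log N)),
        ArithmeticFunction.vonMangoldt m = ∑ p ∈ q.primeFactors, (p.log N : ℝ) * Real.log p := by
    rw [sum_biUnion]
    · apply sum_congr rfl
      intro p hp
      have hpp := Nat.prime_of_mem_primeFactors hp
      rw [sum_image fun a _ b _ hab ↦ Nat.pow_right_injective hpp.two_le hab]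
      have : ∀ k ∈ Icc 1 (p.log N), ArithmeticFunction.vonMangoldt (p ^ k) = Real.log p := by
        intro k hk
        rw [mem_Icc] at hk
        rw [ArithmeticFunction.vonMangoldt_apply_pow (by omega),
          ArithmeticFunction.vonMangoldt_apply_prime hpp]
      rw [sum_congr rfl this]
      simp
    · intro p hp r hr hpr
      have hpp := Nat.prime_of_mem_primeFactors hp
      have hrr := Nat.prime_of_mem_primeFactors hr
      simp only [Function.onFun]
      rw [Finset.disjoint_left]
      intro a ha hb
      rw [mem_image] at ha hb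
      obtain ⟨k, hk, rfl⟩ := ha
      obtain ⟨j, hj, hjk⟩ := hb
      rw [mem_Icc] at hk hj
      apply hpr
      have h6 : r ∣ p ^ k := by
        rw [← show r ^ j = p ^ k from hjk]
        exact dvd_pow_self r (by omega)
      exact ((Nat.prime_dvd_prime_iff_eq hrr hpp).1 (hrr.dvd_of_dvd_pow h6)).symm
  have h3 : ∀ p ∈ q.primeFactors, (p.log N : ℝ) * Real.log p ≤ Real.log N := by
    intro p hp
    have hpp := Nat.prime_of_mem_primeFactors hp
    rw [← Real.log_pow]
    apply Real.log_le_log
    · have := hpp.pos; positivity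
    · exact_mod_cast Nat.pow_log_le_self p (by omega)
  have h4 : (q.primeFactors.card : ℝ) ≤ q.divisors.card := by
    exact_mod_cast card_le_card (fun p hp => by
      rw [Nat.mem_divisors]
      exact ⟨Nat.dvd_of_mem_primeFactors hp, by omega⟩)
  have hlogN : 0 ≤ Real.log N := Real.log_natCast_nonneg N
  calc _ ≤ _ := h1
    _ = _ := h2
    _ ≤ ∑ p ∈ q.primeFactors, Real.log N := sum_le_sum h3
    _ = q.primeFactors.card * Real.log N := by rw [sum_const, nsmul_eq_mul]
    _ ≤ _ := by gcongr

lemma test_bound {B : ℝ} {f : ℝ → ℝ} (hf : Test B f) : ∃ K : ℝ, 0 < K ∧ ∀ v, |f v| ≤ K := by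
  obtain ⟨K, hK⟩ := (isCompact_Icc (a := -B) (b := B)).exists_bound_of_continuousOn
    (hf.smooth.continuous.continuousOn)
  refine ⟨|K| + 1, by positivity, fun v => ?_⟩
  by_cases hv : v ∈ Set.Icc (-B) B
  · have := hK v hv
    rw [Real.norm_eq_abs] at this
    linarith [le_abs_self K]
  · have : B ≤ |v| := by
      rw [Set.mem_Icc, not_and_or, not_le, not_le] at hv
      rw [le_abs]
      rcases hv with hv | hv
      · right; linarith
      · left; linarith
    rw [hf.supp v this, abs_zero]
    positivity

/-- terms not coprime to `q` -/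
theorem not_coprime {B : ℝ} {f : ℝ → ℝ} (hf : Test B f) :
    ∃ C : ℝ, 0 < C ∧ ∀ (x : ℝ) (q M : ℕ), 2 ≤ x → 1 ≤ q →
      ∑ n ∈ (Icc 1 M).filter (fun n => ¬ n.Coprime q), ArithmeticFunction.vonMangoldt n *
          |f (Real.log (n / x))| ≤ C * q.divisors.card * Real.log x := by
  obtain ⟨K, hK0, hK⟩ := test_bound hf
  refine ⟨K * (2 * |B| + 1), by positivity, ?_⟩
  intro x q M hx hq
  have hx0 : 0 < x := by linarith
  set N : ℕ := ⌊Real.exp |B| * x⌋₊ with hN
  have heB : 1 ≤ Real.exp |B| := Real.one_le_exp (abs_nonneg B)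
  have hN1 : 1 ≤ N := by
    rw [hN]
    apply Nat.le_floor
    push_cast
    nlinarith
  have hNle : (N : ℝ) ≤ Real.exp |B| * x := Nat.floor_le (by positivity)
  have h1 : ∑ n ∈ (Icc 1 M).filter (fun n => ¬ n.Coprime q), ArithmeticFunction.vonMangoldt n *
          |f (Real.log (n / x))| ≤
      ∑ n ∈ (Icc 1 N).filter (fun n => ¬ n.Coprime q), K * ArithmeticFunction.vonMangoldt n := by
    rw [← Finset.sum_filter_ne_zero]
    calc _ ≤ ∑ n ∈ (filter (fun n : ℕ => ¬ n.Coprime q) (Icc 1 M)).filter
          (fun n : ℕ => ArithmeticFunction.vonMangoldt n * |f (Real.log (n / x))| ≠ 0),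
            K * ArithmeticFunction.vonMangoldt n := by
          apply sum_le_sum
          intro n _
          rw [mul_comm]
          exact mul_le_mul_of_nonneg_right (hK _) ArithmeticFunction.vonMangoldt_nonneg
      _ ≤ _ := by
          apply Finset.sum_le_sum_of_subset_of_nonneg
          · intro n hn
            rw [mem_filter, mem_filter, mem_Icc] at hn
            obtain ⟨⟨⟨h1, h2⟩, h3⟩, h4⟩ := hn
            rw [mem_filter, mem_Icc]
            refine ⟨⟨h1, ?_⟩, h3⟩
            have hn0 : (0 : ℝ) < n := by exact_mod_cast h1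
            have h5 : f (Real.log (n / x)) ≠ 0 := by
              intro h6
              rw [h6, abs_zero, mul_zero] at h4
              exact h4 rfl
            have h6 : |Real.log (n / x)| < B := by
              by_contra hc
              exact h5 (hf.supp _ (not_lt.1 hc))
            have h7 : Real.log (n / x) ≤ |B| :=
              ((le_abs_self _).trans h6.le).trans (le_abs_self B)
            rw [Real.log_le_iff_le_exp (by positivity), div_le_iff₀ hx0] at h7
            exact Nat.le_floor h7
          · intro n _ _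
            have := ArithmeticFunction.vonMangoldt_nonneg (n := n)
            positivity
  have hlogx : 1 / 2 ≤ Real.log x := by
    have := Real.log_two_gt_d9
    have h2 := Real.log_le_log (by norm_num) hx
    linarith
  have h2 : Real.log N ≤ (2 * |B| + 1) * Real.log x := by
    calc Real.log N ≤ Real.log (Real.exp |B| * x) := by
          apply Real.log_le_log _ hNle
          exact_mod_cast hN1
      _ = |B| + Real.log x := by
          rw [Real.log_mul (Real.exp_pos _).ne' hx0.ne', Real.log_exp]
      _ ≤ (2 * |B| + 1) * Real.log x := by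
          have := abs_nonneg B
          nlinarith
  calc _ ≤ _ := h1
    _ = K * ∑ n ∈ (Icc 1 N).filter (fun n => ¬ n.Coprime q), ArithmeticFunction.vonMangoldt n := by
        rw [mul_sum]
    _ ≤ K * (q.divisors.card * Real.log N) :=
        mul_le_mul_of_nonneg_left (sum_not_coprime q N hq hN1) hK0.le
    _ ≤ K * (q.divisors.card * ((2 * |B| + 1) * Real.log x)) := by gcongr
    _ = _ := by ring

lemma pnt_full {B : ℝ} {f : ℝ → ℝ} (hf : Test B f) (η : ℝ) (hη : 0 < η) :
    ∃ X0 : ℝ, 0 < X0 ∧ ∀ (x : ℝ) (M : ℕ), X0 ≤ x → Real.exp B * x ≤ M →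
      |∑ n ∈ Icc 1 M, ArithmeticFunction.vonMangoldt n *
          f (Real.log (n / x)) - x * ∫ v, f v * Real.exp v| ≤ η * x := by
  rcases le_or_gt B 0 with hB | hB
  · have hz : ∀ v, f v = 0 := fun v => hf.supp v (hB.trans (abs_nonneg v))
    refine ⟨1, one_pos, fun x M hx _ => ?_⟩
    simp only [hz, mul_zero, sum_const_zero, zero_mul, MeasureTheory.integral_zero, sub_zero,
      abs_zero]
    nlinarith
  have hfd : Differentiable ℝ f := (contDiff_infty_iff_deriv.1 hf.smooth).1
  have hf1c : Continuous (deriv f) := (contDiff_infty_iff_deriv.1 hf.smooth).2.continuous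
  obtain ⟨K, hK⟩ := (isCompact_Icc (a := -B) (b := B)).exists_bound_of_continuousOn
    (hf1c.continuousOn)
  have hK0 : 0 ≤ K := (norm_nonneg _).trans (hK 0 ⟨by linarith, hB.le⟩)
  -- the prime number theorem
  obtain ⟨Y0, hY0⟩ : ∃ Y0 : ℝ, ∀ y : ℝ, Y0 ≤ y → |Chebyshev.psi y - y| ≤
      η / ((K + 1) * Real.exp B) * y := by
    have h := Pool.Agent.Helper923.PNT.psi_div_tendsto
    rw [Metric.tendsto_atTop] at h
    obtain ⟨Y0, hY0⟩ := h (η / ((K + 1) * Real.exp B)) (by positivity)
    refine ⟨max Y0 1, fun y hy => ?_⟩
    have hy1 : 1 ≤ y := (le_max_right _ _).trans hy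
    have hy0 : 0 < y := by linarith
    have h1 := hY0 y ((le_max_left _ _).trans hy)
    rw [Real.dist_eq] at h1
    have h2 : Chebyshev.psi y - y = (Chebyshev.psi y / y - 1) * y := by field_simp
    rw [h2, abs_mul, abs_of_pos hy0]
    exact mul_le_mul_of_nonneg_right h1.le hy0.le
  refine ⟨max 1 (Real.exp B * Y0), by positivity, ?_⟩
  intro x M hx hM
  have hx1 : 1 ≤ x := (le_max_left _ _).trans hx
  have hx0 : 0 < x := by linarith
  have hxY : Real.exp B * Y0 ≤ x := (le_max_right _ _).trans hx
  set a := Real.exp (-B) * x with ha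
  set b := Real.exp B * x with hb
  have ha0 : 0 < a := by positivity
  have hb0 : 0 < b := by positivity
  have hab : a ≤ b := by
    rw [ha, hb]
    exact mul_le_mul_of_nonneg_right (Real.exp_le_exp.2 (by linarith)) hx0.le
  have haY : Y0 ≤ a := by
    have : Real.exp (-B) * (Real.exp B * Y0) ≤ Real.exp (-B) * x :=
      mul_le_mul_of_nonneg_left hxY (Real.exp_pos _).le
    rwa [← mul_assoc, ← Real.exp_add, neg_add_cancel, Real.exp_zero, one_mul] at this
  set g : ℝ → ℝ := fun t => f (Real.log (t / x)) with hg
  set g' : ℝ → ℝ := fun t => deriv f (Real.log (t / x)) / t with hg'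
  have hgd : ∀ t, 0 < t → HasDerivAt g (g' t) t := by
    intro t ht
    have h1 : HasDerivAt (fun t : ℝ => Real.log (t / x)) (1 / t) t := by
      have h2 : HasDerivAt (fun t : ℝ => t / x) (1 / x) t := (hasDerivAt_id' t).div_const x
      have h3 := h2.log (by positivity)
      refine h3.congr_deriv ?_
      field_simp
    have h2 := (hfd (Real.log (t / x))).hasDerivAt.comp t h1
    refine h2.congr_deriv ?_
    simp only [hg']
    ring
  have hloga : Real.log (a / x) = -B := by
    rw [ha, mul_div_assoc, div_self hx0.ne', mul_one, Real.log_exp]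
  have hlogb : Real.log (b / x) = B := by
    rw [hb, mul_div_assoc, div_self hx0.ne', mul_one, Real.log_exp]
  have hga : g a = 0 := by
    simp only [hg]; rw [hloga]; exact hf.supp _ (by rw [abs_neg]; exact le_abs_self B)
  have hgb : g b = 0 := by
    simp only [hg]; rw [hlogb]; exact hf.supp _ (le_abs_self B)
  have hg'c : ContinuousOn g' (Set.Icc a b) := by
    apply ContinuousOn.div
    · apply hf1c.comp_continuousOn
      apply ContinuousOn.log
      · exact (continuous_id.div_const x).continuousOn
      · intro t ht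
        have : 0 < t := ha0.trans_le ht.1
        positivity
    · exact continuousOn_id
    · intro t ht
      exact (ha0.trans_le ht.1).ne'
  have hderiv : ∀ t ∈ Set.Icc a b, deriv g t = g' t := fun t ht =>
    (hgd t (ha0.trans_le ht.1)).deriv
  -- the sum
  have hS1 : ∑ n ∈ Icc 1 M, ArithmeticFunction.vonMangoldt n * f (Real.log (n / x)) =
      ∑ n ∈ Ioc ⌊a⌋₊ ⌊b⌋₊, g n * ArithmeticFunction.vonMangoldt n := by
    have hbM : ⌊b⌋₊ ≤ M := by
      have : ((⌊b⌋₊ : ℕ) : ℝ) ≤ M := (Nat.floor_le hb0.le).trans hM
      exact_mod_cast this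
    symm
    calc ∑ n ∈ Ioc ⌊a⌋₊ ⌊b⌋₊, g n * ArithmeticFunction.vonMangoldt n
        = ∑ n ∈ Ioc ⌊a⌋₊ ⌊b⌋₊, ArithmeticFunction.vonMangoldt n * f (Real.log (n / x)) := by
          apply sum_congr rfl; intro n _; simp only [hg]; ring
      _ = _ := by
          apply sum_subset
          · intro n hn
            rw [mem_Ioc] at hn
            rw [mem_Icc]
            omega
          · intro n hn hn2
            rw [mem_Icc] at hn
            rw [mem_Ioc, not_and_or, not_lt, not_le] at hn2
            have hn0 : (0 : ℝ) < n := by exact_mod_cast hn.1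
            have : f (Real.log (n / x)) = 0 := by
              apply hf.supp
              rcases hn2 with h | h
              · have h1 : (n : ℝ) ≤ a := by
                  have : (n : ℝ) ≤ (⌊a⌋₊ : ℕ) := by exact_mod_cast h
                  exact this.trans (Nat.floor_le ha0.le)
                have h2 : Real.log (n / x) ≤ -B := by
                  rw [← hloga]
                  apply Real.log_le_log (by positivity)
                  gcongr
                rw [le_abs]; right; linarith
              · have h1 : b ≤ (n : ℝ) := by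
                  have h3 := (Nat.lt_floor_add_one b).le
                  have h4 : ((⌊b⌋₊ : ℕ) : ℝ) + 1 ≤ n := by exact_mod_cast h
                  linarith
                have h2 : B ≤ Real.log (n / x) := by
                  rw [← hlogb]
                  apply Real.log_le_log (by positivity)
                  gcongr
                rw [le_abs]; left; linarith
            rw [this, mul_zero]
  have hcont_ii : IntervalIntegrable g' MeasureTheory.volume a b := by
    apply ContinuousOn.intervalIntegrable
    rwa [Set.uIcc_of_le hab]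
  have hS2 : ∑ n ∈ Ioc ⌊a⌋₊ ⌊b⌋₊, g n * ArithmeticFunction.vonMangoldt n =
      - ∫ t in a..b, g' t * Chebyshev.psi t := by
    rw [sum_mul_eq_sub_sub_integral_mul (fun n => ArithmeticFunction.vonMangoldt n) ha0.le hab
      (fun t ht => (hgd t (ha0.trans_le ht.1)).differentiableAt)
      ((hg'c.integrableOn_Icc).congr_fun (fun t ht => (hderiv t ht).symm) measurableSet_Icc),
      hga, hgb, zero_mul, zero_mul, sub_zero, zero_sub, intervalIntegral.integral_of_le hab]
    congr 1
    apply MeasureTheory.setIntegral_congr_fun measurableSet_Ioc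
    intro t ht
    simp only
    rw [hderiv t ⟨ht.1.le, ht.2⟩, Chebyshev.psi_eq_sum_Icc]
  -- the integral
  have hI1 : x * ∫ v, f v * Real.exp v = ∫ t in a..b, g t := by
    have h1 : ∫ v, f v * Real.exp v = ∫ v in (-B)..B, f v * Real.exp v := by
      rw [intervalIntegral.integral_of_le (by linarith)]
      symm
      apply MeasureTheory.setIntegral_eq_integral_of_forall_compl_eq_zero
      intro v hv
      have : B ≤ |v| := by
        rw [Set.mem_Ioc, not_and_or, not_lt, not_le] at hv
        rw [le_abs]
        rcases hv with hv | hv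
        · right; linarith
        · left; linarith
      rw [hf.supp v this, zero_mul]
    have h2 := intervalIntegral.integral_comp_mul_deriv (a := -B) (b := B)
      (f := fun v => x * Real.exp v) (f' := fun v => x * Real.exp v) (g := fun t => g (max t a))
      (fun v _ => (Real.hasDerivAt_exp v).const_mul x) (by fun_prop) (by
        apply continuous_iff_continuousAt.2
        intro t
        have hpos : 0 < max t a := lt_max_of_lt_right ha0
        exact ContinuousAt.comp (f := fun t => max t a) (g := g) (x := t)
          (hgd _ hpos).continuousAt (by fun_prop))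
    have e1 : x * Real.exp (-B) = a := by rw [ha]; ring
    have e2 : x * Real.exp B = b := by rw [hb]; ring
    simp only [e1, e2] at h2
    have h3 : ∫ t in a..b, g (max t a) = ∫ t in a..b, g t := by
      apply intervalIntegral.integral_congr
      intro t ht
      rw [Set.uIcc_of_le hab] at ht
      simp only
      rw [max_eq_left ht.1]
    rw [h3] at h2
    rw [← h2, h1, ← intervalIntegral.integral_const_mul]
    apply intervalIntegral.integral_congr
    intro v hv
    rw [Set.uIcc_of_le (by linarith)] at hv
    simp only [Function.comp, hg]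
    have h4 : a ≤ x * Real.exp v := by
      rw [← e1]
      exact mul_le_mul_of_nonneg_left (Real.exp_le_exp.2 hv.1) hx0.le
    rw [max_eq_left h4, mul_comm x (Real.exp v), mul_div_assoc, div_self hx0.ne', mul_one,
      Real.log_exp]
    ring
  have hI2 : ∫ t in a..b, g t = - ∫ t in a..b, g' t * t := by
    have h := intervalIntegral.integral_mul_deriv_eq_deriv_mul (a := a) (b := b)
      (u := g) (v := fun t => t) (u' := g') (v' := fun _ => 1)
      (fun t ht => by
        rw [Set.uIcc_of_le hab] at ht
        exact hgd t (ha0.trans_le ht.1))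
      (fun t _ => hasDerivAt_id' t) hcont_ii (by simp)
    simp only [mul_one, hga, hgb, zero_mul, sub_zero, zero_sub] at h
    exact h
  have hii1 : IntervalIntegrable (fun t => g' t * Chebyshev.psi t) MeasureTheory.volume a b := by
    apply IntervalIntegrable.continuousOn_mul
    · exact Chebyshev.psi_mono.intervalIntegrable
    · rwa [Set.uIcc_of_le hab]
  have hii2 : IntervalIntegrable (fun t => g' t * t) MeasureTheory.volume a b := by
    apply ContinuousOn.intervalIntegrable
    rw [Set.uIcc_of_le hab]
    exact hg'c.mul continuousOn_id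
  rw [hS1, hS2, hI1, hI2]
  have hdiff : (- ∫ t in a..b, g' t * Chebyshev.psi t) - (- ∫ t in a..b, g' t * t) =
      - ∫ t in a..b, g' t * (Chebyshev.psi t - t) := by
    have : ∫ t in a..b, g' t * (Chebyshev.psi t - t) =
        (∫ t in a..b, g' t * Chebyshev.psi t) - ∫ t in a..b, g' t * t := by
      rw [← intervalIntegral.integral_sub hii1 hii2]
      congr 1
      funext t
      ring
    rw [this]; ring
  rw [hdiff, abs_neg]
  set η' := η / ((K + 1) * Real.exp B) with hη'
  have hη'0 : 0 < η' := by positivity
  have hbd : ‖∫ t in a..b, g' t * (Chebyshev.psi t - t)‖ ≤ (K * η') * |b - a| := by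
    apply intervalIntegral.norm_integral_le_of_norm_le_const
    intro t ht
    rw [Set.uIoc_of_le hab] at ht
    have ht0 : 0 < t := ha0.trans ht.1
    have h1 := hY0 t (haY.trans ht.1.le)
    have h2 : Real.log (t / x) ∈ Set.Icc (-B) B := by
      constructor
      · rw [← hloga]
        apply Real.log_le_log (by positivity)
        gcongr
        exact ht.1.le
      · rw [← hlogb]
        apply Real.log_le_log (by positivity)
        gcongr
        exact ht.2
    have h3 := hK _ h2
    rw [Real.norm_eq_abs] at h3
    simp only [hg']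
    rw [Real.norm_eq_abs, abs_mul, abs_div, abs_of_pos ht0]
    calc |deriv f (Real.log (t / x))| / t * |Chebyshev.psi t - t| ≤ K / t * (η' * t) := by
          gcongr
      _ = K * η' := by field_simp
  rw [Real.norm_eq_abs] at hbd
  calc _ ≤ _ := hbd
    _ ≤ (K * η') * b := by
        apply mul_le_mul_of_nonneg_left _ (by positivity)
        rw [abs_of_nonneg (by linarith)]
        linarith
    _ ≤ ((K + 1) * η') * b := by gcongr; linarith
    _ = η * x := by
        rw [hη', hb]
        field_simp

/-- prime number theorem with smooth weight -/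
theorem pnt_smooth {B : ℝ} {f : ℝ → ℝ} (hf : Test B f) (η : ℝ) (hη : 0 < η) :
    ∃ X0 C : ℝ, 0 < X0 ∧ 0 < C ∧ ∀ (x : ℝ) (q M : ℕ), X0 ≤ x → 1 ≤ q → Real.exp B * x ≤ M →
      |∑ n ∈ (Icc 1 M).filter (fun n => n.Coprime q), ArithmeticFunction.vonMangoldt n *
          f (Real.log (n / x)) - x * ∫ v, f v * Real.exp v|
        ≤ η * x + C * q.divisors.card * Real.log x := by
  obtain ⟨X0, hX0, h1⟩ := pnt_full hf η hη
  obtain ⟨C, hC, h2⟩ := not_coprime hf
  refine ⟨max X0 2, C, by positivity, hC, ?_⟩
  intro x q M hx hq hM
  have hx1 : X0 ≤ x := (le_max_left _ _).trans hx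
  have hx2 : 2 ≤ x := (le_max_right _ _).trans hx
  have h3 := h1 x M hx1 hM
  have h4 := h2 x q M hx2 hq
  have h5 := sum_filter_add_sum_filter_not (Icc 1 M) (fun n => n.Coprime q)
    (fun n => ArithmeticFunction.vonMangoldt n * f (Real.log (n / x)))
  have h6 : |∑ n ∈ (Icc 1 M).filter (fun n => ¬ n.Coprime q), ArithmeticFunction.vonMangoldt n *
          f (Real.log (n / x))| ≤ C * q.divisors.card * Real.log x := by
    refine (abs_sum_le_sum_abs _ _).trans (le_trans (le_of_eq ?_) h4)
    apply sum_congr rfl
    intro n _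
    rw [abs_mul, abs_of_nonneg ArithmeticFunction.vonMangoldt_nonneg]
  rw [abs_le] at h3 h6 ⊢
  constructor <;> linarith [h3.1, h3.2, h6.1, h6.2]

end H343
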