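import Pool.Agent.H43.G.R_seed8.H343R2.Defs
import Pool.Agent.H43.G.R_seed8.Helper112.Arith

open Finset MeasureTheory

namespace H343

theorem phi_mul_card (n : ℕ) (hn : 1 ≤ n) : n ≤ n.totient * n.divisors.card := by
  have hn0 : n ≠ 0 := by omega
  have h1 := Nat.totient_mul_prod_primeFactors n
  have h2 : ∏ p ∈ n.primeFactors, p ≤ n.divisors.card * ∏ p ∈ n.primeFactors, (p - 1) := by
    rw [Nat.card_divisors hn0, ← Finset.prod_mul_distrib]
    apply Finset.prod_le_prod'
    intro p hp
    have hpp := Nat.prime_of_mem_primeFactors hp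
    have hv : 1 ≤ n.factorization p := by
      rw [Nat.one_le_iff_ne_zero, ← Finsupp.mem_support_iff, Nat.support_factorization]
      exact hp
    have := hpp.two_le
    calc p ≤ 2 * (p - 1) := by omega
      _ ≤ (n.factorization p + 1) * (p - 1) := Nat.mul_le_mul_right _ (by omega)
  have h3 : 0 < ∏ p ∈ n.primeFactors, (p - 1) := by
    apply Finset.prod_pos
    intro p hp
    have := (Nat.prime_of_mem_primeFactors hp).two_le
    omega
  have h4 : n * ∏ p ∈ n.primeFactors, (p - 1) ≤
      (n.totient * n.divisors.card) * ∏ p ∈ n.primeFactors, (p - 1) := by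
    rw [← h1, mul_assoc]
    exact Nat.mul_le_mul_left _ h2
  exact Nat.le_of_mul_le_mul_right h4 h3

lemma step_bound (h h' : ℝ → ℝ) (b : ℝ) (hd : ∀ z ∈ Set.Icc b (b+1), HasDerivAt h (h' z) z)
    (hc : ContinuousOn h' (Set.Icc b (b+1))) :
    |h b - ∫ z in b..(b+1), h z| ≤ ∫ z in b..(b+1), |h' z| := by
  have hbb : b ≤ b + 1 := by linarith
  have hhc : ContinuousOn h (Set.Icc b (b+1)) :=
    fun z hz => (hd z hz).continuousAt.continuousWithinAt
  have hci : IntervalIntegrable (fun w => |h' w|) volume b (b+1) :=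
    (hc.abs).intervalIntegrable_of_Icc hbb
  have h1 : h b - ∫ z in b..(b+1), h z = ∫ z in b..(b+1), (h b - h z) := by
    rw [intervalIntegral.integral_sub]
    · simp
    · simp
    · exact hhc.intervalIntegrable_of_Icc hbb
  rw [h1]
  have key : ∀ z ∈ Set.Icc b (b+1), |h b - h z| ≤ ∫ w in b..(b+1), |h' w| := by
    intro z hz
    have hsub : Set.Icc b z ⊆ Set.Icc b (b+1) := Set.Icc_subset_Icc le_rfl hz.2
    have h2 : ∫ w in b..z, h' w = h z - h b := by
      apply intervalIntegral.integral_eq_sub_of_hasDerivAt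
      · intro x hx
        rw [Set.uIcc_of_le hz.1] at hx
        exact hd x (hsub hx)
      · exact (hc.mono hsub).intervalIntegrable_of_Icc hz.1
    rw [abs_sub_comm, ← h2]
    calc |∫ w in b..z, h' w| ≤ ∫ w in b..z, |h' w| :=
          intervalIntegral.abs_integral_le_integral_abs hz.1
      _ ≤ ∫ w in b..(b+1), |h' w| := by
          apply intervalIntegral.integral_mono_interval le_rfl hz.1 hz.2 _ hci
          exact Filter.Eventually.of_forall fun w => abs_nonneg _
  calc |∫ z in b..(b+1), (h b - h z)| ≤ ∫ z in b..(b+1), |h b - h z| :=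
        intervalIntegral.abs_integral_le_integral_abs hbb
    _ ≤ ∫ z in b..(b+1), (∫ w in b..(b+1), |h' w|) := by
        apply intervalIntegral.integral_mono_on hbb _ _ key
        · exact ((continuousOn_const.sub hhc).abs).intervalIntegrable_of_Icc hbb
        · simp
    _ = _ := by simp

lemma sum_bound (h h' : ℝ → ℝ) (K : ℕ) (hd : ∀ z : ℝ, 1 ≤ z → HasDerivAt h (h' z) z)
    (hc : ContinuousOn h' (Set.Ici 1)) :
    |∑ b ∈ Icc 1 K, h b - ∫ z in (1:ℝ)..(K+1), h z| ≤ ∫ z in (1:ℝ)..(K+1), |h' z| := by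
  have hhc : ContinuousOn h (Set.Ici 1) :=
    fun z hz => (hd z hz).continuousAt.continuousWithinAt
  induction K with
  | zero => simp
  | succ K ih =>
    have hK : (1:ℝ) ≤ (K:ℝ) + 1 := by
      have : (0:ℝ) ≤ K := Nat.cast_nonneg K
      linarith
    have hs1 : Set.Icc (1:ℝ) (K+1) ⊆ Set.Ici 1 := fun z hz => hz.1
    have hs2 : Set.Icc ((K:ℝ)+1) (K+1+1) ⊆ Set.Ici 1 := fun z hz => hK.trans hz.1
    have hs := step_bound h h' (K+1) (fun z hz => hd z (hs2 hz)) (hc.mono hs2)
    rw [Finset.sum_Icc_succ_top (by omega)]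
    push_cast
    have e1 : ∫ z in (1:ℝ)..(K+1+1), h z =
        (∫ z in (1:ℝ)..(K+1), h z) + ∫ z in ((K:ℝ)+1)..(K+1+1), h z := by
      rw [intervalIntegral.integral_add_adjacent_intervals]
      · exact (hhc.mono hs1).intervalIntegrable_of_Icc hK
      · exact (hhc.mono hs2).intervalIntegrable_of_Icc (by linarith)
    have e2 : ∫ z in (1:ℝ)..(K+1+1), |h' z| =
        (∫ z in (1:ℝ)..(K+1), |h' z|) + ∫ z in ((K:ℝ)+1)..(K+1+1), |h' z| := by
      rw [intervalIntegral.integral_add_adjacent_intervals]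
      · exact ((hc.mono hs1).abs).intervalIntegrable_of_Icc hK
      · exact ((hc.mono hs2).abs).intervalIntegrable_of_Icc (by linarith)
    rw [e1, e2]
    calc |∑ b ∈ Icc 1 K, h b + h (K+1) -
          ((∫ z in (1:ℝ)..(K+1), h z) + ∫ z in ((K:ℝ)+1)..(K+1+1), h z)|
        = |(∑ b ∈ Icc 1 K, h b - ∫ z in (1:ℝ)..(K+1), h z) +
          (h (K+1) - ∫ z in ((K:ℝ)+1)..(K+1+1), h z)| := by congr 1; ring
      _ ≤ _ := (abs_add_le _ _).trans (add_le_add ih hs)

lemma Test.hasCompactSupport {B : ℝ} {l : ℝ → ℝ} (hl : Test B l) : HasCompactSupport l := by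
  apply HasCompactSupport.intro (isCompact_Icc : IsCompact (Set.Icc (-B) B))
  intro v hv
  apply hl.supp
  rw [Set.mem_Icc, not_and_or] at hv
  rw [le_abs]
  rcases hv with hv | hv
  · right; linarith
  · left; linarith

lemma Test.bounded {B : ℝ} {l : ℝ → ℝ} (hl : Test B l) : ∃ M : ℝ, 0 < M ∧ ∀ v, |l v| ≤ M := by
  obtain ⟨M, hM⟩ := hl.hasCompactSupport.exists_bound_of_continuous hl.smooth.continuous
  refine ⟨max M 1, by positivity, fun v => ?_⟩
  exact (hM v).trans (le_max_left _ _)

lemma smooth_sum {B : ℝ} {l : ℝ → ℝ} (hl : Test B l) : ∃ C : ℝ, 0 < C ∧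
    ∀ (K : ℕ) (δ : ℝ), 0 < δ → Real.exp B ≤ δ * (K + 1) →
      |∑ b ∈ Icc 1 K, l (Real.log (δ * b)) - δ⁻¹ * ∫ v, l v * Real.exp v| ≤ C := by
  obtain ⟨M, hM0, hM⟩ := hl.bounded
  have hdc : Continuous (deriv l) := hl.smooth.continuous_deriv (by simp)
  have hdi : Integrable (fun v => |deriv l v|) :=
    ((hdc.integrable_of_hasCompactSupport hl.hasCompactSupport.deriv)).abs
  have hli : Integrable (fun v => l v * Real.exp v) := by
    apply Continuous.integrable_of_hasCompactSupport
    · exact hl.smooth.continuous.mul Real.continuous_exp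
    · exact hl.hasCompactSupport.mul_right
  refine ⟨(∫ v, |deriv l v|) + M, by positivity, ?_⟩
  intro K δ hδ hK
  have hd : ∀ z : ℝ, 1 ≤ z → HasDerivAt (fun z => Real.log (δ * z)) (δ / (δ * z)) z := by
    intro z hz
    have hz0 : δ * z ≠ 0 := by positivity
    have := ((hasDerivAt_id z).const_mul δ).log hz0
    simpa using this
  have hcf : ContinuousOn (fun z : ℝ => δ / (δ * z)) (Set.Ici 1) := by
    apply ContinuousOn.div continuousOn_const (continuousOn_const.mul continuousOn_id)
    intro z hz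
    have : (1:ℝ) ≤ z := hz
    have : δ * z ≠ 0 := by positivity
    exact this
  have hcl : ContinuousOn (fun z : ℝ => Real.log (δ * z)) (Set.Ici 1) :=
    fun z hz => (hd z hz).continuousAt.continuousWithinAt
  have hdl : ∀ v, HasDerivAt l (deriv l v) v := fun v =>
    (hl.smooth.differentiable (by simp) v).hasDerivAt
  have hs := sum_bound (fun z => l (Real.log (δ * z)))
    (fun z => deriv l (Real.log (δ * z)) * (δ / (δ * z))) K
    (fun z hz => (hdl _).comp z (hd z hz))
    ((hdc.comp_continuousOn hcl).mul hcf)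
  have hK1 : (1:ℝ) ≤ (K:ℝ) + 1 := by
    have : (0:ℝ) ≤ K := Nat.cast_nonneg K
    linarith
  have hu : Set.uIcc (1:ℝ) ((K:ℝ)+1) = Set.Icc (1:ℝ) ((K:ℝ)+1) := Set.uIcc_of_le hK1
  have hlog : Real.log (δ * 1) ≤ Real.log (δ * (K + 1)) := by
    apply Real.log_le_log (by positivity)
    exact mul_le_mul_of_nonneg_left hK1 hδ.le
  have hB : B ≤ Real.log (δ * (K + 1)) := by
    rw [Real.le_log_iff_exp_le (by positivity)]; exact hK
  -- the error term
  have h1 : ∫ z in (1:ℝ)..(K+1), |deriv l (Real.log (δ * z)) * (δ / (δ * z))| ≤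
      ∫ v, |deriv l v| := by
    have e : ∫ z in (1:ℝ)..(K+1), |deriv l (Real.log (δ * z)) * (δ / (δ * z))| =
        ∫ z in (1:ℝ)..(K+1), ((fun v => |deriv l v|) ∘ (fun z => Real.log (δ * z))) z *
          (δ / (δ * z)) := by
      apply intervalIntegral.integral_congr
      intro z hz
      rw [hu] at hz
      have : 0 < z := by linarith [hz.1]
      simp only [Function.comp]
      rw [abs_mul, abs_of_pos (show 0 < δ / (δ * z) by positivity)]
    rw [e, intervalIntegral.integral_comp_mul_deriv (f := fun z => Real.log (δ * z))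
      (f' := fun z => δ / (δ * z)) (g := fun v => |deriv l v|)]
    · rw [intervalIntegral.integral_of_le hlog]
      exact setIntegral_le_integral hdi (Filter.Eventually.of_forall fun v => abs_nonneg _)
    · intro x hx; rw [hu] at hx; exact hd x hx.1
    · rw [hu]; exact hcf.mono fun z hz => hz.1
    · exact hdc.abs
  -- the main term
  have h2 : ∫ z in (1:ℝ)..(K+1), l (Real.log (δ * z)) =
      δ⁻¹ * ∫ v in (Real.log (δ * 1))..(Real.log (δ * (K+1))), l v * Real.exp v := by
    rw [← intervalIntegral.integral_comp_mul_deriv (f := fun z => Real.log (δ * z))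
      (f' := fun z => δ / (δ * z)) (g := fun v => l v * Real.exp v),
      ← intervalIntegral.integral_const_mul]
    · apply intervalIntegral.integral_congr
      intro z hz
      rw [hu] at hz
      have : 0 < z := by linarith [hz.1]
      simp only [Function.comp]
      rw [Real.exp_log (by positivity)]
      field_simp
    · intro x hx; rw [hu] at hx; exact hd x hx.1
    · rw [hu]; exact hcf.mono fun z hz => hz.1
    · exact hl.smooth.continuous.mul Real.continuous_exp
  have h3 : ∫ v, l v * Real.exp v = (∫ v in Set.Iic (Real.log δ), l v * Real.exp v) +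
      ∫ v in (Real.log (δ * 1))..(Real.log (δ * (K+1))), l v * Real.exp v := by
    rw [intervalIntegral.integral_of_le hlog, mul_one]
    rw [mul_one] at hlog
    have e1 : ∫ v in Set.Iic (Real.log (δ * (K+1))), l v * Real.exp v =
        ∫ v, l v * Real.exp v := by
      apply setIntegral_eq_integral_of_forall_compl_eq_zero
      intro v hv
      rw [Set.mem_Iic, not_le] at hv
      rw [hl.supp v (by rw [le_abs]; left; linarith), zero_mul]
    rw [← e1, ← Set.Iic_union_Ioc_eq_Iic hlog]
    apply setIntegral_union _ measurableSet_Ioc hli.integrableOn hli.integrableOn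
    rw [Set.disjoint_left]
    intro v hv hv2
    exact absurd hv2.1 (not_lt.2 hv)
  have h4 : |δ⁻¹ * ∫ v in Set.Iic (Real.log δ), l v * Real.exp v| ≤ M := by
    have : |∫ v in Set.Iic (Real.log δ), l v * Real.exp v| ≤ M * δ := by
      calc |∫ v in Set.Iic (Real.log δ), l v * Real.exp v|
          ≤ ∫ v in Set.Iic (Real.log δ), |l v * Real.exp v| := abs_integral_le_integral_abs
        _ ≤ ∫ v in Set.Iic (Real.log δ), M * Real.exp v := by
            apply setIntegral_mono
            · exact hli.abs.integrableOn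
            · exact (integrableOn_exp_Iic _).const_mul M
            · intro v
              simp only
              rw [abs_mul, Real.abs_exp]
              exact mul_le_mul_of_nonneg_right (hM v) (Real.exp_pos v).le
        _ = M * δ := by
            rw [integral_const_mul, integral_exp_Iic, Real.exp_log hδ]
    rw [abs_mul, abs_of_pos (inv_pos.2 hδ)]
    calc δ⁻¹ * |∫ v in Set.Iic (Real.log δ), l v * Real.exp v| ≤ δ⁻¹ * (M * δ) :=
          mul_le_mul_of_nonneg_left this (by positivity)
      _ = M := by field_simp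
  rw [h2] at hs
  rw [h3]
  have hs' := hs.trans h1
  rw [abs_le] at hs' h4 ⊢
  constructor
  · have := hs'.1; have := h4.2; rw [mul_add]; linarith
  · have := hs'.2; have := h4.1; rw [mul_add]; linarith

lemma sum_moebius (n : ℕ) :
    ∑ d ∈ n.divisors, (ArithmeticFunction.moebius d : ℤ) = if n = 1 then 1 else 0 := by
  rw [← ArithmeticFunction.coe_mul_zeta_apply, ArithmeticFunction.moebius_mul_coe_zeta,
    ArithmeticFunction.one_apply]

lemma sum_coprime {R : Type} [CommRing R] (q N : ℕ) (hq : 1 ≤ q) (g : ℕ → R) :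
    ∑ a ∈ (Icc 1 N).filter (fun a => a.Coprime q), g a =
      ∑ d ∈ q.divisors, ((ArithmeticFunction.moebius d : ℤ) : R) *
        ∑ b ∈ Icc 1 (N / d), g (d * b) := by
  have h1 : ∀ a ∈ Icc 1 N, (if a.Coprime q then g a else 0) =
      ∑ d ∈ q.divisors, if d ∣ a then ((ArithmeticFunction.moebius d : ℤ) : R) * g a else 0 := by
    intro a ha
    have hf : q.divisors.filter (fun d => d ∣ a) = (a.gcd q).divisors := by
      ext d
      simp only [Finset.mem_filter, Nat.mem_divisors, Nat.dvd_gcd_iff]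
      constructor
      · rintro ⟨⟨h1, h2⟩, h3⟩
        exact ⟨⟨h3, h1⟩, by rw [Ne, Nat.gcd_eq_zero_iff]; omega⟩
      · rintro ⟨⟨h1, h2⟩, h3⟩
        exact ⟨⟨h2, by omega⟩, h1⟩
    rw [← Finset.sum_filter, hf, ← Finset.sum_mul, ← Int.cast_sum, sum_moebius]
    by_cases hc : a.Coprime q
    · rw [if_pos hc, if_pos hc]; simp
    · rw [if_neg hc, if_neg hc]; simp
  rw [Finset.sum_filter, Finset.sum_congr rfl h1, Finset.sum_comm]
  apply Finset.sum_congr rfl
  intro d hd
  have hd0 : 0 < d := Nat.pos_of_mem_divisors hd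
  rw [← Finset.sum_filter, Finset.mul_sum]
  symm
  apply Finset.sum_nbij' (fun b => d * b) (fun a => a / d)
  · intro b hb
    rw [Finset.mem_Icc, Nat.le_div_iff_mul_le hd0] at hb
    rw [Finset.mem_filter, Finset.mem_Icc]
    refine ⟨⟨?_, by linarith [hb.2, mul_comm b d]⟩, dvd_mul_right _ _⟩
    exact Nat.mul_pos hd0 hb.1
  · intro a ha
    rw [Finset.mem_filter, Finset.mem_Icc] at ha
    rw [Finset.mem_Icc]
    exact ⟨Nat.div_pos (Nat.le_of_dvd ha.1.1 ha.2) hd0, Nat.div_le_div_right ha.1.2⟩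
  · intro b hb
    exact Nat.mul_div_cancel_left b hd0
  · intro a ha
    rw [Finset.mem_filter] at ha
    exact Nat.mul_div_cancel' ha.2
  · intro b hb
    rfl

lemma sum_moebius_div (q : ℕ) (hq : 1 ≤ q) :
    ∑ d ∈ q.divisors, ((ArithmeticFunction.moebius d : ℤ) : ℝ) * ((q : ℝ) / d) =
      Nat.totient q := by
  have h := (ArithmeticFunction.sum_eq_iff_sum_mul_moebius_eq (R := ℝ)
    (f := fun n => (Nat.totient n : ℝ)) (g := fun n => (n : ℝ))).1 (by
      intro n hn
      rw [← Nat.cast_sum, Nat.sum_totient]) q hq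
  rw [← h, Nat.sum_divisorsAntidiagonal (f := fun a b =>
    ((ArithmeticFunction.moebius a : ℤ) : ℝ) * (b : ℝ))]
  apply Finset.sum_congr rfl
  intro d hd
  have hd0 : d ≠ 0 := (Nat.pos_of_mem_divisors hd).ne'
  rw [Nat.cast_div (Nat.dvd_of_mem_divisors hd) (by exact_mod_cast hd0)]

theorem div_bound (δ : ℝ) (hδ : 0 < δ) : ∃ C : ℝ, 0 < C ∧ ∀ n : ℕ, 1 ≤ n →
    (n.divisors.card : ℝ) ≤ C * (n : ℝ) ^ δ :=
  Pool.Agent.Helper112.divisor_bound δ hδ

theorem phi_bound (δ : ℝ) (hδ : 0 < δ) : ∃ c : ℝ, 0 < c ∧ ∀ n : ℕ, 1 ≤ n →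
    c * (n : ℝ) ^ (1 - δ) ≤ (Nat.totient n : ℝ) := by
  obtain ⟨C, hC, h⟩ := div_bound δ hδ
  refine ⟨1 / C, by positivity, fun n hn => ?_⟩
  have hn0 : (0:ℝ) < n := by exact_mod_cast hn
  have h1 : (n : ℝ) ≤ n.totient * n.divisors.card := by exact_mod_cast phi_mul_card n hn
  have h2 : (n : ℝ) ≤ n.totient * (C * (n : ℝ) ^ δ) :=
    h1.trans (mul_le_mul_of_nonneg_left (h n hn) (Nat.cast_nonneg _))
  have h3 : (0:ℝ) < (n:ℝ) ^ δ := Real.rpow_pos_of_pos hn0 _
  rw [Real.rpow_sub hn0, Real.rpow_one]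
  calc 1 / C * ((n:ℝ) / (n:ℝ) ^ δ) = n / (C * (n:ℝ) ^ δ) := by field_simp
    _ ≤ n.totient := by
        rw [div_le_iff₀ (by positivity)]
        exact h2

theorem coprime_count {B : ℝ} {l : ℝ → ℝ} (hl : Test B l) : ∃ C : ℝ, 0 < C ∧
    ∀ (q N : ℕ) (Y : ℝ), 1 ≤ q → 0 < Y → Real.exp B * q * Y ≤ N →
      |∑ a ∈ (Icc 1 N).filter (fun a => a.Coprime q), l (Real.log (a / (q * Y)))
        - Nat.totient q * Y * ∫ v, l v * Real.exp v| ≤ C * q.divisors.card := by
  obtain ⟨C, hC, h⟩ := smooth_sum hl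
  refine ⟨C, hC, ?_⟩
  intro q N Y hq hY hN
  have hq0 : (0:ℝ) < q := by exact_mod_cast hq
  rw [sum_coprime q N hq, ← sum_moebius_div q hq, Finset.sum_mul, Finset.sum_mul,
    ← Finset.sum_sub_distrib]
  calc |∑ d ∈ q.divisors, _| ≤ ∑ d ∈ q.divisors, |_| := Finset.abs_sum_le_sum_abs _ _
    _ ≤ ∑ d ∈ q.divisors, C := by
        apply Finset.sum_le_sum
        intro d hd
        have hd0 : 0 < d := Nat.pos_of_mem_divisors hd
        have hdr : (0:ℝ) < d := by exact_mod_cast hd0
        have hb := h (N / d) (d / (q * Y)) (by positivity) (by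
          have h1 : (N : ℝ) < d * ((N / d : ℕ) + 1) := by
            have := Nat.lt_mul_div_succ N hd0
            exact_mod_cast this
          calc Real.exp B = (Real.exp B * q * Y) / (q * Y) := by field_simp
            _ ≤ N / (q * Y) := by gcongr
            _ ≤ (d * ((N / d : ℕ) + 1)) / (q * Y) := by gcongr
            _ = d / (q * Y) * ((N / d : ℕ) + 1) := by ring)
        have e1 : ((ArithmeticFunction.moebius d : ℤ) : ℝ) *
            ∑ b ∈ Icc 1 (N / d), l (Real.log (((d * b : ℕ) : ℝ) / (q * Y))) -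
            ((ArithmeticFunction.moebius d : ℤ) : ℝ) * ((q : ℝ) / d) * Y *
              ∫ v, l v * Real.exp v = ((ArithmeticFunction.moebius d : ℤ) : ℝ) *
            (∑ b ∈ Icc 1 (N / d), l (Real.log (d / (q * Y) * b)) -
              (d / (q * Y))⁻¹ * ∫ v, l v * Real.exp v) := by
          have e2 : ∀ b : ℕ, ((d * b : ℕ) : ℝ) / (q * Y) = d / (q * Y) * b := by
            intro b; push_cast; ring
          simp only [e2]
          rw [mul_sub]
          congr 1
          rw [inv_div]
          ring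
        rw [e1, abs_mul]
        have hmu : |((ArithmeticFunction.moebius d : ℤ) : ℝ)| ≤ 1 := by
          have := ArithmeticFunction.abs_moebius_le_one (n := d)
          exact_mod_cast this
        calc _ ≤ 1 * C := mul_le_mul hmu hb (abs_nonneg _) zero_le_one
          _ = C := one_mul C
    _ = C * q.divisors.card := by rw [Finset.sum_const, nsmul_eq_mul, mul_comm]

end H343
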