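import Pool.Agent.H43.G.R_seed8.H343R2.Defs
import Pool.Agent.H43.G.R_seed8.Helper112.MultLS

open Finset

namespace H343

namespace Gauss

theorem ex_zero : ex 0 = 1 := by simp [ex]

theorem ex_add (x y : ℝ) : ex (x + y) = ex x * ex y := by
  unfold ex
  rw [← Complex.exp_add]
  congr 1
  push_cast
  ring

theorem ex_int (n : ℤ) : ex n = 1 := by
  unfold ex
  rw [Complex.exp_eq_one_iff]
  exact ⟨n, by push_cast; ring⟩

theorem ex_nat (n : ℕ) : ex n = 1 := by
  have := ex_int n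
  exact_mod_cast this

theorem norm_ex (x : ℝ) : ‖ex x‖ = 1 := by
  unfold ex
  exact Complex.norm_exp_ofReal_mul_I _

theorem ex_eq_stdAddChar (q : ℕ) [NeZero q] (b : ℕ) :
    ex ((b : ℝ) / q) = ZMod.stdAddChar (b : ZMod q) := by
  have h := ZMod.stdAddChar_coe (N := q) (b : ℤ)
  rw [Int.cast_natCast] at h
  rw [h]
  unfold ex
  congr 1
  push_cast
  ring

/-- sums over `range q` as sums over `ZMod q` -/
theorem sum_range_eq (q : ℕ) [NeZero q] (g : ZMod q → ℂ) :
    ∑ b ∈ range q, g (b : ZMod q) = ∑ a : ZMod q, g a := by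
  apply sum_bij (fun (b : ℕ) _ => (b : ZMod q))
  · intro b _; exact mem_univ _
  · intro a ha b hb hab
    rw [mem_range] at ha hb
    have := congrArg ZMod.val hab
    rwa [ZMod.val_natCast, ZMod.val_natCast, Nat.mod_eq_of_lt ha, Nat.mod_eq_of_lt hb] at this
  · intro b _
    exact ⟨b.val, mem_range.mpr (ZMod.val_lt b), by simp⟩
  · intro a _; rfl

theorem GS_eq (q : ℕ) [NeZero q] (χ : DirichletCharacter ℂ q) :
    GS χ = gaussSum χ (ZMod.stdAddChar : AddChar (ZMod q) ℂ) := by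
  unfold GS gaussSum
  rw [← sum_range_eq q (fun a => χ a * ZMod.stdAddChar a)]
  apply sum_congr rfl
  intro b _
  rw [ex_eq_stdAddChar]

/-- geometric sum of `e(j/m)` over `j < m` -/
theorem sum_ex (m : ℕ) (hm : 2 ≤ m) : ∑ j ∈ range m, ex ((j : ℝ) / m) = 0 := by
  have : NeZero m := ⟨by omega⟩
  have h1 : ∑ j ∈ range m, ex ((j : ℝ) / m) = ∑ a : ZMod m, ZMod.stdAddChar a := by
    rw [← sum_range_eq m (fun a => ZMod.stdAddChar a)]
    exact sum_congr rfl fun b _ => ex_eq_stdAddChar m b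
  rw [h1]
  apply AddChar.sum_eq_zero_of_ne_one
  have : Fact (1 < m) := ⟨by omega⟩
  have h2 := ZMod.isPrimitive_stdAddChar m (one_ne_zero : (1 : ZMod m) ≠ 0)
  rwa [AddChar.mulShift_one] at h2

/-- the inner sum: modulus `q * m` with `m ≥ 2` gives `0` -/
theorem inner_sum (q m : ℕ) (hq : 1 ≤ q) (hm : 2 ≤ m) (χ : DirichletCharacter ℂ q) :
    ∑ b ∈ range (q * m), χ (b : ZMod q) * ex ((b : ℝ) / (q * m : ℕ)) = 0 := by
  have hq0 : (q : ℝ) ≠ 0 := by positivity
  have hm0 : (m : ℝ) ≠ 0 := by positivity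
  have h1 : ∑ b ∈ range (q * m), χ (b : ZMod q) * ex ((b : ℝ) / (q * m : ℕ)) =
      ∑ b0 ∈ range q, ∑ j ∈ range m, χ ((b0 + q * j : ℕ) : ZMod q) *
        ex (((b0 + q * j : ℕ) : ℝ) / (q * m : ℕ)) := by
    rw [← sum_product']
    symm
    apply sum_bij (fun (p : ℕ × ℕ) _ => p.1 + q * p.2)
    · rintro ⟨b, j⟩ hp
      rw [mem_product, mem_range, mem_range] at hp
      rw [mem_range]
      dsimp at hp ⊢
      calc b + q * j < q + q * j := by omega
        _ = q * (j + 1) := by ring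
        _ ≤ q * m := Nat.mul_le_mul_left _ hp.2
    · rintro ⟨b, j⟩ hp ⟨b', j'⟩ hp' heq
      rw [mem_product, mem_range, mem_range] at hp hp'
      dsimp at hp hp' heq
      have e1 : b = b' := by
        have := congrArg (· % q) heq
        simp only [Nat.add_mul_mod_self_left] at this
        rwa [Nat.mod_eq_of_lt hp.1, Nat.mod_eq_of_lt hp'.1] at this
      subst e1
      have e2 : j = j' := Nat.eq_of_mul_eq_mul_left (by omega) (Nat.add_left_cancel heq)
      rw [e2]
    · intro b hb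
      rw [mem_range] at hb
      refine ⟨(b % q, b / q), ?_, ?_⟩
      · rw [mem_product, mem_range, mem_range]
        exact ⟨Nat.mod_lt _ (by omega), Nat.div_lt_of_lt_mul hb⟩
      · exact Nat.mod_add_div b q
    · rintro ⟨b, j⟩ _
      rfl
  rw [h1]
  apply sum_eq_zero
  intro b0 _
  have h2 : ∀ j ∈ range m, χ ((b0 + q * j : ℕ) : ZMod q) *
        ex (((b0 + q * j : ℕ) : ℝ) / (q * m : ℕ)) =
      (χ (b0 : ZMod q) * ex ((b0 : ℝ) / (q * m : ℕ))) * ex ((j : ℝ) / m) := by
    intro j _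
    have e1 : ((b0 + q * j : ℕ) : ZMod q) = (b0 : ZMod q) := by
      push_cast
      simp
    have e2 : (((b0 + q * j : ℕ) : ℝ) / (q * m : ℕ)) =
        (b0 : ℝ) / (q * m : ℕ) + (j : ℝ) / m := by
      push_cast
      field_simp
    rw [e1, e2, ex_add]
    ring
  rw [sum_congr rfl h2, ← mul_sum, sum_ex m hm, mul_zero]

/-- multiples of `d` in `range (d * k)` -/
theorem sum_multiples (d k : ℕ) (hd : 1 ≤ d) (g : ℕ → ℂ) :
    ∑ b ∈ (range (d * k)).filter (fun b => d ∣ b), g b = ∑ b ∈ range k, g (d * b) := by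
  symm
  apply sum_bij (fun (b : ℕ) _ => d * b)
  · intro b hb
    rw [mem_range] at hb
    rw [mem_filter, mem_range]
    exact ⟨Nat.mul_lt_mul_of_pos_left hb (by omega), dvd_mul_right _ _⟩
  · intro a _ b _ hab
    exact Nat.eq_of_mul_eq_mul_left (by omega) hab
  · intro b hb
    rw [mem_filter, mem_range] at hb
    obtain ⟨c, rfl⟩ := hb.2
    exact ⟨c, mem_range.mpr (lt_of_mul_lt_mul_left hb.1 (Nat.zero_le _)), rfl⟩
  · intro b _; rfl

/-- coprimality indicator by Moebius -/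
theorem coprime_indicator (b m : ℕ) (hm : 1 ≤ m) :
    (if b.Coprime m then (1 : ℂ) else 0) =
      ∑ d ∈ m.divisors.filter (fun d => d ∣ b), ((ArithmeticFunction.moebius d : ℤ) : ℂ) := by
  have h1 : m.divisors.filter (fun d => d ∣ b) = (Nat.gcd b m).divisors := by
    ext d
    rw [mem_filter, Nat.mem_divisors, Nat.mem_divisors]
    constructor
    · rintro ⟨⟨h1, h2⟩, h3⟩
      exact ⟨Nat.dvd_gcd h3 h1, Nat.gcd_ne_zero_right h2⟩
    · rintro ⟨h1, _⟩
      exact ⟨⟨h1.trans (Nat.gcd_dvd_right _ _), by omega⟩, h1.trans (Nat.gcd_dvd_left _ _)⟩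
  rw [h1]
  have h2 := congrArg (fun f : ArithmeticFunction ℤ => f (Nat.gcd b m))
    ArithmeticFunction.moebius_mul_coe_zeta
  simp only [ArithmeticFunction.coe_mul_zeta_apply] at h2
  have h3 : ∑ d ∈ (Nat.gcd b m).divisors, ((ArithmeticFunction.moebius d : ℤ) : ℂ) =
      (((∑ d ∈ (Nat.gcd b m).divisors, ArithmeticFunction.moebius d : ℤ)) : ℂ) := by
    push_cast; rfl
  rw [h3, h2, ArithmeticFunction.one_apply]
  by_cases h : b.Coprime m
  · rw [if_pos h, if_pos (Nat.coprime_iff_gcd_eq_one.mp h)]; simp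
  · rw [if_neg h, if_neg (fun h' => h (Nat.coprime_iff_gcd_eq_one.mpr h'))]; simp

/-- the twisted Gauss sum of an induced character -/
theorem induced_sum (q m : ℕ) (hq : 1 ≤ q) (hm : 1 ≤ m) (χ : DirichletCharacter ℂ q) :
    ∑ b ∈ range (q * m), (if b.Coprime m then (1 : ℂ) else 0) *
      (χ (b : ZMod q) * ex ((b : ℝ) / (q * m : ℕ))) =
    ((ArithmeticFunction.moebius m : ℤ) : ℂ) * χ (m : ZMod q) * GS χ := by
  have h1 : ∑ b ∈ range (q * m), (if b.Coprime m then (1 : ℂ) else 0) *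
      (χ (b : ZMod q) * ex ((b : ℝ) / (q * m : ℕ))) =
      ∑ d ∈ m.divisors, ((ArithmeticFunction.moebius d : ℤ) : ℂ) *
        ∑ b ∈ (range (q * m)).filter (fun b => d ∣ b),
          (χ (b : ZMod q) * ex ((b : ℝ) / (q * m : ℕ))) := by
    simp_rw [coprime_indicator _ m hm, sum_filter, sum_mul, mul_sum]
    rw [sum_comm]
    apply sum_congr rfl
    intro d _
    apply sum_congr rfl
    intro b _
    split_ifs <;> simp
  rw [h1]
  have h2 : ∀ d ∈ m.divisors, d ≠ m → ((ArithmeticFunction.moebius d : ℤ) : ℂ) *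
        ∑ b ∈ (range (q * m)).filter (fun b => d ∣ b),
          (χ (b : ZMod q) * ex ((b : ℝ) / (q * m : ℕ))) = 0 := by
    intro d hd hdm
    rw [Nat.mem_divisors] at hd
    obtain ⟨k, rfl⟩ := hd.1
    have hd1 : 1 ≤ d := Nat.pos_of_ne_zero (by rintro rfl; simp at hm)
    have hk1 : 1 ≤ k := Nat.pos_of_ne_zero (by rintro rfl; simp at hm)
    have hk2 : 2 ≤ k := by
      rcases Nat.lt_or_ge k 2 with h | h
      · exfalso; apply hdm; have : k = 1 := by omega
        rw [this, mul_one]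
      · exact h
    have e1 : q * (d * k) = d * (q * k) := by ring
    rw [e1, sum_multiples d (q * k) hd1]
    have e2 : ∀ b ∈ range (q * k), χ ((d * b : ℕ) : ZMod q) *
        ex (((d * b : ℕ) : ℝ) / (d * (q * k) : ℕ)) =
        χ (d : ZMod q) * (χ (b : ZMod q) * ex ((b : ℝ) / (q * k : ℕ))) := by
      intro b _
      have e3 : (((d * b : ℕ) : ℝ) / (d * (q * k) : ℕ)) = (b : ℝ) / (q * k : ℕ) := by
        push_cast
        have : (d : ℝ) ≠ 0 := by positivity
        rw [mul_div_mul_left _ _ this]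
      rw [e3]
      push_cast
      rw [map_mul]
      ring
    rw [sum_congr rfl e2, ← mul_sum, inner_sum q k hq hk2, mul_zero, mul_zero]
  rw [sum_eq_single m h2 (fun h => absurd (Nat.mem_divisors.mpr ⟨dvd_rfl, by omega⟩) h)]
  have e1 : q * m = m * q := by ring
  rw [e1, sum_multiples m q hm, mul_assoc]
  congr 1
  unfold GS
  rw [mul_sum]
  apply sum_congr rfl
  intro b _
  have e3 : (((m * b : ℕ) : ℝ) / (m * q : ℕ)) = (b : ℝ) / q := by
    push_cast
    have : (m : ℝ) ≠ 0 := by positivity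
    rw [mul_div_mul_left _ _ this]
  rw [e3]
  push_cast
  rw [map_mul]
  ring

theorem GS_changeLevel (q m : ℕ) (hq : 1 ≤ q) (hm : 1 ≤ m) (χ : DirichletCharacter ℂ q) :
    GS (DirichletCharacter.changeLevel (Dvd.intro m rfl : q ∣ q * m) χ) =
      ((ArithmeticFunction.moebius m : ℤ) : ℂ) * χ (m : ZMod q) * GS χ := by
  rw [← induced_sum q m hq hm χ]
  unfold GS
  apply sum_congr rfl
  intro b _
  by_cases hb : b.Coprime (q * m)
  · have h1 := DirichletCharacter.changeLevel_eq_cast_of_dvd' χ (Dvd.intro m rfl : q ∣ q * m)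
      (a := (b : ℤ)) (by exact_mod_cast Nat.isCoprime_iff_coprime.mpr hb)
    push_cast at h1
    rw [h1, if_pos (Nat.Coprime.coprime_mul_left_right hb), one_mul]
  · rw [MulChar.map_nonunit _ (fun hu => hb ((ZMod.isUnit_iff_coprime b _).mp hu)), zero_mul]
    split_ifs with hg
    · have : ¬ b.Coprime q := fun hf => hb (Nat.Coprime.mul_right hf hg)
      rw [MulChar.map_nonunit _ (fun hu => this ((ZMod.isUnit_iff_coprime b _).mp hu))]
      simp
    · simp

end Gauss

open Gauss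

theorem GS_expand (q n : ℕ) (hq : 1 ≤ q) (hn : n.Coprime q) :
    (Nat.totient q : ℂ) * ex (n / q) =
      ∑ χ : DirichletCharacter ℂ q, χ (n : ZMod q) * GS χ⁻¹ := by
  have : NeZero q := ⟨by omega⟩
  have hu : IsUnit (n : ZMod q) := (ZMod.isUnit_iff_coprime n q).mpr hn
  have h1 : ∀ χ : DirichletCharacter ℂ q, χ (n : ZMod q) * GS χ⁻¹ =
      ∑ a : ZMod q, ZMod.stdAddChar a * (χ⁻¹ a * χ (n : ZMod q)) := by
    intro χ
    rw [GS_eq, gaussSum, mul_sum]
    apply sum_congr rfl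
    intro a _
    ring
  simp_rw [h1]
  rw [sum_comm]
  have h2 : ∀ a : ZMod q, ∑ χ : DirichletCharacter ℂ q,
      ZMod.stdAddChar a * (χ⁻¹ a * χ (n : ZMod q)) =
      if a = (n : ZMod q) then (Nat.totient q : ℂ) * ZMod.stdAddChar a else 0 := by
    intro a
    rw [← mul_sum]
    by_cases ha : IsUnit a
    · have h3 : ∀ χ : DirichletCharacter ℂ q, χ⁻¹ a * χ (n : ZMod q) =
          χ (a⁻¹) * χ (n : ZMod q) := by
        intro χ
        obtain ⟨u, rfl⟩ := ha
        rw [MulChar.inv_apply, ZMod.inv_coe_unit, Ring.inverse_unit]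
      simp_rw [h3]
      rw [DirichletCharacter.sum_char_inv_mul_char_eq ℂ ha]
      split_ifs <;> ring
    · have h3 : ∀ χ : DirichletCharacter ℂ q, χ⁻¹ a * χ (n : ZMod q) = 0 := by
        intro χ
        rw [MulChar.map_nonunit _ ha, zero_mul]
      simp_rw [h3]
      have h4 : a ≠ (n : ZMod q) := by
        intro h
        rw [h] at ha
        exact ha hu
      rw [if_neg h4]
      simp
  simp_rw [h2]
  rw [sum_ite_eq' univ (n : ZMod q)]
  simp only [mem_univ, if_true]
  rw [ex_eq_stdAddChar]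

theorem GS_one (q : ℕ) (hq : 1 ≤ q) :
    GS (1 : DirichletCharacter ℂ q) = ((ArithmeticFunction.moebius q : ℤ) : ℂ) := by
  have h := induced_sum 1 q le_rfl hq (1 : DirichletCharacter ℂ 1)
  have h1 : ∀ a : ZMod 1, (1 : DirichletCharacter ℂ 1) a = 1 := by
    intro a
    have : a = 1 := Subsingleton.elim _ _
    rw [this, map_one]
  have h2 : GS (1 : DirichletCharacter ℂ 1) = 1 := by
    unfold GS
    rw [sum_range_one, h1]
    simp [ex_zero]
  rw [h2, h1, mul_one, mul_one] at h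
  rw [← h]
  unfold GS
  rw [one_mul]
  apply sum_congr rfl
  intro b _
  rw [h1, one_mul]
  congr 1
  by_cases hb : b.Coprime q
  · rw [if_pos hb, MulChar.one_apply ((ZMod.isUnit_iff_coprime b q).mpr hb)]
  · rw [if_neg hb, MulChar.map_nonunit _ (fun hu => hb ((ZMod.isUnit_iff_coprime b _).mp hu))]

theorem GS_primitive (q : ℕ) (hq : 1 ≤ q) (χ : DirichletCharacter ℂ q) (hχ : χ.IsPrimitive) :
    ‖GS χ‖ = Real.sqrt q := by
  have : NeZero q := ⟨by omega⟩
  rw [GS_eq, ← Pool.Agent.Helper112.MLS.norm_gauss q hχ, Real.sqrt_sq (norm_nonneg _)]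

/-- imprimitive characters to squarefree (only coprimality is used) modulus -/
theorem GS_imprimitive (q m : ℕ) (hq : 1 ≤ q) (hm : 1 ≤ m) (hqm : q.Coprime m)
    (χ : DirichletCharacter ℂ q) (hχ : χ.IsPrimitive) :
    ‖GS ((DirichletCharacter.changeLevel (Dvd.intro m rfl : q ∣ q * m) χ)⁻¹)‖ ≤ Real.sqrt q := by
  have : NeZero q := ⟨by omega⟩
  have hinv : (χ⁻¹).IsPrimitive := by
    rw [DirichletCharacter.isPrimitive_def, DirichletCharacter.conductor_inv]
    exact hχ
  have h1 : (DirichletCharacter.changeLevel (Dvd.intro m rfl : q ∣ q * m) χ)⁻¹ =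
      DirichletCharacter.changeLevel (Dvd.intro m rfl : q ∣ q * m) χ⁻¹ := (map_inv _ _).symm
  rw [h1, GS_changeLevel q m hq hm, norm_mul, norm_mul, GS_primitive q hq _ hinv]
  have h2 : ‖((ArithmeticFunction.moebius m : ℤ) : ℂ)‖ ≤ 1 := by
    rw [Complex.norm_intCast]
    exact_mod_cast ArithmeticFunction.abs_moebius_le_one
  have h3 : ‖χ⁻¹ (m : ZMod q)‖ ≤ 1 := DirichletCharacter.norm_le_one _ _
  calc _ ≤ 1 * 1 * Real.sqrt q := by gcongr
    _ = Real.sqrt q := by ring

end H343
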