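import Pool.Agent.H43.G.R_seed8.H343R2.KeyDefs
import Pool.Agent.H43.G.R_seed8.Helper112.TypeI

open Finset MeasureTheory

namespace H343.KF

lemma norm_ex (x : ℝ) : ‖ex x‖ = 1 := by
  unfold ex
  rw [Complex.norm_exp_ofReal_mul_I]

lemma ex_add (x y : ℝ) : ex (x + y) = ex x * ex y := by
  unfold ex
  rw [← Complex.exp_add]
  congr 1
  push_cast
  ring

lemma ex_cont : Continuous ex := by
  unfold ex
  fun_prop

/-- twisted coefficients -/
noncomputable def tw (α : ℕ → ℂ) (m : ℕ) (η : ℝ) (n : ℕ) : ℂ :=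
  if n.Coprime m then α n * ex (η * Real.log n) else 0

lemma tw_norm (α : ℕ → ℂ) (m : ℕ) (η : ℝ) (n : ℕ) : ‖tw α m η n‖ ≤ ‖α n‖ := by
  unfold tw
  split_ifs
  · rw [norm_mul, norm_ex, mul_one]
  · simp

lemma tw_cont (α : ℕ → ℂ) (m : ℕ) (n : ℕ) : Continuous (fun η => tw α m η n) := by
  unfold tw
  split_ifs
  · exact continuous_const.mul (ex_cont.comp (by fun_prop))
  · exact continuous_const

/-- double integral separation -/
lemma int2 {ι : Type*} (S : Finset ι) (a b : ι → ℝ) (u v : ι → ℝ → ℝ) (F G : ℝ → ℝ)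
    (hF : Integrable F) (hF0 : ∀ ξ, 0 ≤ F ξ) (hG : Integrable (fun η => (1 + |η|) * G η))
    (hGi : Integrable G) (hG0 : ∀ η, 0 ≤ G η)
    (hu : ∀ i ∈ S, Continuous (u i)) (hu0 : ∀ i ∈ S, ∀ ξ, 0 ≤ u i ξ)
    (hub : ∀ i ∈ S, ∃ C, ∀ ξ, u i ξ ≤ C)
    (hv : ∀ i ∈ S, Continuous (v i)) (hv0 : ∀ i ∈ S, ∀ ξ, 0 ≤ v i ξ)
    (hvb : ∀ i ∈ S, ∃ C, ∀ ξ, v i ξ ≤ C)
    (ha : ∀ i ∈ S, a i ≤ ∫ ξ, F ξ * u i ξ) (hb0 : ∀ i ∈ S, 0 ≤ b i)
    (hb : ∀ i ∈ S, b i ≤ ∫ η, G η * v i η)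
    (K : ℝ) (hK : ∀ ξ η, ∑ i ∈ S, u i ξ * v i η ≤ K * (1 + |η|)) :
    ∑ i ∈ S, a i * b i ≤ K * (∫ ξ, F ξ) * ∫ η, (1 + |η|) * G η := by
  have hintu : ∀ i ∈ S, Integrable (fun ξ => F ξ * u i ξ) := by
    intro i hi
    obtain ⟨C, hC⟩ := hub i hi
    refine Integrable.mono' (hF.mul_const C) (hF.aestronglyMeasurable.mul (hu i hi).aestronglyMeasurable) (Filter.Eventually.of_forall fun ξ => ?_)
    rw [Real.norm_eq_abs, abs_mul, abs_of_nonneg (hF0 ξ), abs_of_nonneg (hu0 i hi ξ)]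
    exact mul_le_mul_of_nonneg_left (hC ξ) (hF0 ξ)
  have hintv : ∀ i ∈ S, Integrable (fun ξ => G ξ * v i ξ) := by
    intro i hi
    obtain ⟨C, hC⟩ := hvb i hi
    refine Integrable.mono' (hGi.mul_const C) (hGi.aestronglyMeasurable.mul (hv i hi).aestronglyMeasurable) (Filter.Eventually.of_forall fun ξ => ?_)
    rw [Real.norm_eq_abs, abs_mul, abs_of_nonneg (hG0 ξ), abs_of_nonneg (hv0 i hi ξ)]
    exact mul_le_mul_of_nonneg_left (hC ξ) (hG0 ξ)
  have step1 : ∑ i ∈ S, a i * b i ≤ ∑ i ∈ S, (∫ ξ, F ξ * u i ξ) * (∫ η, G η * v i η) := by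
    apply sum_le_sum
    intro i hi
    exact mul_le_mul (ha i hi) (hb i hi) (hb0 i hi)
      (integral_nonneg fun ξ => mul_nonneg (hF0 ξ) (hu0 i hi ξ))
  have step2 : ∀ ξ, ∑ i ∈ S, u i ξ * (∫ η, G η * v i η) ≤ K * ∫ η, (1 + |η|) * G η := by
    intro ξ
    have e1 : ∑ i ∈ S, u i ξ * (∫ η, G η * v i η) = ∫ η, ∑ i ∈ S, u i ξ * (G η * v i η) := by
      rw [integral_finset_sum _ (fun i hi => (hintv i hi).const_mul _)]
      exact sum_congr rfl fun i _ => (integral_const_mul _ _).symm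
    rw [e1, ← integral_const_mul]
    apply integral_mono
    · exact integrable_finset_sum _ (fun i hi => (hintv i hi).const_mul _)
    · exact hG.const_mul K
    · intro η
      simp only
      calc ∑ i ∈ S, u i ξ * (G η * v i η) = G η * ∑ i ∈ S, u i ξ * v i η := by
            rw [mul_sum]; exact sum_congr rfl fun i _ => by ring
        _ ≤ G η * (K * (1 + |η|)) := mul_le_mul_of_nonneg_left (hK ξ η) (hG0 η)
        _ = K * ((1 + |η|) * G η) := by ring
  calc ∑ i ∈ S, a i * b i ≤ ∑ i ∈ S, (∫ ξ, F ξ * u i ξ) * (∫ η, G η * v i η) := step1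
    _ = ∫ ξ, ∑ i ∈ S, (F ξ * u i ξ) * (∫ η, G η * v i η) := by
        rw [integral_finset_sum _ (fun i hi => (hintu i hi).mul_const _)]
        exact sum_congr rfl fun i _ => (integral_mul_const _ _).symm
    _ ≤ ∫ ξ, F ξ * (K * ∫ η, (1 + |η|) * G η) := by
        apply integral_mono
        · exact integrable_finset_sum _ (fun i hi => (hintu i hi).mul_const _)
        · exact hF.mul_const _
        · intro ξ
          simp only
          calc ∑ i ∈ S, (F ξ * u i ξ) * (∫ η, G η * v i η)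
              = F ξ * ∑ i ∈ S, u i ξ * (∫ η, G η * v i η) := by
                rw [mul_sum]; exact sum_congr rfl fun i _ => by ring
            _ ≤ _ := mul_le_mul_of_nonneg_left (step2 ξ) (hF0 ξ)
    _ = _ := by
        rw [integral_mul_const]; ring

/-- separation of a bilinear form with a smooth weight in `log (k l / x)` -/
lemma sep_bound {G : ℝ → ℂ} (hGc : Continuous G) (hGi : Integrable G) {f : ℝ → ℝ}
    (hf : ∀ v : ℝ, (f v : ℂ) = ∫ ξ, G ξ * ex (ξ * v))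
    (x : ℝ) (hx : 0 < x) (S T : Finset ℕ) (hS : ∀ k ∈ S, 1 ≤ k) (hT : ∀ k ∈ T, 1 ≤ k)
    (α β : ℕ → ℂ) :
    ‖∑ k ∈ S, ∑ l ∈ T, α k * β l * (f (Real.log ((k * l : ℕ) / x)) : ℂ)‖ ≤
      ∫ η, ‖G η‖ * (‖∑ k ∈ S, α k * ex (η * Real.log k)‖ *
        ‖∑ l ∈ T, β l * ex (η * Real.log l)‖) := by
  have hint : ∀ v : ℝ, Integrable (fun ξ => G ξ * ex (ξ * v)) := by
    intro v
    refine Integrable.mono' hGi.norm (hGi.aestronglyMeasurable.mul
      (ex_cont.comp (by fun_prop : Continuous fun ξ : ℝ => ξ * v)).aestronglyMeasurable)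
      (Filter.Eventually.of_forall fun ξ => ?_)
    rw [norm_mul, norm_ex, mul_one]
  have e1 : ∑ k ∈ S, ∑ l ∈ T, α k * β l * (f (Real.log ((k * l : ℕ) / x)) : ℂ) =
      ∫ η, G η * ex (-(η * Real.log x)) * ((∑ k ∈ S, α k * ex (η * Real.log k)) *
        (∑ l ∈ T, β l * ex (η * Real.log l))) := by
    have e2 : ∀ k ∈ S, ∀ l ∈ T, α k * β l * (f (Real.log ((k * l : ℕ) / x)) : ℂ) =
        ∫ η, α k * β l * (G η * ex (η * Real.log ((k * l : ℕ) / x))) := by
      intro k _ l _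
      rw [hf, integral_const_mul]
    rw [sum_congr rfl fun k hk => sum_congr rfl fun l hl => e2 k hk l hl]
    rw [sum_congr rfl fun k hk => (integral_finset_sum T
      (fun l _ => (hint (Real.log ((k * l : ℕ) / x))).const_mul (α k * β l))).symm]
    rw [← integral_finset_sum S (fun k _ => integrable_finset_sum T
      (fun l _ => (hint (Real.log ((k * l : ℕ) / x))).const_mul (α k * β l)))]
    apply integral_congr_ae
    refine Filter.Eventually.of_forall fun η => ?_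
    simp only
    rw [sum_mul_sum, mul_sum]
    apply sum_congr rfl
    intro k hk
    rw [mul_sum]
    apply sum_congr rfl
    intro l hl
    have hk0 : (0 : ℝ) < k := by exact_mod_cast hS k hk
    have hl0 : (0 : ℝ) < l := by exact_mod_cast hT l hl
    have : η * Real.log ((k * l : ℕ) / x) = η * Real.log k + η * Real.log l + -(η * Real.log x) := by
      push_cast
      rw [Real.log_div (by positivity) hx.ne', Real.log_mul hk0.ne' hl0.ne']
      ring
    rw [this, ex_add, ex_add]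
    ring
  rw [e1]
  refine (norm_integral_le_integral_norm _).trans (le_of_eq ?_)
  apply integral_congr_ae
  refine Filter.Eventually.of_forall fun η => ?_
  simp only
  rw [norm_mul, norm_mul, norm_mul, norm_ex, mul_one]

/-- single sum version -/
lemma sep_bound1 {G : ℝ → ℂ} (hGc : Continuous G) (hGi : Integrable G) {f : ℝ → ℝ}
    (hf : ∀ v : ℝ, (f v : ℂ) = ∫ ξ, G ξ * ex (ξ * v))
    (x : ℝ) (hx : 0 < x) (S : Finset ℕ) (hS : ∀ k ∈ S, 1 ≤ k) (α : ℕ → ℂ) :
    ‖∑ k ∈ S, α k * (f (Real.log (k / x)) : ℂ)‖ ≤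
      ∫ η, ‖G η‖ * ‖∑ k ∈ S, α k * ex (η * Real.log k)‖ := by
  have h := sep_bound hGc hGi hf x hx S {1} hS (by simp) α (fun _ => 1)
  simp only [sum_singleton, mul_one, Nat.cast_one, Real.log_one, mul_zero, one_mul] at h
  have h0 : ‖ex 0‖ = 1 := norm_ex 0
  rw [h0] at h
  simpa using h

end H343.KF
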