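import Pool.Agent.H43.G.R_seed8.H343R2.KF1

open Finset MeasureTheory

namespace H343.KF

/-- numerators: cut down the range -/
lemma KKm_cut {B : ℝ} {l : ℝ → ℝ} (hl : Test B l) (Y : ℝ) (hY : 0 < Y) (N m q A : ℕ) (hq : 1 ≤ q)
    (hm : 1 ≤ m) (hA : Real.exp B * (q * m) * Y < A + 1) (hAN : A ≤ N)
    (χ : DirichletCharacter ℂ q) :
    KKm l Y N m χ = ∑ a ∈ (Icc 1 A).filter (fun a => a.Coprime m), χ (a : ZMod q) *
      (l (Real.log (a / ((q * m : ℕ) * Y))) : ℂ) := by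
  unfold KKm
  symm
  apply sum_subset
  · intro a ha
    rw [mem_filter, mem_Icc] at ha ⊢
    exact ⟨⟨ha.1.1, ha.1.2.trans hAN⟩, ha.2⟩
  · intro a ha ha'
    rw [mem_filter, mem_Icc] at ha ha'
    have h1 : A < a := by
      by_contra h
      exact ha' ⟨⟨ha.1.1, by omega⟩, ha.2⟩
    have h2 : (A : ℝ) + 1 ≤ a := by exact_mod_cast h1
    have hqm : (0 : ℝ) < (q * m : ℕ) * Y := by
      have : 0 < q * m := Nat.mul_pos hq hm
      positivity
    have h3 : Real.exp B ≤ a / ((q * m : ℕ) * Y) := by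
      rw [le_div_iff₀ hqm]
      push_cast
      linarith
    have h4 : B ≤ Real.log (a / ((q * m : ℕ) * Y)) := by
      rw [← Real.log_exp B]
      exact Real.log_le_log (Real.exp_pos B) h3
    rw [hl.supp _ (h4.trans (le_abs_self _))]
    simp

lemma KKm_sep {G : ℝ → ℂ} (hGc : Continuous G) (hGi : Integrable G) {l : ℝ → ℝ}
    (hf : ∀ v : ℝ, (l v : ℂ) = ∫ ξ, G ξ * ex (ξ * v)) {B : ℝ}
    (hl : Test B l) (Y : ℝ) (hY : 0 < Y) (N m q A : ℕ) (hq : 1 ≤ q)
    (hm : 1 ≤ m) (hA : Real.exp B * (q * m) * Y < A + 1) (hAN : A ≤ N)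
    (χ : DirichletCharacter ℂ q) :
    ‖KKm l Y N m χ‖ ≤ ∫ ξ, ‖G ξ‖ *
      ‖∑ a ∈ Icc 1 A, tw (fun _ => 1) m ξ a * χ (a : ZMod q)‖ := by
  have hqm : (0 : ℝ) < (q * m : ℕ) * Y := by
    have : 0 < q * m := Nat.mul_pos hq hm
    positivity
  rw [KKm_cut hl Y hY N m q A hq hm hA hAN χ]
  refine (sep_bound1 hGc hGi hf _ hqm _ (fun k hk => ?_) _).trans (le_of_eq ?_)
  · rw [mem_filter, mem_Icc] at hk; exact hk.1.1
  · apply integral_congr_ae
    refine Filter.Eventually.of_forall fun η => ?_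
    simp only
    congr 2
    rw [sum_filter]
    apply sum_congr rfl
    intro a _
    unfold tw
    split_ifs
    · ring
    · simp

/-- complex hyperbola rearrangement -/
lemma hyperC (x : ℕ) (g : ℕ → ℕ → ℂ) :
    ∑ n ∈ Icc 1 x, ∑ i ∈ n.divisorsAntidiagonal, g i.1 i.2 =
      ∑ c ∈ Icc 1 x, ∑ b ∈ Icc 1 (x / c), g b c := by
  apply Complex.ext
  · simpa [Complex.re_sum] using Pool.Agent.Helper112.TII.hyper x (fun b c => (g b c).re)
  · simpa [Complex.im_sum] using Pool.Agent.Helper112.TII.hyper x (fun b c => (g b c).im)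

/-- two finite sums agree if the summand vanishes on the symmetric difference -/
lemma sum_eq_of_zero {ι : Type*} [DecidableEq ι] (A B : Finset ι) (g : ι → ℂ)
    (h1 : ∀ i ∈ A, i ∉ B → g i = 0) (h2 : ∀ i ∈ B, i ∉ A → g i = 0) :
    ∑ i ∈ A, g i = ∑ i ∈ B, g i := by
  have e1 : ∑ i ∈ A ∩ B, g i = ∑ i ∈ A, g i :=
    sum_subset inter_subset_left (fun i hi hi' => h1 i hi (fun h => hi' (mem_inter.2 ⟨hi, h⟩)))
  have e2 : ∑ i ∈ A ∩ B, g i = ∑ i ∈ B, g i :=
    sum_subset inter_subset_right (fun i hi hi' => h2 i hi (fun h => hi' (mem_inter.2 ⟨h, hi⟩)))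
  rw [← e1, e2]

lemma sum_dyadic (J : ℕ) (h : ℕ → ℂ) :
    ∑ j ∈ range J, ∑ k ∈ Ico (2 ^ j) (2 ^ (j + 1)), h k = ∑ k ∈ Ico 1 (2 ^ J), h k := by
  induction J with
  | zero => simp
  | succ J ih =>
    rw [sum_range_succ, ih]
    exact sum_Ico_consecutive h (Nat.one_le_two_pow) (Nat.pow_le_pow_right (by norm_num) (by omega))

/-- dyadic decomposition of a sum over `n = k l` -/
lemma dyadic_split (X : ℝ) (M J : ℕ) (hM : X ≤ M) (hJ : X ≤ 2 ^ J) (g : ℕ → ℕ → ℂ)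
    (hg : ∀ k l : ℕ, X ≤ (k * l : ℕ) → g k l = 0) :
    ∑ n ∈ Icc 1 M, ∑ i ∈ n.divisorsAntidiagonal, g i.1 i.2 =
      ∑ j ∈ range J, ∑ k ∈ Ico (2 ^ j) (2 ^ (j + 1)), ∑ l ∈ Icc 1 ⌊X / 2 ^ j⌋₊, g k l := by
  rw [hyperC]
  have e1 : ∑ j ∈ range J, ∑ k ∈ Ico (2 ^ j) (2 ^ (j + 1)), ∑ l ∈ Icc 1 ⌊X / 2 ^ j⌋₊, g k l =
      ∑ j ∈ range J, ∑ k ∈ Ico (2 ^ j) (2 ^ (j + 1)), ∑ l ∈ Icc 1 M, g k l := by
    apply sum_congr rfl
    intro j _
    apply sum_congr rfl
    intro k hk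
    rw [mem_Ico] at hk
    have hk1 : (2 : ℝ) ^ j ≤ k := by exact_mod_cast hk.1
    have hp : (0 : ℝ) < 2 ^ j := by positivity
    apply sum_eq_of_zero
    · intro l hl hl'
      rw [mem_Icc] at hl hl'
      exfalso
      apply hl'
      refine ⟨hl.1, ?_⟩
      have h1 : (l : ℝ) ≤ X / 2 ^ j := by
        rcases Nat.eq_zero_or_pos ⌊X / 2 ^ j⌋₊ with h0 | h0
        · omega
        · have : (0:ℝ) ≤ X / 2 ^ j := by
            by_contra hneg
            push_neg at hneg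
            rw [Nat.floor_of_nonpos hneg.le] at h0
            omega
          exact (Nat.le_floor_iff this).1 hl.2
      have h2 : (l : ℝ) ≤ M := by
        refine h1.trans ((div_le_iff₀ hp).2 ?_)
        have : (1 : ℝ) ≤ 2 ^ j := one_le_pow₀ (by norm_num)
        nlinarith [Nat.cast_nonneg (α := ℝ) M]
      exact_mod_cast h2
    · intro l hl hl'
      rw [mem_Icc] at hl hl'
      apply hg
      have h1 : ⌊X / 2 ^ j⌋₊ < l := by
        by_contra h
        exact hl' ⟨hl.1, by omega⟩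
      have h2 : X / 2 ^ j < l := Nat.lt_of_floor_lt h1
      rw [div_lt_iff₀ hp] at h2
      push_cast
      nlinarith [Nat.cast_nonneg (α := ℝ) l]
  rw [e1, sum_dyadic J (fun k => ∑ l ∈ Icc 1 M, g k l), sum_comm]
  apply sum_congr rfl
  intro c hc
  rw [mem_Icc] at hc
  apply sum_eq_of_zero
  · intro b hb hb'
    rw [mem_Icc] at hb
    rw [mem_Ico] at hb'
    apply hg
    have h1 : 2 ^ J ≤ b := by
      by_contra h
      exact hb' ⟨hb.1, by omega⟩
    have h2 : (2 : ℝ) ^ J ≤ b := by exact_mod_cast h1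
    have h3 : (b : ℝ) ≤ (b * c : ℕ) := by
      exact_mod_cast Nat.le_mul_of_pos_right b hc.1
    linarith
  · intro b hb hb'
    rw [mem_Ico] at hb
    rw [mem_Icc] at hb'
    apply hg
    have h1 : M / c < b := by
      by_contra h
      exact hb' ⟨hb.1, by omega⟩
    have h2 : M < b * c := by
      rw [Nat.div_lt_iff_lt_mul hc.1] at h1
      exact h1
    have h3 : (M : ℝ) < (b * c : ℕ) := by exact_mod_cast h2
    linarith

end H343.KF
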