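import Pool.Agent.H43.G.R_seed8.H343R2.Defs
import Pool.Agent.H43.G.R_seed8.Helper112.MultLS
import Pool.Agent.H43.G.R_seed8.Helper112.Arith

open Finset

namespace H343

namespace LSaux

open Classical in
lemma prim_sum_le (D N : ℕ) (α : ℕ → ℂ) :
    ∑ q ∈ Ioc D (2 * D), ∑ χ ∈ (univ : Finset (DirichletCharacter ℂ q)).filter
        (fun χ => χ.IsPrimitive), ‖∑ n ∈ Icc 1 N, α n * χ (n : ZMod q)‖ ^ 2
      ≤ 24 * ((N : ℝ) + (D : ℝ) ^ 2) * ∑ n ∈ Icc 1 N, ‖α n‖ ^ 2 := by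
  have h := Pool.Agent.Helper112.mult_large_sieve N (2 * D) α
  have hs : (0 : ℝ) ≤ ∑ n ∈ Icc 1 N, ‖α n‖ ^ 2 := sum_nonneg (fun _ _ => by positivity)
  calc ∑ q ∈ Ioc D (2 * D), ∑ χ ∈ (univ : Finset (DirichletCharacter ℂ q)).filter
        (fun χ => χ.IsPrimitive), ‖∑ n ∈ Icc 1 N, α n * χ (n : ZMod q)‖ ^ 2
      ≤ ∑ q ∈ Ioc D (2 * D), ((q : ℝ) / (Nat.totient q : ℝ)) *
        ∑ χ ∈ (univ : Finset (DirichletCharacter ℂ q)).filter (fun χ => χ.IsPrimitive),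
          ‖∑ n ∈ Icc 1 N, α n * χ (n : ZMod q)‖ ^ 2 := by
        apply sum_le_sum
        intro q hq
        rw [mem_Ioc] at hq
        have hq0 : 0 < q := by omega
        have ht : (0 : ℝ) < Nat.totient q := by exact_mod_cast Nat.totient_pos.mpr hq0
        have h1 : (1 : ℝ) ≤ (q : ℝ) / (Nat.totient q : ℝ) := by
          rw [le_div_iff₀ ht, one_mul]
          exact_mod_cast Nat.totient_le q
        have h2 : (0 : ℝ) ≤ ∑ χ ∈ (univ : Finset (DirichletCharacter ℂ q)).filter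
          (fun χ => χ.IsPrimitive), ‖∑ n ∈ Icc 1 N, α n * χ (n : ZMod q)‖ ^ 2 :=
          sum_nonneg (fun _ _ => by positivity)
        nlinarith
    _ ≤ ∑ q ∈ Icc 1 (2 * D), ((q : ℝ) / (Nat.totient q : ℝ)) *
        ∑ χ ∈ (univ : Finset (DirichletCharacter ℂ q)).filter (fun χ => χ.IsPrimitive),
          ‖∑ n ∈ Icc 1 N, α n * χ (n : ZMod q)‖ ^ 2 := by
        apply sum_le_sum_of_subset_of_nonneg
        · intro q hq
          rw [mem_Ioc] at hq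
          rw [mem_Icc]
          omega
        · intro q _ _
          exact mul_nonneg (by positivity) (sum_nonneg (fun _ _ => by positivity))
    _ ≤ 6 * (N + ((2 * D : ℕ) : ℝ) ^ 2) * ∑ n ∈ Icc 1 N, ‖α n‖ ^ 2 := h
    _ ≤ 24 * ((N : ℝ) + (D : ℝ) ^ 2) * ∑ n ∈ Icc 1 N, ‖α n‖ ^ 2 := by
        apply mul_le_mul_of_nonneg_right _ hs
        push_cast
        have : (0 : ℝ) ≤ N := by positivity
        nlinarith

/-- Dirichlet convolution of the two truncated sequences. -/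
noncomputable def conv (A K : ℕ) (α β : ℕ → ℂ) (n : ℕ) : ℂ :=
  ∑ d ∈ n.divisorsAntidiagonal, if d.1 ≤ A ∧ d.2 ≤ K then α d.1 * β d.2 else 0

lemma conv_eq (A K : ℕ) (α β : ℕ → ℂ) (q : ℕ) (χ : DirichletCharacter ℂ q) :
    (∑ n ∈ Icc 1 A, α n * χ (n : ZMod q)) * (∑ n ∈ Icc 1 K, β n * χ (n : ZMod q)) =
      ∑ n ∈ Icc 1 (A * K), conv A K α β n * χ (n : ZMod q) := by
  classical
  unfold conv
  rw [sum_mul_sum]
  simp_rw [sum_mul]
  rw [← sum_product', ]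
  rw [sum_sigma']
  -- right side : restrict to the pairs satisfying the condition
  symm
  have hR : ∑ x ∈ (Icc 1 (A * K)).sigma (fun n => n.divisorsAntidiagonal),
      (if x.2.1 ≤ A ∧ x.2.2 ≤ K then α x.2.1 * β x.2.2 else 0) * χ (x.1 : ZMod q) =
      ∑ x ∈ ((Icc 1 (A * K)).sigma (fun n => n.divisorsAntidiagonal)).filter
        (fun x => x.2.1 ≤ A ∧ x.2.2 ≤ K), α x.2.1 * β x.2.2 * χ (x.1 : ZMod q) := by
    rw [sum_filter]
    apply sum_congr rfl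
    intro x _
    split_ifs <;> simp
  rw [hR]
  refine sum_bij' (fun x _ => (x.2.1, x.2.2)) (fun p _ => ⟨p.1 * p.2, (p.1, p.2)⟩) ?_ ?_ ?_ ?_ ?_
  · intro x hx
    rw [mem_filter, mem_sigma, Nat.mem_divisorsAntidiagonal, mem_Icc] at hx
    rw [mem_product, mem_Icc, mem_Icc]
    obtain ⟨⟨⟨h1, h2⟩, h3, h4⟩, h5, h6⟩ := hx
    have : x.2.1 ≠ 0 := by rintro h; rw [h] at h3; simp at h3; omega
    have : x.2.2 ≠ 0 := by rintro h; rw [h] at h3; simp at h3; omega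
    refine ⟨⟨by simp; omega, h5⟩, ⟨by simp; omega, h6⟩⟩
  · intro p hp
    rw [mem_product, mem_Icc, mem_Icc] at hp
    rw [mem_filter, mem_sigma, Nat.mem_divisorsAntidiagonal, mem_Icc]
    obtain ⟨⟨h1, h2⟩, h3, h4⟩ := hp
    have hpos : 0 < p.1 * p.2 := by positivity
    refine ⟨⟨⟨hpos, Nat.mul_le_mul h2 h4⟩, rfl, hpos.ne'⟩, h2, h4⟩
  · intro x hx
    rw [mem_filter, mem_sigma, Nat.mem_divisorsAntidiagonal, mem_Icc] at hx
    obtain ⟨⟨⟨h1, h2⟩, h3, h4⟩, h5, h6⟩ := hx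
    rcases x with ⟨n, a, b⟩
    simp only at h3
    subst h3
    rfl
  · intro p hp
    rfl
  · intro x hx
    rw [mem_filter, mem_sigma, Nat.mem_divisorsAntidiagonal, mem_Icc] at hx
    obtain ⟨⟨⟨h1, h2⟩, h3, h4⟩, h5, h6⟩ := hx
    rw [← h3]
    push_cast
    rw [map_mul]
    ring

lemma conv_norm (A K : ℕ) (α β : ℕ → ℂ) (a b : ℝ) (ha : ∀ n, ‖α n‖ ≤ a) (hb : ∀ n, ‖β n‖ ≤ b)
    (n : ℕ) : ‖conv A K α β n‖ ≤ a * b * n.divisors.card := by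
  have ha0 : 0 ≤ a := le_trans (norm_nonneg _) (ha 0)
  have hb0 : 0 ≤ b := le_trans (norm_nonneg _) (hb 0)
  unfold conv
  calc ‖∑ d ∈ n.divisorsAntidiagonal, if d.1 ≤ A ∧ d.2 ≤ K then α d.1 * β d.2 else 0‖
      ≤ ∑ d ∈ n.divisorsAntidiagonal, ‖if d.1 ≤ A ∧ d.2 ≤ K then α d.1 * β d.2 else 0‖ :=
        norm_sum_le _ _
    _ ≤ ∑ d ∈ n.divisorsAntidiagonal, a * b := by
        apply sum_le_sum
        intro d _
        split_ifs
        · rw [norm_mul]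
          exact mul_le_mul (ha _) (hb _) (norm_nonneg _) ha0
        · rw [norm_zero]; positivity
    _ = a * b * n.divisors.card := by
        rw [sum_const, nsmul_eq_mul, ← Nat.map_div_right_divisors, card_map]
        ring

lemma conv_sq (δ C : ℝ) (hδ : 0 < δ)
    (hC : ∀ n : ℕ, 1 ≤ n → (n.divisors.card : ℝ) ≤ C * (n : ℝ) ^ δ)
    (A K : ℕ) (α β : ℕ → ℂ) (a b : ℝ) (ha : ∀ n, ‖α n‖ ≤ a)
    (hb : ∀ n, ‖β n‖ ≤ b) :
    ∑ n ∈ Icc 1 (A * K), ‖conv A K α β n‖ ^ 2 ≤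
      (A * K : ℝ) * (a * b * (C * ((A * K : ℕ) : ℝ) ^ δ)) ^ 2 := by
  have ha0 : 0 ≤ a := le_trans (norm_nonneg _) (ha 0)
  have hb0 : 0 ≤ b := le_trans (norm_nonneg _) (hb 0)
  calc ∑ n ∈ Icc 1 (A * K), ‖conv A K α β n‖ ^ 2
      ≤ ∑ n ∈ Icc 1 (A * K), (a * b * (C * ((A * K : ℕ) : ℝ) ^ δ)) ^ 2 := by
        apply sum_le_sum
        intro n hn
        rw [mem_Icc] at hn
        apply pow_le_pow_left₀ (norm_nonneg _)
        refine le_trans (conv_norm A K α β a b ha hb n) ?_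
        apply mul_le_mul_of_nonneg_left _ (by positivity)
        refine le_trans (hC n hn.1) ?_
        have hC0 : 0 ≤ C := by
          have := hC 1 le_rfl
          simp at this
          linarith
        apply mul_le_mul_of_nonneg_left _ hC0
        apply Real.rpow_le_rpow (by positivity) _ hδ.le
        exact_mod_cast hn.2
    _ = (A * K : ℝ) * (a * b * (C * ((A * K : ℕ) : ℝ) ^ δ)) ^ 2 := by
        rw [sum_const, nsmul_eq_mul]
        simp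

end LSaux

open LSaux

open Classical in
/-- Sum over primitive characters with conductor in `(D, 2D]` of a product of three polynomials,
the first two merged. -/
theorem ls3 (δ : ℝ) (hδ : 0 < δ) : ∃ C : ℝ, 0 < C ∧ ∀ (D A K L : ℕ) (α β γ : ℕ → ℂ)
    (a b c : ℝ), 1 ≤ D → 1 ≤ A → 1 ≤ K → 1 ≤ L → (∀ n, ‖α n‖ ≤ a) → (∀ n, ‖β n‖ ≤ b) →
    (∀ n, ‖γ n‖ ≤ c) →
    ∑ q ∈ Ioc D (2 * D), ∑ χ ∈ (univ : Finset (DirichletCharacter ℂ q)).filter
        (fun χ => χ.IsPrimitive),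
      ‖∑ n ∈ Icc 1 A, α n * χ (n : ZMod q)‖ * ‖∑ n ∈ Icc 1 K, β n * χ (n : ZMod q)‖ *
        ‖∑ n ∈ Icc 1 L, γ n * χ (n : ZMod q)‖
      ≤ C * a * b * c * ((A * K : ℕ) : ℝ) ^ δ *
        Real.sqrt (((A * K : ℝ) + (D : ℝ) ^ 2) * (A * K) * ((L : ℝ) + (D : ℝ) ^ 2) * L) := by
  obtain ⟨C, hC0, hC⟩ := Pool.Agent.Helper112.divisor_bound δ hδ
  refine ⟨24 * C, by positivity, ?_⟩
  intro D A K L α β γ a b c hD hA hK hL ha hb hc
  have ha0 : 0 ≤ a := le_trans (norm_nonneg _) (ha 0)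
  have hb0 : 0 ≤ b := le_trans (norm_nonneg _) (hb 0)
  have hc0 : 0 ≤ c := le_trans (norm_nonneg _) (hc 0)
  have h1 := prim_sum_le D (A * K) (conv A K α β)
  have h2 := prim_sum_le D L γ
  have h3 := conv_sq δ C hδ hC A K α β a b ha hb
  have h4 : ∑ n ∈ Icc 1 L, ‖γ n‖ ^ 2 ≤ L * c ^ 2 := by
    calc ∑ n ∈ Icc 1 L, ‖γ n‖ ^ 2 ≤ ∑ n ∈ Icc 1 L, c ^ 2 :=
          sum_le_sum (fun n _ => pow_le_pow_left₀ (norm_nonneg _) (hc n) 2)
      _ = L * c ^ 2 := by rw [sum_const, nsmul_eq_mul]; simp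
  have e : ∀ q ∈ Ioc D (2 * D), ∀ χ ∈ (univ : Finset (DirichletCharacter ℂ q)).filter
        (fun χ => χ.IsPrimitive),
      ‖∑ n ∈ Icc 1 A, α n * χ (n : ZMod q)‖ * ‖∑ n ∈ Icc 1 K, β n * χ (n : ZMod q)‖ *
        ‖∑ n ∈ Icc 1 L, γ n * χ (n : ZMod q)‖ =
      ‖∑ n ∈ Icc 1 (A * K), conv A K α β n * χ (n : ZMod q)‖ *
        ‖∑ n ∈ Icc 1 L, γ n * χ (n : ZMod q)‖ := by
    intro q _ χ _
    rw [← norm_mul, conv_eq]
  rw [sum_congr rfl (fun q hq => sum_congr rfl (e q hq))]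
  rw [sum_sigma'] at h1 h2 ⊢
  refine le_trans (Real.sum_mul_le_sqrt_mul_sqrt _ _ _) ?_
  have k1 : ∑ x ∈ (Ioc D (2 * D)).sigma (fun q => (univ : Finset (DirichletCharacter ℂ q)).filter
        (fun χ => χ.IsPrimitive)), ‖∑ n ∈ Icc 1 (A * K), conv A K α β n * x.2 (n : ZMod x.1)‖ ^ 2
      ≤ 24 * (((A * K : ℝ) + (D : ℝ) ^ 2) * (A * K)) * (a * b * (C * ((A * K : ℕ) : ℝ) ^ δ)) ^ 2 := by
    refine le_trans h1 ?_
    calc 24 * (((A * K : ℕ) : ℝ) + (D : ℝ) ^ 2) * ∑ n ∈ Icc 1 (A * K), ‖conv A K α β n‖ ^ 2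
        ≤ 24 * (((A * K : ℕ) : ℝ) + (D : ℝ) ^ 2) *
          ((A * K : ℝ) * (a * b * (C * ((A * K : ℕ) : ℝ) ^ δ)) ^ 2) :=
          mul_le_mul_of_nonneg_left h3 (by positivity)
      _ = _ := by push_cast; ring
  have k2 : ∑ x ∈ (Ioc D (2 * D)).sigma (fun q => (univ : Finset (DirichletCharacter ℂ q)).filter
        (fun χ => χ.IsPrimitive)), ‖∑ n ∈ Icc 1 L, γ n * x.2 (n : ZMod x.1)‖ ^ 2
      ≤ 24 * (((L : ℝ) + (D : ℝ) ^ 2) * L) * c ^ 2 := by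
    refine le_trans h2 ?_
    calc 24 * ((L : ℝ) + (D : ℝ) ^ 2) * ∑ n ∈ Icc 1 L, ‖γ n‖ ^ 2
        ≤ 24 * ((L : ℝ) + (D : ℝ) ^ 2) * (L * c ^ 2) :=
          mul_le_mul_of_nonneg_left h4 (by positivity)
      _ = _ := by ring
  calc Real.sqrt (∑ x ∈ (Ioc D (2 * D)).sigma (fun q =>
          (univ : Finset (DirichletCharacter ℂ q)).filter
        (fun χ => χ.IsPrimitive)), ‖∑ n ∈ Icc 1 (A * K), conv A K α β n * x.2 (n : ZMod x.1)‖ ^ 2)
        * Real.sqrt (∑ x ∈ (Ioc D (2 * D)).sigma (fun q =>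
          (univ : Finset (DirichletCharacter ℂ q)).filter
        (fun χ => χ.IsPrimitive)), ‖∑ n ∈ Icc 1 L, γ n * x.2 (n : ZMod x.1)‖ ^ 2)
      ≤ Real.sqrt (24 * (((A * K : ℝ) + (D : ℝ) ^ 2) * (A * K)) *
          (a * b * (C * ((A * K : ℕ) : ℝ) ^ δ)) ^ 2) *
        Real.sqrt (24 * (((L : ℝ) + (D : ℝ) ^ 2) * L) * c ^ 2) :=
        mul_le_mul (Real.sqrt_le_sqrt k1) (Real.sqrt_le_sqrt k2) (Real.sqrt_nonneg _)
          (Real.sqrt_nonneg _)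
    _ = 24 * C * a * b * c * ((A * K : ℕ) : ℝ) ^ δ *
        Real.sqrt (((A * K : ℝ) + (D : ℝ) ^ 2) * (A * K) * ((L : ℝ) + (D : ℝ) ^ 2) * L) := by
        rw [← Real.sqrt_mul (by positivity)]
        have : 24 * (((A * K : ℝ) + (D : ℝ) ^ 2) * (A * K)) *
          (a * b * (C * ((A * K : ℕ) : ℝ) ^ δ)) ^ 2 * (24 * (((L : ℝ) + (D : ℝ) ^ 2) * L) * c ^ 2)
          = (24 * C * a * b * c * ((A * K : ℕ) : ℝ) ^ δ) ^ 2 *
            (((A * K : ℝ) + (D : ℝ) ^ 2) * (A * K) * ((L : ℝ) + (D : ℝ) ^ 2) * L) := by ring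
        rw [this, Real.sqrt_mul (by positivity), Real.sqrt_sq (by positivity)]

open Classical in
lemma LSaux.count_le (D : ℕ) :
    ∑ q ∈ Ioc D (2 * D), ∑ _χ ∈ (univ : Finset (DirichletCharacter ℂ q)).filter
        (fun χ => χ.IsPrimitive), (1 : ℝ) ^ 2 ≤ 2 * (D : ℝ) ^ 2 := by
  calc ∑ q ∈ Ioc D (2 * D), ∑ _χ ∈ (univ : Finset (DirichletCharacter ℂ q)).filter
        (fun χ => χ.IsPrimitive), (1 : ℝ) ^ 2 ≤ ∑ q ∈ Ioc D (2 * D), (2 * D : ℝ) := by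
        apply sum_le_sum
        intro q hq
        rw [mem_Ioc] at hq
        have : NeZero q := ⟨by omega⟩
        simp only [one_pow, sum_const, nsmul_eq_mul, mul_one]
        have h1 : ((univ : Finset (DirichletCharacter ℂ q)).filter
          (fun χ => χ.IsPrimitive)).card ≤ Nat.totient q := by
          refine le_trans (card_le_univ _) ?_
          rw [← Nat.card_eq_fintype_card, DirichletCharacter.card_eq_totient_of_hasEnoughRootsOfUnity]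
        have h2 : Nat.totient q ≤ q := Nat.totient_le q
        exact_mod_cast (by omega : ((univ : Finset (DirichletCharacter ℂ q)).filter
          (fun χ => χ.IsPrimitive)).card ≤ 2 * D)
    _ = 2 * (D : ℝ) ^ 2 := by
        rw [sum_const, nsmul_eq_mul, Nat.card_Ioc]
        have : 2 * D - D = D := by omega
        rw [this]; ring

open Classical in
/-- two polynomials merged, Cauchy-Schwarz against the number of characters -/
theorem ls2 (δ : ℝ) (hδ : 0 < δ) : ∃ C : ℝ, 0 < C ∧ ∀ (D A K : ℕ) (α β : ℕ → ℂ)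
    (a b : ℝ), 1 ≤ D → 1 ≤ A → 1 ≤ K → (∀ n, ‖α n‖ ≤ a) → (∀ n, ‖β n‖ ≤ b) →
    ∑ q ∈ Ioc D (2 * D), ∑ χ ∈ (univ : Finset (DirichletCharacter ℂ q)).filter
        (fun χ => χ.IsPrimitive),
      ‖∑ n ∈ Icc 1 A, α n * χ (n : ZMod q)‖ * ‖∑ n ∈ Icc 1 K, β n * χ (n : ZMod q)‖
      ≤ C * a * b * ((A * K : ℕ) : ℝ) ^ δ * D *
        Real.sqrt (((A * K : ℝ) + (D : ℝ) ^ 2) * (A * K)) := by
  obtain ⟨C, hC0, hC⟩ := Pool.Agent.Helper112.divisor_bound δ hδ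
  refine ⟨7 * C, by positivity, ?_⟩
  intro D A K α β a b hD hA hK ha hb
  have ha0 : 0 ≤ a := le_trans (norm_nonneg _) (ha 0)
  have hb0 : 0 ≤ b := le_trans (norm_nonneg _) (hb 0)
  have h1 := prim_sum_le D (A * K) (conv A K α β)
  have h2 := LSaux.count_le D
  have h3 := conv_sq δ C hδ hC A K α β a b ha hb
  have e : ∀ q ∈ Ioc D (2 * D), ∀ χ ∈ (univ : Finset (DirichletCharacter ℂ q)).filter
        (fun χ => χ.IsPrimitive),
      ‖∑ n ∈ Icc 1 A, α n * χ (n : ZMod q)‖ * ‖∑ n ∈ Icc 1 K, β n * χ (n : ZMod q)‖ =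
      ‖∑ n ∈ Icc 1 (A * K), conv A K α β n * χ (n : ZMod q)‖ * 1 := by
    intro q _ χ _
    rw [← norm_mul, conv_eq, mul_one]
  rw [sum_congr rfl (fun q hq => sum_congr rfl (e q hq))]
  rw [sum_sigma'] at h1 h2 ⊢
  refine le_trans (Real.sum_mul_le_sqrt_mul_sqrt _ _ _) ?_
  have k1 : ∑ x ∈ (Ioc D (2 * D)).sigma (fun q => (univ : Finset (DirichletCharacter ℂ q)).filter
        (fun χ => χ.IsPrimitive)), ‖∑ n ∈ Icc 1 (A * K), conv A K α β n * x.2 (n : ZMod x.1)‖ ^ 2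
      ≤ 24 * (((A * K : ℝ) + (D : ℝ) ^ 2) * (A * K)) * (a * b * (C * ((A * K : ℕ) : ℝ) ^ δ)) ^ 2 := by
    refine le_trans h1 ?_
    calc 24 * (((A * K : ℕ) : ℝ) + (D : ℝ) ^ 2) * ∑ n ∈ Icc 1 (A * K), ‖conv A K α β n‖ ^ 2
        ≤ 24 * (((A * K : ℕ) : ℝ) + (D : ℝ) ^ 2) *
          ((A * K : ℝ) * (a * b * (C * ((A * K : ℕ) : ℝ) ^ δ)) ^ 2) :=
          mul_le_mul_of_nonneg_left h3 (by positivity)
      _ = _ := by push_cast; ring
  calc Real.sqrt (∑ x ∈ (Ioc D (2 * D)).sigma (fun q =>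
          (univ : Finset (DirichletCharacter ℂ q)).filter
        (fun χ => χ.IsPrimitive)), ‖∑ n ∈ Icc 1 (A * K), conv A K α β n * x.2 (n : ZMod x.1)‖ ^ 2)
        * Real.sqrt (∑ x ∈ (Ioc D (2 * D)).sigma (fun q =>
          (univ : Finset (DirichletCharacter ℂ q)).filter
        (fun χ => χ.IsPrimitive)), (1 : ℝ) ^ 2)
      ≤ Real.sqrt (24 * (((A * K : ℝ) + (D : ℝ) ^ 2) * (A * K)) *
          (a * b * (C * ((A * K : ℕ) : ℝ) ^ δ)) ^ 2) *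
        Real.sqrt (2 * (D : ℝ) ^ 2) :=
        mul_le_mul (Real.sqrt_le_sqrt k1) (Real.sqrt_le_sqrt h2) (Real.sqrt_nonneg _)
          (Real.sqrt_nonneg _)
    _ = Real.sqrt ((48 : ℝ) * ((C * a * b * ((A * K : ℕ) : ℝ) ^ δ * D) ^ 2 *
        (((A * K : ℝ) + (D : ℝ) ^ 2) * (A * K)))) := by
        rw [← Real.sqrt_mul (by positivity)]
        congr 1
        ring
    _ ≤ Real.sqrt ((7 : ℝ) ^ 2 * ((C * a * b * ((A * K : ℕ) : ℝ) ^ δ * D) ^ 2 *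
        (((A * K : ℝ) + (D : ℝ) ^ 2) * (A * K)))) := by
        apply Real.sqrt_le_sqrt
        apply mul_le_mul_of_nonneg_right (by norm_num) (by positivity)
    _ = 7 * C * a * b * ((A * K : ℕ) : ℝ) ^ δ * D *
        Real.sqrt (((A * K : ℝ) + (D : ℝ) ^ 2) * (A * K)) := by
        rw [Real.sqrt_mul (by positivity), Real.sqrt_sq (by positivity),
          Real.sqrt_mul (by positivity), Real.sqrt_sq (by positivity)]
        ring

end H343
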