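import Pool.Agent.H43.G.R_seed8.H343R2.Gauss

open Finset MeasureTheory

namespace H343

namespace PVaux

open Pool.Agent.Helper112 Gauss

theorem ex_eq_ee (x : ℝ) : ex x = ee x := by
  unfold ex ee
  congr 1
  push_cast
  ring

theorem ex_nat_mul (n : ℕ) (x : ℝ) : ex (n * x) = ex x ^ n := by
  rw [ex_eq_ee, ex_eq_ee]
  exact ls_ee_nat_mul n x

theorem lsD_le (M : ℕ) (t : ℝ) (h0 : 0 < t) (h1 : t < 1) :
    ‖lsD M t‖ ≤ 1 / (2 * t) + 1 / (2 * (1 - t)) := by
  have hb := lsD_bound_sin M t h0 h1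
  have hn : 0 ≤ ‖lsD M t‖ := norm_nonneg _
  have hpos : 0 < Real.pi := Real.pi_pos
  have h1t : 0 < 1 - t := by linarith
  rcases le_total t (1 / 2) with h | h
  · have hs : 2 * t ≤ Real.sin (Real.pi * t) := by
      have := Real.mul_le_sin (x := Real.pi * t) (by positivity) (by nlinarith)
      have e : 2 / Real.pi * (Real.pi * t) = 2 * t := by field_simp
      linarith
    have h3 : ‖lsD M t‖ * (2 * t) ≤ 1 :=
      le_trans (mul_le_mul_of_nonneg_left hs hn) hb
    have h4 : ‖lsD M t‖ ≤ 1 / (2 * t) := by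
      rw [le_div_iff₀ (by positivity)]
      exact h3
    have h5 : 0 ≤ 1 / (2 * (1 - t)) := by positivity
    linarith
  · have hs : 2 * (1 - t) ≤ Real.sin (Real.pi * t) := by
      have := Real.mul_le_sin (x := Real.pi * (1 - t))
        (mul_nonneg hpos.le (by linarith)) (by nlinarith)
      have e : 2 / Real.pi * (Real.pi * (1 - t)) = 2 * (1 - t) := by field_simp
      have e2 : Real.sin (Real.pi * (1 - t)) = Real.sin (Real.pi * t) := by
        rw [show Real.pi * (1 - t) = Real.pi - Real.pi * t by ring, Real.sin_pi_sub]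
      linarith
    have h3 : ‖lsD M t‖ * (2 * (1 - t)) ≤ 1 :=
      le_trans (mul_le_mul_of_nonneg_left hs hn) hb
    have h4 : ‖lsD M t‖ ≤ 1 / (2 * (1 - t)) := by
      rw [le_div_iff₀ (by positivity)]
      exact h3
    have h5 : 0 ≤ 1 / (2 * t) := by positivity
    linarith

/-- geometric sum over `Icc 1 N` -/
theorem geom_le (N q b : ℕ) (hb : 1 ≤ b) (hbq : b < q) :
    ‖∑ n ∈ Icc 1 N, ex (n * ((b : ℝ) / q))‖ ≤ (q : ℝ) / 2 * (1 / b + 1 / ((q - b : ℕ) : ℝ)) := by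
  have hq0 : (0 : ℝ) < q := by
    have : 0 < q := by omega
    exact_mod_cast this
  have hb0 : (0 : ℝ) < b := by exact_mod_cast hb
  have hbq' : (b : ℝ) < q := by exact_mod_cast hbq
  have h0 : 0 < (b : ℝ) / q := by positivity
  have h1 : (b : ℝ) / q < 1 := (div_lt_one hq0).mpr hbq'
  have h2 := lsD_le N ((b : ℝ) / q) h0 h1
  have h3 : ∑ n ∈ Icc 1 N, ex (n * ((b : ℝ) / q)) = ex ((b : ℝ) / q) * lsD N ((b : ℝ) / q) := by
    unfold lsD
    rw [mul_sum]
    have : Icc 1 N = (range N).image (fun i => i + 1) := by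
      ext x
      simp only [mem_Icc, mem_image, mem_range]
      constructor
      · rintro ⟨h1, h2⟩; exact ⟨x - 1, by omega, by omega⟩
      · rintro ⟨a, h1, rfl⟩; omega
    rw [this, sum_image (by intro a _ b _ h; simpa using h)]
    apply sum_congr rfl
    intro i _
    rw [← ex_eq_ee, ← ex_add]
    congr 1
    push_cast
    ring
  rw [h3, norm_mul, norm_ex, one_mul]
  refine h2.trans (le_of_eq ?_)
  have hsub : (((q - b : ℕ)) : ℝ) = q - b := by
    rw [Nat.cast_sub hbq.le]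
  rw [hsub]
  have h4 : (q : ℝ) - b ≠ 0 := by linarith
  have h5 : 1 - (b : ℝ) / q = ((q : ℝ) - b) / q := by field_simp
  rw [h5]
  field_simp

theorem harmonic_le (n : ℕ) (_hn : 1 ≤ n) : ∑ b ∈ Ico 1 n, 1 / (b : ℝ) ≤ 1 + Real.log n := by
  have h := harmonic_le_one_add_log n
  have h1 : ∑ b ∈ Ico 1 n, 1 / (b : ℝ) ≤ (harmonic n : ℝ) := by
    rw [harmonic_eq_sum_Icc]
    push_cast
    have : ∀ b ∈ Ico 1 n, 1 / (b : ℝ) = ((b : ℝ))⁻¹ := fun b _ => one_div _
    rw [sum_congr rfl this]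
    apply sum_le_sum_of_subset_of_nonneg
    · intro b hb
      rw [mem_Ico] at hb
      rw [mem_Icc]
      omega
    · intro b _ _
      positivity
  exact h1.trans h

theorem sum_reflect (q : ℕ) (_hq : 1 ≤ q) :
    ∑ b ∈ Ico 1 q, 1 / ((q - b : ℕ) : ℝ) = ∑ b ∈ Ico 1 q, 1 / (b : ℝ) := by
  apply sum_bij (fun (b : ℕ) _ => q - b)
  · intro b hb; rw [mem_Ico] at hb ⊢; omega
  · intro a ha b hb h; rw [mem_Ico] at ha hb; omega
  · intro b hb; rw [mem_Ico] at hb; exact ⟨q - b, by rw [mem_Ico]; omega, by omega⟩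
  · intro b _; rfl

/-- Pólya–Vinogradov for a primitive character, plain sums -/
theorem PV_plain (q N : ℕ) (hq : 2 ≤ q) (χ : DirichletCharacter ℂ q) (hχ : χ.IsPrimitive) :
    ‖∑ a ∈ Icc 1 N, χ (a : ZMod q)‖ ≤ Real.sqrt q * (1 + Real.log q) := by
  have : NeZero q := ⟨by omega⟩
  have hinv : (χ⁻¹).IsPrimitive := by
    rw [DirichletCharacter.isPrimitive_def, DirichletCharacter.conductor_inv]
    exact hχ
  have h1 := MLS.sum_char_T q N (fun _ => 1) hχ
  simp only [one_mul] at h1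
  have hgn : ‖gaussSum χ⁻¹ (ZMod.stdAddChar : AddChar (ZMod q) ℂ)‖ = Real.sqrt q := by
    rw [← GS_eq, GS_primitive q (by omega) _ hinv]
  have hq0 : (0 : ℝ) < q := by
    have : 0 < q := by omega
    exact_mod_cast this
  have hsq : 0 < Real.sqrt q := Real.sqrt_pos.mpr hq0
  -- bound of the left side
  have h2 : ‖∑ a : ZMod q, χ⁻¹ a * MLS.T q N (fun _ => 1) a‖ ≤ q * (1 + Real.log q) := by
    rw [← sum_range_eq q (fun a => χ⁻¹ a * MLS.T q N (fun _ => 1) a)]
    have h3 : range q = insert 0 (Ico 1 q) := by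
      ext x
      simp only [mem_range, mem_insert, mem_Ico]
      omega
    rw [h3, sum_insert (by simp)]
    have h4 : χ⁻¹ ((0 : ℕ) : ZMod q) = 0 := by
      have : Fact (1 < q) := ⟨by omega⟩
      push_cast
      exact MulChar.map_zero _
    rw [h4, zero_mul, zero_add]
    refine (norm_sum_le _ _).trans ?_
    have h5 : ∀ b ∈ Ico 1 q, ‖χ⁻¹ (b : ZMod q) * MLS.T q N (fun _ => 1) (b : ZMod q)‖ ≤
        (q : ℝ) / 2 * (1 / b + 1 / ((q - b : ℕ) : ℝ)) := by
      intro b hb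
      rw [mem_Ico] at hb
      rw [norm_mul]
      have h6 : MLS.T q N (fun _ => 1) (b : ZMod q) = ∑ n ∈ Icc 1 N, ex (n * ((b : ℝ) / q)) := by
        rw [MLS.T_eq]
        apply sum_congr rfl
        intro n _
        rw [one_mul, ex_eq_ee]
        congr 1
        ring
      rw [h6]
      calc _ ≤ 1 * ‖∑ n ∈ Icc 1 N, ex (n * ((b : ℝ) / q))‖ := by
            gcongr
            exact DirichletCharacter.norm_le_one _ _
        _ ≤ _ := by rw [one_mul]; exact geom_le N q b hb.1 hb.2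
    refine (sum_le_sum h5).trans ?_
    rw [← mul_sum, sum_add_distrib, sum_reflect q (by omega)]
    have h7 := harmonic_le q (by omega)
    nlinarith
  rw [h1, norm_mul, hgn] at h2
  have h8 : (q : ℝ) * (1 + Real.log q) = (Real.sqrt q * (1 + Real.log q)) * Real.sqrt q := by
    have := Real.mul_self_sqrt hq0.le
    linear_combination (-(1 + Real.log q)) * this
  rw [h8] at h2
  exact le_of_mul_le_mul_right h2 hsq

theorem sum_multiples_Icc (d N : ℕ) (hd : 1 ≤ d) (g : ℕ → ℂ) :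
    ∑ b ∈ (Icc 1 N).filter (fun b => d ∣ b), g b = ∑ b ∈ Icc 1 (N / d), g (d * b) := by
  symm
  apply sum_bij (fun (b : ℕ) _ => d * b)
  · intro b hb
    rw [mem_Icc] at hb
    rw [mem_filter, mem_Icc]
    refine ⟨⟨Nat.mul_pos hd hb.1, ?_⟩, dvd_mul_right _ _⟩
    calc d * b ≤ d * (N / d) := Nat.mul_le_mul_left _ hb.2
      _ ≤ N := Nat.mul_div_le N d
  · intro a _ b _ hab
    exact Nat.eq_of_mul_eq_mul_left (by omega) hab
  · intro b hb
    rw [mem_filter, mem_Icc] at hb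
    obtain ⟨c, rfl⟩ := hb.2
    refine ⟨c, mem_Icc.mpr ⟨Nat.pos_of_mul_pos_left hb.1.1, ?_⟩, rfl⟩
    rw [Nat.le_div_iff_mul_le (by omega)]
    linarith [hb.1.2, mul_comm d c]
  · intro b _; rfl

end PVaux

open PVaux Gauss

theorem PV (q m N : ℕ) (hq : 2 ≤ q) (hm : 1 ≤ m) (χ : DirichletCharacter ℂ q)
    (hχ : χ.IsPrimitive) :
    ‖∑ a ∈ (Icc 1 N).filter (fun a => a.Coprime m), χ (a : ZMod q)‖ ≤
      m.divisors.card * (2 * Real.sqrt q * (1 + Real.log q)) := by
  have h1 : ∑ a ∈ (Icc 1 N).filter (fun a => a.Coprime m), χ (a : ZMod q) =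
      ∑ d ∈ m.divisors, ((ArithmeticFunction.moebius d : ℤ) : ℂ) *
        (χ (d : ZMod q) * ∑ b ∈ Icc 1 (N / d), χ (b : ZMod q)) := by
    have h2 : ∑ a ∈ (Icc 1 N).filter (fun a => a.Coprime m), χ (a : ZMod q) =
        ∑ a ∈ Icc 1 N, (if a.Coprime m then (1 : ℂ) else 0) * χ (a : ZMod q) := by
      rw [sum_filter]
      apply sum_congr rfl
      intro a _
      split_ifs <;> simp
    rw [h2]
    simp_rw [coprime_indicator _ m hm]
    have h3 : ∀ a ∈ Icc 1 N, (∑ d ∈ m.divisors.filter (fun d => d ∣ a),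
        ((ArithmeticFunction.moebius d : ℤ) : ℂ)) * χ (a : ZMod q) =
        ∑ d ∈ m.divisors, if d ∣ a then ((ArithmeticFunction.moebius d : ℤ) : ℂ) *
          χ (a : ZMod q) else 0 := by
      intro a _
      rw [sum_mul, sum_filter]
    rw [sum_congr rfl h3, sum_comm]
    apply sum_congr rfl
    intro d hd
    have hd1 : 1 ≤ d := Nat.pos_of_mem_divisors hd
    rw [← sum_filter, ← mul_sum, sum_multiples_Icc d N hd1]
    congr 1
    rw [mul_sum]
    apply sum_congr rfl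
    intro b _
    push_cast
    rw [map_mul]
  rw [h1]
  refine (norm_sum_le _ _).trans ?_
  have hlog : 0 ≤ Real.log q := Real.log_natCast_nonneg q
  have h4 : ∀ d ∈ m.divisors, ‖((ArithmeticFunction.moebius d : ℤ) : ℂ) *
      (χ (d : ZMod q) * ∑ b ∈ Icc 1 (N / d), χ (b : ZMod q))‖ ≤
      2 * Real.sqrt q * (1 + Real.log q) := by
    intro d _
    rw [norm_mul, norm_mul]
    have h2 : ‖((ArithmeticFunction.moebius d : ℤ) : ℂ)‖ ≤ 1 := by
      rw [Complex.norm_intCast]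
      exact_mod_cast ArithmeticFunction.abs_moebius_le_one
    have h3 : ‖χ (d : ZMod q)‖ ≤ 1 := DirichletCharacter.norm_le_one _ _
    have h5 := PV_plain q (N / d) hq χ hχ
    have h6 : 0 ≤ Real.sqrt q * (1 + Real.log q) := by positivity
    calc _ ≤ 1 * (1 * (Real.sqrt q * (1 + Real.log q))) := by gcongr
      _ ≤ _ := by nlinarith
  calc _ ≤ ∑ d ∈ m.divisors, 2 * Real.sqrt q * (1 + Real.log q) := sum_le_sum h4
    _ = _ := by rw [sum_const, nsmul_eq_mul]

namespace PVaux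

/-- discrete Abel summation -/
theorem abel_discrete (c w : ℕ → ℂ) (L0 L1 : ℕ) (h : L0 ≤ L1) :
    ∑ a ∈ Icc L0 L1, c a * w a = w L1 * ∑ a ∈ Icc L0 L1, c a -
      ∑ j ∈ Ico L0 L1, (w (j + 1) - w j) * ∑ a ∈ Icc L0 j, c a := by
  induction L1, h using Nat.le_induction with
  | base => simp [mul_comm]
  | succ n hn ih =>
    rw [sum_Icc_succ_top (by omega : L0 ≤ n + 1), ih, sum_Icc_succ_top (by omega : L0 ≤ n + 1),
      sum_Ico_succ_top hn]
    ring

end PVaux

/-- weighted version on an interval -/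
theorem PV_weight (q m L0 L1 : ℕ) (hq : 2 ≤ q) (hm : 1 ≤ m) (hL0 : 1 ≤ L0) (hL : L0 ≤ L1)
    (χ : DirichletCharacter ℂ q) (hχ : χ.IsPrimitive) (w : ℝ → ℂ)
    (hw : ContDiffOn ℝ 1 w (Set.Icc (L0 : ℝ) L1)) (V : ℝ)
    (hV : ‖w L1‖ + ∫ t in (L0 : ℝ)..L1, ‖deriv w t‖ ≤ V) :
    ‖∑ a ∈ (Icc L0 L1).filter (fun a => a.Coprime m), χ (a : ZMod q) * w a‖ ≤
      2 * V * (m.divisors.card * (2 * Real.sqrt q * (1 + Real.log q))) := by
  set P : ℝ := m.divisors.card * (2 * Real.sqrt q * (1 + Real.log q)) with hP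
  have hlog : 0 ≤ Real.log q := Real.log_natCast_nonneg q
  have hP0 : 0 ≤ P := by rw [hP]; positivity
  have hLR : (L0 : ℝ) ≤ L1 := by exact_mod_cast hL
  -- integrability of the derivative
  have hint : IntervalIntegrable (deriv w) volume (L0 : ℝ) L1 := by
    rcases eq_or_lt_of_le hLR with h | h
    · rw [h]
    · have hc : ContinuousOn (derivWithin w (Set.Icc (L0 : ℝ) L1)) (Set.Icc (L0 : ℝ) L1) :=
        hw.continuousOn_derivWithin (uniqueDiffOn_Icc h) le_rfl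
      have h1 : IntervalIntegrable (derivWithin w (Set.Icc (L0 : ℝ) L1)) volume (L0 : ℝ) L1 :=
        hc.intervalIntegrable_of_Icc hLR
      rw [intervalIntegrable_iff_integrableOn_Ioo_of_le hLR] at h1 ⊢
      refine h1.congr_fun ?_ measurableSet_Ioo
      intro t ht
      exact derivWithin_of_mem_nhds (Icc_mem_nhds ht.1 ht.2)
  -- sub-intervals
  have hsub : ∀ a b : ℕ, L0 ≤ a → a ≤ b → b ≤ L1 →
      IntervalIntegrable (deriv w) volume (a : ℝ) b := by
    intro a b ha hab hb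
    refine hint.mono_set ?_
    rw [Set.uIcc_of_le (by exact_mod_cast hab), Set.uIcc_of_le hLR]
    exact Set.Icc_subset_Icc (by exact_mod_cast ha) (by exact_mod_cast hb)
  have hdiff : ∀ j ∈ Ico L0 L1, w ((j + 1 : ℕ) : ℝ) - w (j : ℝ) =
      ∫ t in (j : ℝ)..((j + 1 : ℕ) : ℝ), deriv w t := by
    intro j hj
    rw [mem_Ico] at hj
    have hj1 : (L0 : ℝ) ≤ j := by exact_mod_cast hj.1
    have hj2 : ((j + 1 : ℕ) : ℝ) ≤ L1 := by exact_mod_cast hj.2
    have hj3 : (j : ℝ) ≤ ((j + 1 : ℕ) : ℝ) := by push_cast; linarith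
    symm
    apply intervalIntegral.integral_eq_sub_of_hasDerivAt_of_le hj3
    · exact hw.continuousOn.mono (Set.Icc_subset_Icc hj1 hj2)
    · intro t ht
      have h2 : ContDiffAt ℝ 1 w t := hw.contDiffAt (Icc_mem_nhds (by linarith [ht.1]) (by linarith [ht.2]))
      exact (h2.differentiableAt (by simp)).hasDerivAt
    · exact hsub j (j + 1) hj.1 (by omega) hj.2
  -- partial sums
  set c : ℕ → ℂ := fun a => if a.Coprime m then χ (a : ZMod q) else 0 with hc
  have hS : ∀ j : ℕ, L0 ≤ j → ‖∑ a ∈ Icc L0 j, c a‖ ≤ 2 * P := by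
    intro j hj
    have h1 : ∀ n : ℕ, ∑ a ∈ Icc 1 n, c a = ∑ a ∈ (Icc 1 n).filter (fun a => a.Coprime m), χ (a : ZMod q) := by
      intro n
      rw [hc, sum_filter]
    have h2 : ∑ a ∈ Icc L0 j, c a = ∑ a ∈ Icc 1 j, c a - ∑ a ∈ Icc 1 (L0 - 1), c a := by
      have h3 : Icc 1 j = Icc 1 (L0 - 1) ∪ Icc L0 j := by
        ext x
        simp only [mem_union, mem_Icc]
        omega
      have h4 : Disjoint (Icc 1 (L0 - 1)) (Icc L0 j) := by
        rw [Finset.disjoint_left]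
        intro x hx hx'
        rw [mem_Icc] at hx hx'
        omega
      rw [h3, sum_union h4]
      ring
    rw [h2, h1, h1]
    refine (norm_sub_le _ _).trans ?_
    have h5 := PV q m j hq hm χ hχ
    have h6 := PV q m (L0 - 1) hq hm χ hχ
    rw [← hP] at h5 h6
    linarith
  have h1 : ∑ a ∈ (Icc L0 L1).filter (fun a => a.Coprime m), χ (a : ZMod q) * w a =
      ∑ a ∈ Icc L0 L1, c a * (fun n : ℕ => w n) a := by
    rw [sum_filter]
    apply sum_congr rfl
    intro a _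
    rw [hc]
    dsimp only
    split_ifs <;> simp
  rw [h1, abel_discrete c (fun n : ℕ => w n) L0 L1 hL]
  refine (norm_sub_le _ _).trans ?_
  have h2 : ‖w L1 * ∑ a ∈ Icc L0 L1, c a‖ ≤ ‖w L1‖ * (2 * P) := by
    rw [norm_mul]
    exact mul_le_mul_of_nonneg_left (hS L1 hL) (norm_nonneg _)
  have h3 : ‖∑ j ∈ Ico L0 L1, (w ((j + 1 : ℕ) : ℝ) - w (j : ℝ)) * ∑ a ∈ Icc L0 j, c a‖ ≤
      (∫ t in (L0 : ℝ)..L1, ‖deriv w t‖) * (2 * P) := by
    refine (norm_sum_le _ _).trans ?_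
    have h4 : ∀ j ∈ Ico L0 L1, ‖(w ((j + 1 : ℕ) : ℝ) - w (j : ℝ)) * ∑ a ∈ Icc L0 j, c a‖ ≤
        (∫ t in (j : ℝ)..((j + 1 : ℕ) : ℝ), ‖deriv w t‖) * (2 * P) := by
      intro j hj
      rw [norm_mul, hdiff j hj]
      rw [mem_Ico] at hj
      have h5 := hS j hj.1
      have h6 : ‖∫ t in (j : ℝ)..((j + 1 : ℕ) : ℝ), deriv w t‖ ≤
          ∫ t in (j : ℝ)..((j + 1 : ℕ) : ℝ), ‖deriv w t‖ :=
        intervalIntegral.norm_integral_le_integral_norm (by push_cast; linarith)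
      exact mul_le_mul h6 h5 (norm_nonneg _) ((norm_nonneg _).trans h6)
    refine (sum_le_sum h4).trans (le_of_eq ?_)
    rw [← sum_mul]
    congr 1
    have h7 := intervalIntegral.sum_integral_adjacent_intervals_Ico (μ := volume)
      (f := fun t => ‖deriv w t‖) (a := fun n : ℕ => (n : ℝ)) hL (by
        intro k hk
        exact (hsub k (k + 1) hk.1 (by omega) hk.2).norm)
    exact h7
  have h8 : ‖w L1 * ∑ a ∈ Icc L0 L1, c a‖ +
      ‖∑ j ∈ Ico L0 L1, (w ((j + 1 : ℕ) : ℝ) - w (j : ℝ)) * ∑ a ∈ Icc L0 j, c a‖ ≤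
      2 * V * P := by nlinarith
  exact h8

end H343
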