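import Pool.Agent.H43.G.R_seed8.H343R2.Defs

open Finset

namespace H343

open FourierTransform in
/-- separation of variables -/
theorem separation {B : ℝ} {f : ℝ → ℝ} (hf : Test B f) : ∃ F : ℝ → ℂ, Continuous F ∧
    MeasureTheory.Integrable (fun ξ => (1 + |ξ|) * ‖F ξ‖) ∧
    ∀ v : ℝ, (f v : ℂ) = ∫ ξ, F ξ * ex (ξ * v) := by
  have hc : HasCompactSupport (fun v : ℝ => (f v : ℂ)) := by
    apply HasCompactSupport.intro (isCompact_Icc : IsCompact (Set.Icc (-B) B))
    intro v hv
    have : B ≤ |v| := by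
      by_contra h
      push Not at h
      exact hv (Set.mem_Icc.mpr ⟨by linarith [abs_lt.mp h], by linarith [abs_lt.mp h]⟩)
    rw [hf.supp v this]
    simp
  have hs : ContDiff ℝ ((⊤ : ℕ∞) : WithTop ℕ∞) (fun v : ℝ => (f v : ℂ)) :=
    Complex.ofRealCLM.contDiff.comp hf.smooth
  set g : SchwartzMap ℝ ℂ := hc.toSchwartzMap hs with hg
  refine ⟨fun ξ => (𝓕 g) ξ, (𝓕 g).continuous, ?_, ?_⟩
  · have h0 := (𝓕 g).integrable_pow_mul MeasureTheory.volume 0
    have h1 := (𝓕 g).integrable_pow_mul MeasureTheory.volume 1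
    have := h0.add h1
    refine this.congr (Filter.Eventually.of_forall ?_)
    intro ξ
    simp only [Pi.add_apply, pow_zero, pow_one, one_mul, Real.norm_eq_abs]
    ring
  · intro v
    have h2 : 𝓕⁻ (𝓕 g) = g := FourierTransform.fourierInv_fourier_eq g
    have h3 : (f v : ℂ) = g v := rfl
    rw [h3]
    conv_lhs => rw [← h2]
    rw [SchwartzMap.fourierInv_coe, Real.fourierInv_eq']
    congr 1
    ext ξ
    unfold ex
    simp only [smul_eq_mul]
    rw [mul_comm]
    congr 2
    simp only [RCLike.inner_apply, conj_trivial]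
    push_cast
    ring

end H343
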