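import Pool.Agent.H43.G.R_seed8.H343R2.KF2
import Pool.Agent.H43.G.R_seed8.H343R2.Count
import Pool.Agent.H43.G.R_seed8.H343R2.PV
import Pool.Agent.H43.G.R_seed8.H343R2.Sep
import Pool.Agent.H43.G.R_seed8.H343R2.LS

open Finset MeasureTheory

namespace H343.KF

/-- twisted polynomial -/
noncomputable def PP (α : ℕ → ℂ) (m K : ℕ) (η : ℝ) {q : ℕ} (χ : DirichletCharacter ℂ q) : ℂ :=
  ∑ k ∈ Icc 1 K, tw α m η k * χ (k : ZMod q)

lemma PP_cont (α : ℕ → ℂ) (m K : ℕ) {q : ℕ} (χ : DirichletCharacter ℂ q) :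
    Continuous (fun η => PP α m K η χ) := by
  unfold PP
  exact continuous_finset_sum _ fun k _ => (tw_cont α m k).mul continuous_const

lemma PP_bdd (α : ℕ → ℂ) (m K : ℕ) {q : ℕ} (χ : DirichletCharacter ℂ q) :
    ∃ C, ∀ η, ‖PP α m K η χ‖ ≤ C := by
  refine ⟨∑ k ∈ Icc 1 K, ‖α k‖, fun η => ?_⟩
  unfold PP
  refine (norm_sum_le _ _).trans (sum_le_sum fun k _ => ?_)
  rw [norm_mul]
  calc ‖tw α m η k‖ * ‖χ (k : ZMod q)‖ ≤ ‖α k‖ * 1 :=
        mul_le_mul (tw_norm α m η k) (χ.norm_le_one _) (norm_nonneg _) (norm_nonneg _)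
    _ = ‖α k‖ := mul_one _

open scoped Classical in
/-- the family of primitive characters with conductor in `(D, 2D]` -/
noncomputable def PC (D : ℕ) : Finset (Σ q : ℕ, DirichletCharacter ℂ q) :=
  (Ioc D (2 * D)).sigma
    (fun q => (univ : Finset (DirichletCharacter ℂ q)).filter (fun χ => χ.IsPrimitive))

lemma mem_PC {D : ℕ} {p : Σ q : ℕ, DirichletCharacter ℂ q} (hp : p ∈ PC D) :
    D < p.1 ∧ p.1 ≤ 2 * D ∧ p.2.IsPrimitive := by
  simp only [PC, mem_sigma, mem_Ioc, mem_filter] at hp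
  exact ⟨hp.1.1, hp.1.2, hp.2.2⟩

lemma ls3_PC (δ : ℝ) (hδ : 0 < δ) : ∃ C : ℝ, 0 < C ∧ ∀ (D A K L m : ℕ) (α β : ℕ → ℂ)
    (b c : ℝ), 1 ≤ D → (∀ n, ‖α n‖ ≤ b) → (∀ n, ‖β n‖ ≤ c) → ∀ ξ η : ℝ,
    ∑ p ∈ PC D, ‖PP (fun _ => 1) m A ξ p.2‖ * (‖PP α m K η p.2‖ * ‖PP β m L η p.2‖)
      ≤ C * b * c * ((A * K : ℕ) : ℝ) ^ δ *
        Real.sqrt (((A * K : ℝ) + (D : ℝ) ^ 2) * (A * K) * ((L : ℝ) + (D : ℝ) ^ 2) * L) := by
  obtain ⟨C, hC, h⟩ := ls3 δ hδ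
  refine ⟨C, hC, ?_⟩
  intro D A K L m α β b c hD hα hβ ξ η
  have hb : 0 ≤ b := (norm_nonneg _).trans (hα 0)
  have hc : 0 ≤ c := (norm_nonneg _).trans (hβ 0)
  have hR : 0 ≤ C * b * c * ((A * K : ℕ) : ℝ) ^ δ *
        Real.sqrt (((A * K : ℝ) + (D : ℝ) ^ 2) * (A * K) * ((L : ℝ) + (D : ℝ) ^ 2) * L) := by
    positivity
  rcases Nat.eq_zero_or_pos A with hA | hA
  · subst hA
    refine le_trans (le_of_eq (sum_eq_zero fun p _ => ?_)) hR
    simp [PP]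
  rcases Nat.eq_zero_or_pos K with hK | hK
  · subst hK
    refine le_trans (le_of_eq (sum_eq_zero fun p _ => ?_)) hR
    simp [PP]
  rcases Nat.eq_zero_or_pos L with hL | hL
  · subst hL
    refine le_trans (le_of_eq (sum_eq_zero fun p _ => ?_)) hR
    simp [PP]
  have h1 := h D A K L (tw (fun _ => 1) m ξ) (tw α m η) (tw β m η) 1 b c hD hA hK hL
    (fun n => (tw_norm _ _ _ _).trans (by simp)) (fun n => (tw_norm _ _ _ _).trans (hα n))
    (fun n => (tw_norm _ _ _ _).trans (hβ n))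
  unfold PC
  rw [sum_sigma]
  refine le_trans (le_of_eq ?_) (h1.trans (le_of_eq (by ring)))
  apply sum_congr rfl
  intro q _
  apply sum_congr rfl
  intro χ _
  unfold PP
  ring

lemma ls2_PC (δ : ℝ) (hδ : 0 < δ) : ∃ C : ℝ, 0 < C ∧ ∀ (D A K m : ℕ) (α : ℕ → ℂ)
    (b : ℝ), 1 ≤ D → (∀ n, ‖α n‖ ≤ b) → ∀ ξ η : ℝ,
    ∑ p ∈ PC D, ‖PP (fun _ => 1) m A ξ p.2‖ * ‖PP α m K η p.2‖
      ≤ C * b * ((A * K : ℕ) : ℝ) ^ δ * D *
        Real.sqrt (((A * K : ℝ) + (D : ℝ) ^ 2) * (A * K)) := by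
  obtain ⟨C, hC, h⟩ := ls2 δ hδ
  refine ⟨C, hC, ?_⟩
  intro D A K m α b hD hα ξ η
  have hb : 0 ≤ b := (norm_nonneg _).trans (hα 0)
  have hR : 0 ≤ C * b * ((A * K : ℕ) : ℝ) ^ δ * D *
        Real.sqrt (((A * K : ℝ) + (D : ℝ) ^ 2) * (A * K)) := by
    positivity
  rcases Nat.eq_zero_or_pos A with hA | hA
  · subst hA
    refine le_trans (le_of_eq (sum_eq_zero fun p _ => ?_)) hR
    simp [PP]
  rcases Nat.eq_zero_or_pos K with hK | hK
  · subst hK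
    refine le_trans (le_of_eq (sum_eq_zero fun p _ => ?_)) hR
    simp [PP]
  have h1 := h D A K (tw (fun _ => 1) m ξ) (tw α m η) 1 b hD hA hK
    (fun n => (tw_norm _ _ _ _).trans (by simp)) (fun n => (tw_norm _ _ _ _).trans (hα n))
  unfold PC
  rw [sum_sigma]
  exact h1.trans (le_of_eq (by ring))

/-- restriction to a dyadic block -/
noncomputable def dy (j : ℕ) (α : ℕ → ℂ) (k : ℕ) : ℂ :=
  if k ∈ Ico (2 ^ j) (2 ^ (j + 1)) then α k else 0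

lemma dy_norm (j : ℕ) (α : ℕ → ℂ) (k : ℕ) : ‖dy j α k‖ ≤ ‖α k‖ := by
  unfold dy
  split_ifs
  · exact le_rfl
  · simp

/-- the bilinear form attached to `α, β` -/
noncomputable def TT (f : ℝ → ℝ) (x : ℝ) (M m : ℕ) (α β : ℕ → ℂ) {q : ℕ}
    (χ : DirichletCharacter ℂ q) : ℂ :=
  ∑ n ∈ (Icc 1 M).filter (fun n => n.Coprime m),
    (∑ i ∈ n.divisorsAntidiagonal, α i.1 * β i.2) * χ (n : ZMod q) * (f (Real.log (n / x)) : ℂ)

/-- dyadic decomposition and separation of variables -/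
lemma TT_bound {G : ℝ → ℂ} (hGc : Continuous G) (hGi : Integrable G) {f : ℝ → ℝ}
    (hfG : ∀ v : ℝ, (f v : ℂ) = ∫ ξ, G ξ * ex (ξ * v)) {B : ℝ} (hf : Test B f)
    (x : ℝ) (hx : 0 < x) (M m J : ℕ) (hM : Real.exp B * x ≤ M) (hJ : Real.exp B * x ≤ 2 ^ J)
    (α β : ℕ → ℂ) {q : ℕ} (χ : DirichletCharacter ℂ q) :
    ‖TT f x M m α β χ‖ ≤ ∑ j ∈ range J, ∫ η, ‖G η‖ *
      (‖PP (dy j α) m (2 ^ (j + 1)) η χ‖ * ‖PP β m ⌊Real.exp B * x / 2 ^ j⌋₊ η χ‖) := by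
  set g : ℕ → ℕ → ℂ := fun k l => (if k.Coprime m then α k * χ (k : ZMod q) else 0) *
    (if l.Coprime m then β l * χ (l : ZMod q) else 0) * (f (Real.log ((k * l : ℕ) / x)) : ℂ) with hg
  have hvan : ∀ k l : ℕ, Real.exp B * x ≤ (k * l : ℕ) → g k l = 0 := by
    intro k l hkl
    have h1 : Real.exp B ≤ (k * l : ℕ) / x := by
      rw [le_div_iff₀ hx]; exact hkl
    have h2 : B ≤ Real.log ((k * l : ℕ) / x) := by
      rw [← Real.log_exp B]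
      exact Real.log_le_log (Real.exp_pos B) h1
    simp only [hg]
    rw [hf.supp _ (h2.trans (le_abs_self _))]
    simp
  have e1 : TT f x M m α β χ = ∑ n ∈ Icc 1 M, ∑ i ∈ n.divisorsAntidiagonal, g i.1 i.2 := by
    unfold TT
    rw [sum_filter]
    apply sum_congr rfl
    intro n _
    split_ifs with hn
    · rw [sum_mul, sum_mul]
      apply sum_congr rfl
      intro i hi
      have hi' := (Nat.mem_divisorsAntidiagonal.1 hi).1
      have hc : (i.1 * i.2).Coprime m := by rw [hi']; exact hn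
      have h1 : i.1.Coprime m := Nat.Coprime.coprime_mul_right hc
      have h2 : i.2.Coprime m := Nat.Coprime.coprime_mul_left hc
      simp only [hg]
      rw [if_pos h1, if_pos h2, hi', ← hi']
      push_cast
      rw [map_mul]
      ring
    · symm
      apply sum_eq_zero
      intro i hi
      have hi' := (Nat.mem_divisorsAntidiagonal.1 hi).1
      simp only [hg]
      by_cases h1 : i.1.Coprime m
      · by_cases h2 : i.2.Coprime m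
        · exfalso
          apply hn
          rw [← hi']
          exact Nat.Coprime.mul_left h1 h2
        · rw [if_neg h2]; simp
      · rw [if_neg h1]; simp
  rw [e1, dyadic_split (Real.exp B * x) M J hM hJ g hvan]
  refine (norm_sum_le _ _).trans (sum_le_sum fun j _ => ?_)
  refine (sep_bound hGc hGi hfG x hx (Ico (2 ^ j) (2 ^ (j + 1))) (Icc 1 ⌊Real.exp B * x / 2 ^ j⌋₊)
    (fun k hk => ?_) (fun l hl => (mem_Icc.1 hl).1) _ _).trans (le_of_eq ?_)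
  · rw [mem_Ico] at hk
    exact Nat.one_le_two_pow.trans hk.1
  · apply integral_congr_ae
    refine Filter.Eventually.of_forall fun η => ?_
    simp only
    congr 2
    · congr 1
      unfold PP
      have : ∑ k ∈ Icc 1 (2 ^ (j + 1)), tw (dy j α) m η k * χ (k : ZMod q) =
          ∑ k ∈ Ico (2 ^ j) (2 ^ (j + 1)), tw (dy j α) m η k * χ (k : ZMod q) := by
        apply sum_eq_of_zero
        · intro k _ hk'
          unfold tw dy
          rw [if_neg hk']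
          simp
        · intro k hk hk'
          exfalso
          rw [mem_Ico] at hk
          rw [mem_Icc] at hk'
          exact hk' ⟨Nat.one_le_two_pow.trans hk.1, hk.2.le⟩
      rw [this]
      apply sum_congr rfl
      intro k hk
      unfold tw dy
      rw [if_pos hk]
      split_ifs
      · ring
      · simp
    · congr 1
      unfold PP
      apply sum_congr rfl
      intro k _
      unfold tw
      split_ifs
      · ring
      · simp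

lemma PP_congr {α β : ℕ → ℂ} {m K : ℕ} (h : ∀ n ∈ Icc 1 K, α n = β n) (η : ℝ) {q : ℕ}
    (χ : DirichletCharacter ℂ q) : PP α m K η χ = PP β m K η χ := by
  unfold PP
  apply sum_congr rfl
  intro n hn
  unfold tw
  rw [h n hn]

lemma ls3_PC' (δ : ℝ) (hδ : 0 < δ) : ∃ C : ℝ, 0 < C ∧ ∀ (D A K L m : ℕ) (α β : ℕ → ℂ)
    (b c : ℝ), 1 ≤ D → 0 ≤ b → 0 ≤ c → (∀ n ∈ Icc 1 K, ‖α n‖ ≤ b) →
    (∀ n ∈ Icc 1 L, ‖β n‖ ≤ c) → ∀ ξ η : ℝ,
    ∑ p ∈ PC D, ‖PP (fun _ => 1) m A ξ p.2‖ * (‖PP α m K η p.2‖ * ‖PP β m L η p.2‖)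
      ≤ C * b * c * ((A * K : ℕ) : ℝ) ^ δ *
        Real.sqrt (((A * K : ℝ) + (D : ℝ) ^ 2) * (A * K) * ((L : ℝ) + (D : ℝ) ^ 2) * L) := by
  obtain ⟨C, hC, h⟩ := ls3_PC δ hδ
  refine ⟨C, hC, ?_⟩
  intro D A K L m α β b c hD hb hc hα hβ ξ η
  have h1 := h D A K L m (fun n => if n ∈ Icc 1 K then α n else 0)
    (fun n => if n ∈ Icc 1 L then β n else 0) b c hD (fun n => by
      split_ifs with hn
      · exact hα n hn
      · simpa using hb) (fun n => by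
      split_ifs with hn
      · exact hβ n hn
      · simpa using hc) ξ η
  refine le_trans (le_of_eq ?_) h1
  apply sum_congr rfl
  intro p _
  rw [PP_congr (α := α) (fun n hn => (if_pos hn).symm) η p.2,
    PP_congr (α := β) (fun n hn => (if_pos hn).symm) η p.2]

lemma ls2_PC' (δ : ℝ) (hδ : 0 < δ) : ∃ C : ℝ, 0 < C ∧ ∀ (D A K m : ℕ) (α : ℕ → ℂ)
    (b : ℝ), 1 ≤ D → 0 ≤ b → (∀ n ∈ Icc 1 K, ‖α n‖ ≤ b) → ∀ ξ η : ℝ,
    ∑ p ∈ PC D, ‖PP (fun _ => 1) m A ξ p.2‖ * ‖PP α m K η p.2‖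
      ≤ C * b * ((A * K : ℕ) : ℝ) ^ δ * D *
        Real.sqrt (((A * K : ℝ) + (D : ℝ) ^ 2) * (A * K)) := by
  obtain ⟨C, hC, h⟩ := ls2_PC δ hδ
  refine ⟨C, hC, ?_⟩
  intro D A K m α b hD hb hα ξ η
  have h1 := h D A K m (fun n => if n ∈ Icc 1 K then α n else 0) b hD (fun n => by
      split_ifs with hn
      · exact hα n hn
      · simpa using hb) ξ η
  refine le_trans (le_of_eq ?_) h1
  apply sum_congr rfl
  intro p _
  rw [PP_congr (α := α) (fun n hn => (if_pos hn).symm) η p.2]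

/-- summation over characters and dyadic blocks -/
lemma TT_sum {G F : ℝ → ℂ} (hGc : Continuous G) (hGi : Integrable (fun ξ => (1 + |ξ|) * ‖G ξ‖))
    (hFc : Continuous F) (hFi : Integrable (fun ξ => (1 + |ξ|) * ‖F ξ‖)) {f l : ℝ → ℝ}
    (hfG : ∀ v : ℝ, (f v : ℂ) = ∫ ξ, G ξ * ex (ξ * v))
    (hlF : ∀ v : ℝ, (l v : ℂ) = ∫ ξ, F ξ * ex (ξ * v)) {B : ℝ} (hf : Test B f) (hl : Test B l)
    (x Y : ℝ) (hx : 0 < x) (hY : 0 < Y) (D A N M m J : ℕ) (hD : 1 ≤ D) (hm : 1 ≤ m)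
    (hM : Real.exp B * x ≤ M) (hJ : Real.exp B * x ≤ 2 ^ J)
    (hA : Real.exp B * (2 * D * m) * Y < A + 1) (hAN : A ≤ N)
    (α β : ℕ → ℂ) (Kb : ℝ) (hKb : ∀ j ∈ range J, ∀ ξ η : ℝ,
      ∑ p ∈ PC D, ‖PP (fun _ => 1) m A ξ p.2‖ * (‖PP (dy j α) m (2 ^ (j + 1)) η p.2‖ *
        ‖PP β m ⌊Real.exp B * x / 2 ^ j⌋₊ η p.2‖) ≤ Kb * (1 + |η|)) :
    ∑ p ∈ PC D, Real.sqrt p.1 * (‖KKm l Y N m p.2‖ * ‖TT f x M m α β p.2‖) ≤
      Real.sqrt (2 * D) * (J * (Kb * (∫ ξ, ‖F ξ‖) * ∫ η, (1 + |η|) * ‖G η‖)) := by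
  have key1 : ∀ H : ℝ → ℂ, Continuous H → Integrable (fun ξ => (1 + |ξ|) * ‖H ξ‖) →
      Integrable H := by
    intro H hc hi
    refine hi.mono' hc.aestronglyMeasurable (Filter.Eventually.of_forall fun ξ => ?_)
    have : 0 ≤ |ξ| * ‖H ξ‖ := by positivity
    linarith
  have hG1 := key1 G hGc hGi
  have hF1 := key1 F hFc hFi
  have hbl : ∀ j ∈ range J, ∑ p ∈ PC D, ‖KKm l Y N m p.2‖ * (∫ η, ‖G η‖ *
      (‖PP (dy j α) m (2 ^ (j + 1)) η p.2‖ * ‖PP β m ⌊Real.exp B * x / 2 ^ j⌋₊ η p.2‖)) ≤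
      Kb * (∫ ξ, ‖F ξ‖) * ∫ η, (1 + |η|) * ‖G η‖ := by
    intro j hj
    refine int2 (PC D) (fun p => ‖KKm l Y N m p.2‖) (fun p => ∫ η, ‖G η‖ *
      (‖PP (dy j α) m (2 ^ (j + 1)) η p.2‖ * ‖PP β m ⌊Real.exp B * x / 2 ^ j⌋₊ η p.2‖))
      (fun p ξ => ‖PP (fun _ => 1) m A ξ p.2‖)
      (fun p η => ‖PP (dy j α) m (2 ^ (j + 1)) η p.2‖ *
        ‖PP β m ⌊Real.exp B * x / 2 ^ j⌋₊ η p.2‖) (fun ξ => ‖F ξ‖) (fun η => ‖G η‖)
      hF1.norm (fun _ => norm_nonneg _) hGi hG1.norm (fun _ => norm_nonneg _)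
      (fun p _ => (PP_cont _ _ _ _).norm) (fun _ _ _ => norm_nonneg _)
      (fun p _ => PP_bdd _ _ _ _) (fun p _ => (PP_cont _ _ _ _).norm.mul (PP_cont _ _ _ _).norm)
      (fun _ _ _ => by positivity) (fun p _ => ?_) (fun p hp => ?_) (fun p _ => ?_)
      (fun p _ => le_rfl) Kb (hKb j hj)
    · obtain ⟨C1, h1⟩ := PP_bdd (dy j α) m (2 ^ (j + 1)) p.2
      obtain ⟨C2, h2⟩ := PP_bdd β m ⌊Real.exp B * x / 2 ^ j⌋₊ p.2
      exact ⟨C1 * C2, fun ξ => mul_le_mul (h1 ξ) (h2 ξ) (norm_nonneg _)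
        ((norm_nonneg _).trans (h1 ξ))⟩
    · obtain ⟨hq1, hq2, _⟩ := mem_PC hp
      refine KKm_sep hFc hF1 hlF hl Y hY N m p.1 A (by omega) hm ?_ hAN p.2
      refine lt_of_le_of_lt ?_ hA
      have : (p.1 : ℝ) ≤ 2 * D := by exact_mod_cast hq2
      have hm' : (0 : ℝ) < m := by exact_mod_cast hm
      gcongr
    · exact integral_nonneg fun η => by positivity
  calc ∑ p ∈ PC D, Real.sqrt p.1 * (‖KKm l Y N m p.2‖ * ‖TT f x M m α β p.2‖)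
      ≤ ∑ p ∈ PC D, Real.sqrt (2 * D) * (‖KKm l Y N m p.2‖ * ∑ j ∈ range J, ∫ η, ‖G η‖ *
      (‖PP (dy j α) m (2 ^ (j + 1)) η p.2‖ * ‖PP β m ⌊Real.exp B * x / 2 ^ j⌋₊ η p.2‖)) := by
        apply sum_le_sum
        intro p hp
        obtain ⟨hq1, hq2, _⟩ := mem_PC hp
        have h1 : Real.sqrt p.1 ≤ Real.sqrt (2 * D) := by
          apply Real.sqrt_le_sqrt
          exact_mod_cast hq2
        have h2 := TT_bound hGc hG1 hfG hf x hx M m J hM hJ α β p.2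
        gcongr
    _ = Real.sqrt (2 * D) * ∑ j ∈ range J, ∑ p ∈ PC D, ‖KKm l Y N m p.2‖ * (∫ η, ‖G η‖ *
      (‖PP (dy j α) m (2 ^ (j + 1)) η p.2‖ * ‖PP β m ⌊Real.exp B * x / 2 ^ j⌋₊ η p.2‖)) := by
        rw [← mul_sum]
        congr 1
        rw [sum_comm]
        apply sum_congr rfl
        intro p _
        rw [mul_sum]
    _ ≤ Real.sqrt (2 * D) * ∑ j ∈ range J, (Kb * (∫ ξ, ‖F ξ‖) * ∫ η, (1 + |η|) * ‖G η‖) := by
        apply mul_le_mul_of_nonneg_left (sum_le_sum hbl) (Real.sqrt_nonneg _)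
    _ = _ := by rw [sum_const, card_range, nsmul_eq_mul]

end H343.KF
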