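import Pool.Agent.H43.G.R_seed8.H343R2.KF3

open Finset MeasureTheory

namespace H343.KF

/-- numerical inequality for type II -/
lemma num2 (c D m Y x s e A S G : ℝ) (hc : 1 ≤ c) (hD : 0 < D) (hm : 1 ≤ m) (hY : 0 < Y)
    (hx : 0 < x) (hs : 1 ≤ s) (he : 1 ≤ e) (h1 : D * m * e ^ 20 ≤ s) (h2 : e ^ 4 ≤ D)
    (h3 : s ^ 2 ≤ x * e ^ 20) (h4 : x * Y = s ^ 2) (hA0 : 0 ≤ A) (hA : A ≤ c * D * m * Y)
    (hS0 : 0 ≤ S) (hS : S ^ 2 ≤ c ^ 2 * x) (hG0 : 0 ≤ G) (hG : G * e ^ 6 ≤ c * s ^ 2)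
    (hSG : S * G ≤ c * x) :
    e ^ 4 * (D * ((A * S + D ^ 2) * (A * S) * (G + D ^ 2) * G)) ≤
      4 * c ^ 4 * (D ^ 2 * m) ^ 2 * (s ^ 2) ^ 2 := by
  have he0 : 0 < e := by linarith
  have hs0 : 0 < s := by linarith
  -- P = A S G
  have hP : A * S * G ≤ c ^ 2 * (D * m * s ^ 2) := by
    calc A * S * G = A * (S * G) := by ring
      _ ≤ (c * D * m * Y) * (c * x) := mul_le_mul hA hSG (by positivity) (by positivity)
      _ = c ^ 2 * (D * m * (x * Y)) := by ring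
      _ = _ := by rw [h4]
  have hP0 : 0 ≤ A * S * G := by positivity
  have hD1 : D * e ^ 20 ≤ s := by
    have : D * e ^ 20 ≤ D * m * e ^ 20 := by
      have : D * 1 ≤ D * m := mul_le_mul_of_nonneg_left hm hD.le
      nlinarith [pow_pos he0 20]
    linarith
  have hYe : Y ≤ e ^ 20 := by
    have : Y * s ^ 2 ≤ e ^ 20 * s ^ 2 := by
      calc Y * s ^ 2 ≤ Y * (x * e ^ 20) := mul_le_mul_of_nonneg_left h3 hY.le
        _ = (x * Y) * e ^ 20 := by ring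
        _ = e ^ 20 * s ^ 2 := by rw [h4]; ring
    exact le_of_mul_le_mul_right this (by positivity)
  have hYS : Y * S ≤ c * s * e ^ 10 := by
    have h5 : (Y * S) ^ 2 ≤ (c * s * e ^ 10) ^ 2 := by
      calc (Y * S) ^ 2 = Y ^ 2 * S ^ 2 := by ring
        _ ≤ Y ^ 2 * (c ^ 2 * x) := mul_le_mul_of_nonneg_left hS (by positivity)
        _ = c ^ 2 * (x * Y) * Y := by ring
        _ = c ^ 2 * s ^ 2 * Y := by rw [h4]
        _ ≤ c ^ 2 * s ^ 2 * e ^ 20 := mul_le_mul_of_nonneg_left hYe (by positivity)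
        _ = (c * s * e ^ 10) ^ 2 := by ring
    exact abs_le_of_sq_le_sq' h5 (by positivity) |>.2
  have hDYS : D * (Y * S) * e ^ 4 ≤ c * s ^ 2 := by
    calc D * (Y * S) * e ^ 4 ≤ D * (c * s * e ^ 10) * e ^ 4 := by gcongr
      _ = (D * e ^ 14) * (c * s) := by ring
      _ ≤ (D * e ^ 20) * (c * s) := by
          have : e ^ 14 ≤ e ^ 20 := pow_le_pow_right₀ he (by norm_num)
          gcongr
      _ ≤ s * (c * s) := by gcongr
      _ = c * s ^ 2 := by ring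
  have hASe : A * S * e ^ 4 ≤ c ^ 2 * (m * s ^ 2) := by
    calc A * S * e ^ 4 ≤ (c * D * m * Y) * S * e ^ 4 := by gcongr
      _ = c * m * (D * (Y * S) * e ^ 4) := by ring
      _ ≤ c * m * (c * s ^ 2) := by gcongr
      _ = _ := by ring
  have hGe : G * e ^ 4 ≤ c * s ^ 2 := by
    refine le_trans ?_ hG
    have : e ^ 4 ≤ e ^ 6 := pow_le_pow_right₀ he (by norm_num)
    gcongr
  have hD2 : D ^ 2 * e ^ 4 ≤ s ^ 2 := by
    calc D ^ 2 * e ^ 4 ≤ D ^ 2 * e ^ 40 := by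
          have : e ^ 4 ≤ e ^ 40 := pow_le_pow_right₀ he (by norm_num)
          gcongr
      _ = (D * e ^ 20) ^ 2 := by ring
      _ ≤ s ^ 2 := by gcongr
  have hm0 : 0 < m := by linarith
  have e1 : e ^ 4 * (D * ((A * S + D ^ 2) * (A * S) * (G + D ^ 2) * G)) =
      e ^ 4 * D * (A * S * G) * (A * S * G) + (A * S * e ^ 4) * (D ^ 3 * (A * S * G))
      + (G * e ^ 4) * (D ^ 3 * (A * S * G)) + (D ^ 2 * e ^ 4) * (D ^ 3 * (A * S * G)) := by ring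
  rw [e1]
  have t1 : e ^ 4 * D * (A * S * G) * (A * S * G) ≤ c ^ 4 * (D ^ 2 * m) ^ 2 * (s ^ 2) ^ 2 := by
    calc e ^ 4 * D * (A * S * G) * (A * S * G)
        ≤ D * D * (c ^ 2 * (D * m * s ^ 2)) * (c ^ 2 * (D * m * s ^ 2)) := by gcongr
      _ = c ^ 4 * (D ^ 2 * m) ^ 2 * (s ^ 2) ^ 2 := by ring
  have t2 : (A * S * e ^ 4) * (D ^ 3 * (A * S * G)) ≤ c ^ 4 * (D ^ 2 * m) ^ 2 * (s ^ 2) ^ 2 := by
    calc (A * S * e ^ 4) * (D ^ 3 * (A * S * G))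
        ≤ (c ^ 2 * (m * s ^ 2)) * (D ^ 3 * (c ^ 2 * (D * m * s ^ 2))) := by gcongr
      _ = c ^ 4 * (D ^ 2 * m) ^ 2 * (s ^ 2) ^ 2 := by ring
  have hc2 : c ^ 3 ≤ c ^ 4 := pow_le_pow_right₀ hc (by norm_num)
  have hc3 : c ^ 2 ≤ c ^ 4 := pow_le_pow_right₀ hc (by norm_num)
  have t3 : (G * e ^ 4) * (D ^ 3 * (A * S * G)) ≤ c ^ 4 * (D ^ 2 * m) ^ 2 * (s ^ 2) ^ 2 := by
    calc (G * e ^ 4) * (D ^ 3 * (A * S * G))
        ≤ (c * s ^ 2) * (D ^ 3 * (c ^ 2 * (D * m * s ^ 2))) := by gcongr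
      _ = c ^ 3 * (D ^ 4 * m) * (s ^ 2) ^ 2 := by ring
      _ ≤ c ^ 4 * (D ^ 4 * m * m) * (s ^ 2) ^ 2 := by
          have : D ^ 4 * m ≤ D ^ 4 * m * m := le_mul_of_one_le_right (by positivity) hm
          gcongr
      _ = _ := by ring
  have t4 : (D ^ 2 * e ^ 4) * (D ^ 3 * (A * S * G)) ≤ c ^ 4 * (D ^ 2 * m) ^ 2 * (s ^ 2) ^ 2 := by
    calc (D ^ 2 * e ^ 4) * (D ^ 3 * (A * S * G))
        ≤ (s ^ 2) * (D ^ 3 * (c ^ 2 * (D * m * s ^ 2))) := by gcongr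
      _ = c ^ 2 * (D ^ 4 * m) * (s ^ 2) ^ 2 := by ring
      _ ≤ c ^ 4 * (D ^ 4 * m * m) * (s ^ 2) ^ 2 := by
          have : D ^ 4 * m ≤ D ^ 4 * m * m := le_mul_of_one_le_right (by positivity) hm
          gcongr
      _ = _ := by ring
  linarith

/-- numerical inequality for type I: here `Y K e^... ≤ c s` -/
lemma num1 (c D m Y s e A K : ℝ) (hc : 1 ≤ c) (hD : 0 < D) (hm : 1 ≤ m) (hY : 0 < Y)
    (hs : 1 ≤ s) (he : 1 ≤ e) (h1 : D * m * e ^ 20 ≤ s)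
    (hA0 : 0 ≤ A) (hA : A ≤ c * D * m * Y)
    (hK0 : 0 ≤ K) (hYK : Y * K ≤ c * s * e ^ 12) :
    e ^ 8 * (((A * K + D ^ 2) * (A * K))) ≤ 2 * c ^ 4 * m ^ 2 * (s ^ 2) ^ 2 := by
  have he0 : 0 < e := by linarith
  have hs0 : 0 < s := by linarith
  have hm0 : 0 < m := by linarith
  have hD1 : D * e ^ 20 ≤ s := by
    have : D * e ^ 20 ≤ D * m * e ^ 20 := by
      have : D * 1 ≤ D * m := mul_le_mul_of_nonneg_left hm hD.le
      nlinarith [pow_pos he0 20]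
    linarith
  have hAK : A * K ≤ c ^ 2 * (D * m * s * e ^ 12) := by
    calc A * K ≤ (c * D * m * Y) * K := by gcongr
      _ = c * D * m * (Y * K) := by ring
      _ ≤ c * D * m * (c * s * e ^ 12) := by gcongr
      _ = _ := by ring
  have hAK0 : 0 ≤ A * K := by positivity
  have hAKe : A * K * e ^ 8 ≤ c ^ 2 * (m * s ^ 2) := by
    calc A * K * e ^ 8 ≤ c ^ 2 * (D * m * s * e ^ 12) * e ^ 8 := by gcongr
      _ = c ^ 2 * (m * s) * (D * e ^ 20) := by ring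
      _ ≤ c ^ 2 * (m * s) * s := by gcongr
      _ = _ := by ring
  have hAK' : A * K ≤ c ^ 2 * (m * s ^ 2) := by
    refine le_trans ?_ hAKe
    have : (1 : ℝ) ≤ e ^ 8 := one_le_pow₀ he
    nlinarith
  have hD2 : D ^ 2 ≤ s ^ 2 := by
    have : D ≤ s := by
      refine le_trans ?_ hD1
      have : (1 : ℝ) ≤ e ^ 20 := one_le_pow₀ he
      nlinarith
    gcongr
  have hc3 : c ^ 2 ≤ c ^ 4 := pow_le_pow_right₀ hc (by norm_num)
  calc e ^ 8 * (((A * K + D ^ 2) * (A * K))) = (A * K * e ^ 8) * (A * K) + D ^ 2 * (A * K * e ^ 8) := by ring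
    _ ≤ (c ^ 2 * (m * s ^ 2)) * (c ^ 2 * (m * s ^ 2)) + s ^ 2 * (c ^ 2 * (m * s ^ 2)) := by gcongr
    _ = c ^ 4 * m ^ 2 * (s ^ 2) ^ 2 + c ^ 2 * m * (s ^ 2) ^ 2 := by ring
    _ ≤ c ^ 4 * m ^ 2 * (s ^ 2) ^ 2 + c ^ 4 * m ^ 2 * (s ^ 2) ^ 2 := by
        have : m ≤ m ^ 2 := by nlinarith
        gcongr
    _ = _ := by ring

end H343.KF
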