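import Pool.Agent.H43.G.R_seed8.H343R2.KF4
import Pool.Agent.H43.G.R_seed8.Helper112.TypeI

open Finset MeasureTheory

namespace H343.KF

open Pool.Agent.Helper112 (betaV LamII)
open Pool.Agent.Helper112.TI (mu1 l1 mu1_apply l1_apply vaughan)

lemma large (C a : ℝ) (k : ℕ) (ha : 0 < a) : ∃ H0 : ℝ, 1 ≤ H0 ∧ ∀ H : ℝ, H0 ≤ H →
    C * (1 + Real.log H) ^ k ≤ H ^ a := by
  have ha' : 0 < a / (2 * (k + 1)) := by positivity
  have h1 : (fun H : ℝ => Real.log H) =o[Filter.atTop] fun H => H ^ (a / (2 * (k + 1))) :=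
    isLittleO_log_rpow_atTop ha'
  have h2 : ∀ᶠ H : ℝ in Filter.atTop, ‖Real.log H‖ ≤ (1 / 2) * ‖H ^ (a / (2 * (k + 1)))‖ :=
    h1.bound (by norm_num)
  have h3 : Filter.Tendsto (fun H : ℝ => H ^ (a / 2)) Filter.atTop Filter.atTop :=
    tendsto_rpow_atTop (by positivity)
  have h3' : Filter.Tendsto (fun H : ℝ => H ^ (a / (2 * (k + 1)))) Filter.atTop Filter.atTop :=
    tendsto_rpow_atTop ha'
  obtain ⟨H1, hH1⟩ := Filter.eventually_atTop.1 (h2.and ((h3.eventually_ge_atTop (max C 0)).and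
    ((Filter.eventually_ge_atTop 1).and (h3'.eventually_ge_atTop 2))))
  refine ⟨max H1 1, le_max_right _ _, fun H hH => ?_⟩
  obtain ⟨h4, h5, h6, h6'⟩ := hH1 H ((le_max_left _ _).trans hH)
  have hlog : 0 ≤ Real.log H := Real.log_nonneg h6
  have hH0 : 0 < H := by linarith
  rw [Real.norm_of_nonneg hlog, Real.norm_of_nonneg (by positivity)] at h4
  have h4' : 1 + Real.log H ≤ H ^ (a / (2 * (k + 1))) := by linarith
  have h7 : (1 + Real.log H) ^ k ≤ H ^ (a / 2) := by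
    calc (1 + Real.log H) ^ k ≤ (H ^ (a / (2 * (k + 1)))) ^ k := by gcongr
      _ = H ^ (a / (2 * (k + 1)) * k) := by
          rw [← Real.rpow_natCast, ← Real.rpow_mul (by linarith)]
      _ ≤ H ^ (a / 2) := by
          apply Real.rpow_le_rpow_of_exponent_le h6
          rw [div_mul_eq_mul_div, div_le_div_iff₀ (by positivity) (by norm_num)]
          nlinarith
  calc C * (1 + Real.log H) ^ k ≤ max C 0 * (1 + Real.log H) ^ k := by
        gcongr; exact le_max_left _ _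
    _ ≤ H ^ (a / 2) * H ^ (a / 2) := by gcongr
    _ = H ^ a := by rw [← Real.rpow_add (by linarith)]; congr 1; ring

lemma betaV_zero {V b : ℕ} (h : b ≤ V) : betaV V b = 0 := by
  unfold betaV
  apply sum_eq_zero
  intro e he
  rw [mem_filter, Nat.mem_divisors] at he
  exfalso
  have := Nat.le_of_dvd (Nat.pos_of_ne_zero he.1.2) he.1.1
  omega

lemma betaV_le (V b : ℕ) : |betaV V b| ≤ b.divisors.card := by
  unfold betaV
  refine (abs_sum_le_sum_abs _ _).trans ?_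
  calc ∑ e ∈ b.divisors.filter (fun e => V < e), |((ArithmeticFunction.moebius e : ℤ) : ℝ)|
      ≤ ∑ e ∈ b.divisors.filter (fun e => V < e), (1 : ℝ) := by
        apply sum_le_sum
        intro e _
        exact_mod_cast ArithmeticFunction.abs_moebius_le_one
    _ = ((b.divisors.filter (fun e => V < e)).card : ℝ) := by simp
    _ ≤ b.divisors.card := by exact_mod_cast card_filter_le _ _

/-- parameters for the fixed-conductor estimate -/
structure Par (B x Y s e : ℝ) (D m A N M J U : ℕ) : Prop where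
  hx : 0 < x
  hY : 0 < Y
  he : 1 ≤ e
  hs : 1 ≤ s
  hxY : x * Y = s ^ 2
  hD : 1 ≤ D
  hm : 1 ≤ m
  h1 : (D : ℝ) * m * e ^ 20 ≤ s
  h2 : e ^ 4 ≤ D
  h3 : s ^ 2 ≤ x * e ^ 20
  h3' : x ≤ s ^ 3
  hes : e ^ 20 ≤ s
  hes2 : 2 * Real.exp |B| * e ^ 26 < s
  hA : Real.exp B * (2 * D * m) * Y < A + 1
  hA' : (A : ℝ) ≤ Real.exp B * (2 * D * m) * Y
  hAN : A ≤ N
  hM : Real.exp B * x ≤ M
  hJ : Real.exp B * x ≤ 2 ^ J
  hJ' : ∀ j < J, (2 : ℝ) ^ j ≤ Real.exp B * x + 1
  hU1 : 1 ≤ U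
  hU2 : e ^ 6 ≤ U * Y
  hU3 : (U : ℝ) ≤ 2 * max 1 (1 / Y) * e ^ 6

section
variable {B x Y s e : ℝ} {D m A N M J U : ℕ}

lemma Par.Ye (P : Par B x Y s e D m A N M J U) : Y ≤ e ^ 20 := by
  have hs := P.hs
  have : Y * s ^ 2 ≤ e ^ 20 * s ^ 2 := by
    calc Y * s ^ 2 ≤ Y * (x * e ^ 20) := mul_le_mul_of_nonneg_left P.h3 P.hY.le
      _ = (x * Y) * e ^ 20 := by ring
      _ = e ^ 20 * s ^ 2 := by rw [P.hxY]; ring
  exact le_of_mul_le_mul_right this (by positivity)

lemma Par.Ys (P : Par B x Y s e D m A N M J U) : Y ≤ s := P.Ye.trans P.hes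

lemma Par.invY (P : Par B x Y s e D m A N M J U) : 1 / Y ≤ s := by
  rw [div_le_iff₀ P.hY]
  have hs := P.hs
  have h : s ^ 2 ≤ s ^ 3 * Y := by
    rw [← P.hxY]
    exact mul_le_mul_of_nonneg_right P.h3' P.hY.le
  have h2 : s ^ 2 * 1 ≤ s ^ 2 * (s * Y) := by linarith
  exact le_of_mul_le_mul_left h2 (by positivity)

lemma Par.A_le (P : Par B x Y s e D m A N M J U) :
    (A : ℝ) ≤ 2 * Real.exp |B| * s := by
  have hD : (0 : ℝ) < D := by exact_mod_cast P.hD
  have hm : (0 : ℝ) < m := by exact_mod_cast P.hm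
  have hs := P.hs
  have he := P.he
  have hY := P.hY
  have hYe := P.Ye
  refine P.hA'.trans ?_
  have h1 : Real.exp B ≤ Real.exp |B| := Real.exp_le_exp.2 (le_abs_self B)
  calc Real.exp B * (2 * D * m) * Y ≤ Real.exp |B| * (2 * D * m) * e ^ 20 := by gcongr
    _ = 2 * Real.exp |B| * (D * m * e ^ 20) := by ring
    _ ≤ 2 * Real.exp |B| * s := by gcongr; exact P.h1

lemma Par.A_le' (P : Par B x Y s e D m A N M J U) :
    (A : ℝ) ≤ (2 * Real.exp |B|) * D * m * Y := by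
  have hD : (0 : ℝ) < D := by exact_mod_cast P.hD
  have hm : (0 : ℝ) < m := by exact_mod_cast P.hm
  have hY := P.hY
  refine P.hA'.trans ?_
  have h1 : Real.exp B ≤ Real.exp |B| := Real.exp_le_exp.2 (le_abs_self B)
  calc Real.exp B * (2 * D * m) * Y ≤ Real.exp |B| * (2 * D * m) * Y := by gcongr
    _ = _ := by ring

lemma Par.U_le (P : Par B x Y s e D m A N M J U) : (U : ℝ) ≤ 2 * s * e ^ 6 := by
  refine P.hU3.trans ?_
  have hs := P.hs
  have he := P.he
  have : max 1 (1 / Y) ≤ s := max_le hs P.invY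
  gcongr

lemma Par.YU (P : Par B x Y s e D m A N M J U) : Y * U ≤ 2 * s * e ^ 6 := by
  have hs := P.hs
  have he := P.he
  have hY := P.hY
  calc Y * U ≤ Y * (2 * max 1 (1 / Y) * e ^ 6) := mul_le_mul_of_nonneg_left P.hU3 hY.le
    _ = 2 * (Y * max 1 (1 / Y)) * e ^ 6 := by ring
    _ = 2 * max Y 1 * e ^ 6 := by
        rw [mul_max_of_nonneg _ _ hY.le, mul_one, mul_one_div_cancel hY.ne']
    _ ≤ 2 * s * e ^ 6 := by
        have : max Y 1 ≤ s := max_le P.Ys hs
        gcongr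

lemma Par.YUU (P : Par B x Y s e D m A N M J U) : Y * (U * U) ≤ 4 * s * e ^ 12 := by
  have hs := P.hs
  have he := P.he
  have hY := P.hY
  have hU0 : (0 : ℝ) ≤ U := Nat.cast_nonneg _
  calc Y * (U * U) ≤ Y * ((2 * max 1 (1 / Y) * e ^ 6) * (2 * max 1 (1 / Y) * e ^ 6)) := by
        apply mul_le_mul_of_nonneg_left _ hY.le
        exact mul_le_mul P.hU3 P.hU3 hU0 (hU0.trans P.hU3)
    _ = 4 * (Y * (max 1 (1 / Y) * max 1 (1 / Y))) * e ^ 12 := by ring
    _ ≤ 4 * s * e ^ 12 := by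
        have h1 : Y * (max 1 (1 / Y) * max 1 (1 / Y)) ≤ s := by
          rcases le_total 1 (1 / Y) with h | h
          · rw [max_eq_right h]
            have : Y * (1 / Y * (1 / Y)) = 1 / Y := by field_simp
            rw [this]; exact P.invY
          · rw [max_eq_left h]; simpa using P.Ys
        gcongr

end

end H343.KF
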