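import Pool.Agent.H43.G.R_seed8.H343R2.KF5

open Finset MeasureTheory

namespace H343.KF

open Pool.Agent.Helper112 (betaV LamII)
open Pool.Agent.Helper112.TI (mu1 l1 mu1_apply l1_apply vaughan)

lemma num2_sqrt (c D m Y x s e A S G : ℝ) (hc : 1 ≤ c) (hD : 0 < D) (hm : 1 ≤ m) (hY : 0 < Y)
    (hx : 0 < x) (hs : 1 ≤ s) (he : 1 ≤ e) (h1 : D * m * e ^ 20 ≤ s) (h2 : e ^ 4 ≤ D)
    (h3 : s ^ 2 ≤ x * e ^ 20) (h4 : x * Y = s ^ 2) (hA0 : 0 ≤ A) (hA : A ≤ c * D * m * Y)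
    (hS0 : 0 ≤ S) (hS : S ^ 2 ≤ c ^ 2 * x) (hG0 : 0 ≤ G) (hG : G * e ^ 6 ≤ c * s ^ 2)
    (hSG : S * G ≤ c * x) :
    e ^ 2 * Real.sqrt D * Real.sqrt ((A * S + D ^ 2) * (A * S) * (G + D ^ 2) * G) ≤
      2 * c ^ 2 * (D ^ 2 * m * s ^ 2) := by
  have h := num2 c D m Y x s e A S G hc hD hm hY hx hs he h1 h2 h3 h4 hA0 hA hS0 hS hG0 hG hSG
  have h5 : (e ^ 2 * Real.sqrt D * Real.sqrt ((A * S + D ^ 2) * (A * S) * (G + D ^ 2) * G)) ^ 2 ≤
      (2 * c ^ 2 * (D ^ 2 * m * s ^ 2)) ^ 2 := by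
    rw [mul_pow, mul_pow, Real.sq_sqrt hD.le, Real.sq_sqrt (by positivity)]
    calc (e ^ 2) ^ 2 * D * ((A * S + D ^ 2) * (A * S) * (G + D ^ 2) * G) =
        e ^ 4 * (D * ((A * S + D ^ 2) * (A * S) * (G + D ^ 2) * G)) := by ring
      _ ≤ _ := h
      _ = _ := by ring
  exact abs_le_of_sq_le_sq' h5 (by positivity) |>.2

lemma num1_sqrt (c D m Y s e A K : ℝ) (hc : 1 ≤ c) (hD : 0 < D) (hm : 1 ≤ m) (hY : 0 < Y)
    (hs : 1 ≤ s) (he : 1 ≤ e) (h1 : D * m * e ^ 20 ≤ s)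
    (hA0 : 0 ≤ A) (hA : A ≤ c * D * m * Y)
    (hK0 : 0 ≤ K) (hYK : Y * K ≤ c * s * e ^ 12) :
    e ^ 4 * Real.sqrt ((A * K + D ^ 2) * (A * K)) ≤ 2 * c ^ 2 * (m * s ^ 2) := by
  have h := num1 c D m Y s e A K hc hD hm hY hs he h1 hA0 hA hK0 hYK
  have h5 : (e ^ 4 * Real.sqrt ((A * K + D ^ 2) * (A * K))) ^ 2 ≤
      (2 * c ^ 2 * (m * s ^ 2)) ^ 2 := by
    rw [mul_pow, Real.sq_sqrt (by positivity)]
    calc (e ^ 4) ^ 2 * ((A * K + D ^ 2) * (A * K)) =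
        e ^ 8 * ((A * K + D ^ 2) * (A * K)) := by ring
      _ ≤ _ := h
      _ ≤ 4 * c ^ 4 * m ^ 2 * (s ^ 2) ^ 2 := by
          have : 0 ≤ c ^ 4 * m ^ 2 * (s ^ 2) ^ 2 := by positivity
          linarith
      _ = _ := by ring
  exact abs_le_of_sq_le_sq' h5 (by positivity) |>.2

/-- von Mangoldt above `U` -/
noncomputable def LU (U n : ℕ) : ℂ :=
  ((if U < n then ArithmeticFunction.vonMangoldt n else 0 : ℝ) : ℂ)

lemma LU_zero {U n : ℕ} (h : n ≤ U) : LU U n = 0 := by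
  unfold LU
  rw [if_neg (by omega)]; simp

lemma LU_norm (U : ℕ) {n L : ℕ} (hn : 1 ≤ n) (hL : n ≤ L) : ‖LU U n‖ ≤ Real.log L := by
  have hlog : 0 ≤ Real.log L := Real.log_natCast_nonneg L
  unfold LU
  rw [Complex.norm_real]
  split_ifs
  · rw [Real.norm_of_nonneg ArithmeticFunction.vonMangoldt_nonneg]
    refine ArithmeticFunction.vonMangoldt_le_log.trans ?_
    apply Real.log_le_log (by exact_mod_cast hn)
    exact_mod_cast hL
  · simpa using hlog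

section
variable {B x Y s e : ℝ} {D m A N M J U : ℕ}

lemma Par.K_le (P : Par B x Y s e D m A N M J U) {j : ℕ} (hj : j < J) :
    ((2 ^ (j + 1) : ℕ) : ℝ) ≤ 4 * Real.exp |B| * s ^ 3 := by
  have h1 := P.hJ' j hj
  have h2 := P.h3'
  have h3 : Real.exp B ≤ Real.exp |B| := Real.exp_le_exp.2 (le_abs_self B)
  have h4 : 1 ≤ Real.exp |B| := Real.one_le_exp (abs_nonneg B)
  have hs := P.hs
  have hx := P.hx
  push_cast
  calc (2 : ℝ) ^ (j + 1) = 2 * 2 ^ j := by ring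
    _ ≤ 2 * (Real.exp B * x + 1) := by gcongr
    _ ≤ 2 * (Real.exp |B| * s ^ 3 + Real.exp |B| * s ^ 3) := by
        have : Real.exp B * x ≤ Real.exp |B| * s ^ 3 := by gcongr
        have h5 : 1 ≤ s ^ 3 := one_le_pow₀ hs
        have : 1 ≤ Real.exp |B| * s ^ 3 := by nlinarith
        gcongr
    _ = _ := by ring

lemma Par.L_le (P : Par B x Y s e D m A N M J U) (j : ℕ) :
    ((⌊Real.exp B * x / 2 ^ j⌋₊ : ℕ) : ℝ) ≤ Real.exp B * x / 2 ^ j := by
  have hx := P.hx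
  exact Nat.floor_le (by positivity)

lemma Par.L_le' (P : Par B x Y s e D m A N M J U) (j : ℕ) :
    ((⌊Real.exp B * x / 2 ^ j⌋₊ : ℕ) : ℝ) ≤ Real.exp |B| * s ^ 3 := by
  have hx := P.hx
  refine (P.L_le j).trans ?_
  have h3 : Real.exp B ≤ Real.exp |B| := Real.exp_le_exp.2 (le_abs_self B)
  have h2 := P.h3'
  calc Real.exp B * x / 2 ^ j ≤ Real.exp B * x / 1 := by
        have : (1 : ℝ) ≤ 2 ^ j := one_le_pow₀ (by norm_num)
        gcongr
    _ ≤ Real.exp |B| * s ^ 3 := by rw [div_one]; gcongr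

lemma Par.logL (P : Par B x Y s e D m A N M J U) (j : ℕ) :
    Real.log (⌊Real.exp B * x / 2 ^ j⌋₊ : ℕ) ≤ (|B| + 3) * (1 + Real.log s) := by
  have hs := P.hs
  have hls : 0 ≤ Real.log s := Real.log_nonneg hs
  have hB := abs_nonneg B
  rcases Nat.eq_zero_or_pos ⌊Real.exp B * x / 2 ^ j⌋₊ with h0 | h0
  · rw [h0]; simp only [Nat.cast_zero, Real.log_zero]; positivity
  · have h1 := P.L_le' j
    have h2 : Real.log (⌊Real.exp B * x / 2 ^ j⌋₊ : ℕ) ≤ Real.log (Real.exp |B| * s ^ 3) :=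
      Real.log_le_log (by exact_mod_cast h0) h1
    rw [Real.log_mul (Real.exp_pos _).ne' (by positivity), Real.log_exp, Real.log_pow] at h2
    push_cast at h2
    nlinarith

end

/-- type II blocks -/
lemma blockII (B δ : ℝ) (hδ : 0 < δ) : ∃ C : ℝ, 0 < C ∧ ∀ (x Y s e : ℝ) (D m A N M J U : ℕ),
    Par B x Y s e D m A N M J U → ∀ j ∈ range J, ∀ ξ η : ℝ,
    e ^ 2 * Real.sqrt D * ∑ p ∈ PC D, ‖PP (fun _ => 1) m A ξ p.2‖ *
      (‖PP (dy j (fun n => (betaV U n : ℂ))) m (2 ^ (j + 1)) η p.2‖ *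
        ‖PP (LU U) m ⌊Real.exp B * x / 2 ^ j⌋₊ η p.2‖) ≤
      C * ((1 + Real.log s) * s ^ (7 * δ)) * (D ^ 2 * m * s ^ 2) := by
  obtain ⟨C1, hC1, hdiv⟩ := div_bound δ hδ
  obtain ⟨C2, hC2, hls⟩ := ls3_PC' δ hδ
  set c : ℝ := 4 * Real.exp |B| with hc
  have hB1 : 1 ≤ Real.exp |B| := Real.one_le_exp (abs_nonneg B)
  have hc1 : 1 ≤ c := by rw [hc]; linarith
  have hBB : Real.exp B ≤ Real.exp |B| := Real.exp_le_exp.2 (le_abs_self B)
  refine ⟨C2 * (C1 * (c) ^ δ) * (|B| + 3) * (c * c) ^ δ * (2 * c ^ 2), by positivity, ?_⟩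
  intro x Y s e D m A N M J U P j hj ξ η
  rw [mem_range] at hj
  have hs := P.hs
  have he := P.he
  have hx := P.hx
  have hY := P.hY
  have hls0 : 0 ≤ Real.log s := Real.log_nonneg hs
  have hD1 : (1 : ℝ) ≤ D := by exact_mod_cast P.hD
  have hD0 : (0 : ℝ) < D := by linarith
  have hm1 : (1 : ℝ) ≤ m := by exact_mod_cast P.hm
  set K : ℕ := 2 ^ (j + 1) with hK
  set L : ℕ := ⌊Real.exp B * x / 2 ^ j⌋₊ with hL
  have hR : 0 ≤ C2 * (C1 * (c) ^ δ) * (|B| + 3) * (c * c) ^ δ * (2 * c ^ 2) *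
      ((1 + Real.log s) * s ^ (7 * δ)) * (D ^ 2 * m * s ^ 2) := by
    have := abs_nonneg B
    positivity
  -- trivial cases
  by_cases hU1 : K ≤ U
  · refine le_trans (le_of_eq ?_) hR
    rw [sum_eq_zero, mul_zero]
    intro p _
    have : PP (dy j (fun n => (betaV U n : ℂ))) m K η p.2 = 0 := by
      unfold PP
      apply sum_eq_zero
      intro k hk
      rw [mem_Icc] at hk
      unfold tw dy
      beta_reduce
      rw [betaV_zero (hk.2.trans hU1)]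
      simp
    rw [this]; simp
  by_cases hU2 : L ≤ U
  · refine le_trans (le_of_eq ?_) hR
    rw [sum_eq_zero, mul_zero]
    intro p _
    have : PP (LU U) m L η p.2 = 0 := by
      unfold PP
      apply sum_eq_zero
      intro k hk
      rw [mem_Icc] at hk
      unfold tw
      rw [LU_zero (hk.2.trans hU2)]
      simp
    rw [this]; simp
  push Not at hU1 hU2
  have hK0 : (0 : ℝ) < K := by rw [hK]; positivity
  have hKs : (K : ℝ) ≤ c * s ^ 3 := by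
    have := P.K_le hj
    rw [hc]; exact this
  have hLs : (L : ℝ) ≤ c * s ^ 3 := by
    have := P.L_le' j
    rw [hc]
    refine this.trans ?_
    have : 0 < s ^ 3 := by positivity
    nlinarith
  have hL1 : (L : ℝ) ≤ Real.exp B * x / 2 ^ j := P.L_le j
  have hAs : (A : ℝ) ≤ c * s := by
    have := P.A_le
    rw [hc]
    refine this.trans ?_
    nlinarith
  have hAc : (A : ℝ) ≤ c * D * m * Y := by
    refine P.A_le'.trans ?_
    rw [hc]
    gcongr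
    norm_num
  have hA0 : (0 : ℝ) ≤ A := Nat.cast_nonneg _
  have hKj : (K : ℝ) = 2 * 2 ^ j := by rw [hK]; push_cast; ring
  have hj0 : (0 : ℝ) < 2 ^ j := by positivity
  have hUK : (U : ℝ) ≤ K := by exact_mod_cast hU1.le
  have hUL : (U : ℝ) ≤ L := by exact_mod_cast hU2.le
  have hKL : (K : ℝ) * L ≤ c * x := by
    rw [hKj]
    calc 2 * 2 ^ j * (L : ℝ) ≤ 2 * 2 ^ j * (Real.exp B * x / 2 ^ j) := by gcongr
      _ = 2 * Real.exp B * x := by field_simp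
      _ ≤ c * x := by rw [hc]; gcongr; norm_num
  have hLe : (L : ℝ) * e ^ 6 ≤ c * s ^ 2 := by
    calc (L : ℝ) * e ^ 6 ≤ L * (U * Y) := by gcongr; exact P.hU2
      _ ≤ L * (K * Y) := by gcongr
      _ = (K * L) * Y := by ring
      _ ≤ (c * x) * Y := by gcongr
      _ = c * s ^ 2 := by rw [← P.hxY]; ring
  have hKe : (K : ℝ) * e ^ 6 ≤ c * s ^ 2 := by
    calc (K : ℝ) * e ^ 6 ≤ K * (U * Y) := by gcongr; exact P.hU2
      _ ≤ K * (L * Y) := by gcongr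
      _ = (K * L) * Y := by ring
      _ ≤ (c * x) * Y := by gcongr
      _ = c * s ^ 2 := by rw [← P.hxY]; ring
  -- coefficient bounds
  have hα : ∀ n ∈ Icc 1 K, ‖dy j (fun n => (betaV U n : ℂ)) n‖ ≤ C1 * (c * s ^ 3) ^ δ := by
    intro n hn
    rw [mem_Icc] at hn
    refine (dy_norm _ _ _).trans ?_
    simp only [Complex.norm_real, Real.norm_eq_abs]
    refine (betaV_le U n).trans ((hdiv n hn.1).trans ?_)
    have : (n : ℝ) ≤ K := by exact_mod_cast hn.2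
    have : (n : ℝ) ≤ c * s ^ 3 := this.trans hKs
    gcongr
  have hβ : ∀ n ∈ Icc 1 L, ‖LU U n‖ ≤ (|B| + 3) * (1 + Real.log s) := by
    intro n hn
    rw [mem_Icc] at hn
    exact (LU_norm U hn.1 hn.2).trans (P.logL j)
  have hb0 : 0 ≤ C1 * (c * s ^ 3) ^ δ := by positivity
  have hc0 : 0 ≤ (|B| + 3) * (1 + Real.log s) := by
    have := abs_nonneg B
    positivity
  -- final assembly, given the numerical bound
  have fin : ∀ S G : ℕ, (S : ℝ) ≤ c * s ^ 3 → e ^ 2 * Real.sqrt D *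
      Real.sqrt (((A * S : ℝ) + (D : ℝ) ^ 2) * (A * S) * ((G : ℝ) + (D : ℝ) ^ 2) * G) ≤
      2 * c ^ 2 * (D ^ 2 * m * s ^ 2) →
      e ^ 2 * Real.sqrt D * (C2 * (C1 * (c * s ^ 3) ^ δ) * ((|B| + 3) * (1 + Real.log s)) *
        ((A * S : ℕ) : ℝ) ^ δ *
        Real.sqrt (((A * S : ℝ) + (D : ℝ) ^ 2) * (A * S) * ((G : ℝ) + (D : ℝ) ^ 2) * G)) ≤
      C2 * (C1 * (c) ^ δ) * (|B| + 3) * (c * c) ^ δ * (2 * c ^ 2) *
        ((1 + Real.log s) * s ^ (7 * δ)) * (D ^ 2 * m * s ^ 2) := by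
    intro S G hS hnum
    have h1 : ((A * S : ℕ) : ℝ) ^ δ ≤ (c * c) ^ δ * s ^ (4 * δ) := by
      push_cast
      calc ((A : ℝ) * S) ^ δ ≤ ((c * s) * (c * s ^ 3)) ^ δ := by gcongr
        _ = ((c * c) * s ^ (4 : ℝ)) ^ δ := by
            congr 1
            rw [show (4 : ℝ) = ((4 : ℕ) : ℝ) by norm_num, Real.rpow_natCast]
            ring
        _ = (c * c) ^ δ * s ^ (4 * δ) := by
            rw [Real.mul_rpow (by positivity) (by positivity), ← Real.rpow_mul (by linarith)]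
    have h2 : (c * s ^ 3) ^ δ = c ^ δ * s ^ (3 * δ) := by
      rw [Real.mul_rpow (by positivity) (by positivity)]
      congr 1
      rw [show (s ^ 3 : ℝ) = s ^ (3 : ℝ) by
        rw [show (3 : ℝ) = ((3 : ℕ) : ℝ) by norm_num, Real.rpow_natCast]]
      rw [← Real.rpow_mul (by linarith)]
    have h3 : s ^ (7 * δ) = s ^ (3 * δ) * s ^ (4 * δ) := by
      rw [← Real.rpow_add (by linarith)]; congr 1; ring
    have hBp := abs_nonneg B
    calc e ^ 2 * Real.sqrt D * (C2 * (C1 * (c * s ^ 3) ^ δ) * ((|B| + 3) * (1 + Real.log s)) *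
        ((A * S : ℕ) : ℝ) ^ δ *
        Real.sqrt (((A * S : ℝ) + (D : ℝ) ^ 2) * (A * S) * ((G : ℝ) + (D : ℝ) ^ 2) * G))
        = (C2 * (C1 * (c * s ^ 3) ^ δ) * ((|B| + 3) * (1 + Real.log s)) *
        ((A * S : ℕ) : ℝ) ^ δ) * (e ^ 2 * Real.sqrt D *
        Real.sqrt (((A * S : ℝ) + (D : ℝ) ^ 2) * (A * S) * ((G : ℝ) + (D : ℝ) ^ 2) * G)) := by
          ring
      _ ≤ (C2 * (C1 * (c ^ δ * s ^ (3 * δ))) * ((|B| + 3) * (1 + Real.log s)) *
        ((c * c) ^ δ * s ^ (4 * δ))) * (2 * c ^ 2 * (D ^ 2 * m * s ^ 2)) := by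
          rw [h2]
          gcongr
      _ = _ := by rw [h3]; ring
  rcases le_total (((2 : ℝ) ^ j) ^ 2) x with hcase | hcase
  · have hnum := num2_sqrt c D m Y x s e A K L hc1 hD0 hm1 hY hx hs he P.h1 P.h2 P.h3 P.hxY
      hA0 hAc hK0.le (by
        rw [hKj]
        calc (2 * (2 : ℝ) ^ j) ^ 2 = 4 * ((2 : ℝ) ^ j) ^ 2 := by ring
          _ ≤ 4 * x := by gcongr
          _ ≤ c ^ 2 * x := by
              have : (4 : ℝ) ≤ c ^ 2 := by rw [hc]; nlinarith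
              gcongr) (Nat.cast_nonneg _) hLe hKL
    refine le_trans ?_ (fin K L hKs hnum)
    gcongr
    exact hls D A K L m _ _ _ _ P.hD hb0 hc0 hα hβ ξ η
  · have hnum := num2_sqrt c D m Y x s e A L K hc1 hD0 hm1 hY hx hs he P.h1 P.h2 P.h3 P.hxY
      hA0 hAc (Nat.cast_nonneg _) (by
        calc (L : ℝ) ^ 2 ≤ (Real.exp B * x / 2 ^ j) ^ 2 := by gcongr
          _ = Real.exp B ^ 2 * x * (x / ((2 : ℝ) ^ j) ^ 2) := by ring
          _ ≤ Real.exp B ^ 2 * x * 1 := by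
              gcongr
              rw [div_le_one (by positivity)]
              exact hcase
          _ ≤ c ^ 2 * x := by
              rw [mul_one, hc]
              gcongr
              linarith) hK0.le hKe (by rw [mul_comm]; exact hKL)
    refine le_trans ?_ (fin L K hLs hnum)
    gcongr
    have := hls D A L K m _ _ _ _ P.hD hc0 hb0 hβ hα ξ η
    calc ∑ p ∈ PC D, ‖PP (fun _ => 1) m A ξ p.2‖ *
      (‖PP (dy j (fun n => (betaV U n : ℂ))) m K η p.2‖ * ‖PP (LU U) m L η p.2‖)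
        = ∑ p ∈ PC D, ‖PP (fun _ => 1) m A ξ p.2‖ *
      (‖PP (LU U) m L η p.2‖ * ‖PP (dy j (fun n => (betaV U n : ℂ))) m K η p.2‖) := by
          apply sum_congr rfl; intro p _; ring
      _ ≤ _ := this
      _ = _ := by ring

end H343.KF
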