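import Pool.Agent.H43.G.R_seed8.H343R2.KF6

open Finset MeasureTheory

namespace H343.KF

open Pool.Agent.Helper112 (betaV LamII)
open Pool.Agent.Helper112.TI (mu1 l1 mu1_apply l1_apply vaughan)

lemma hasDerivAt_ex (u : ℝ) : HasDerivAt ex (2 * Real.pi * Complex.I * ex u) u := by
  unfold ex
  have h1 : HasDerivAt (fun x : ℝ => ((2 * Real.pi * x : ℝ) : ℂ) * Complex.I)
      ((2 * Real.pi : ℝ) * Complex.I) u := by
    have : HasDerivAt (fun x : ℝ => (2 * Real.pi * x : ℝ)) (2 * Real.pi) u := by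
      simpa using (hasDerivAt_id u).const_mul (2 * Real.pi)
    exact this.ofReal_comp.mul_const Complex.I
  have h2 := h1.cexp
  convert h2 using 1
  push_cast
  ring

lemma contDiff_ex : ContDiff ℝ 1 ex := by
  unfold ex
  apply ContDiff.cexp
  apply ContDiff.mul _ contDiff_const
  exact Complex.ofRealCLM.contDiff.comp (contDiff_const.mul contDiff_id)

/-- weights for type I sums -/
noncomputable def w1 (i : ℕ) (η t : ℝ) : ℂ := ((Real.log t) ^ i : ℝ) * ex (η * Real.log t)

noncomputable def w1' (i : ℕ) (η t : ℝ) : ℂ :=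
  ((i * (Real.log t) ^ (i - 1) * t⁻¹ : ℝ) : ℂ) * ex (η * Real.log t) +
    ((Real.log t) ^ i : ℝ) * ((η * t⁻¹ : ℝ) * (2 * Real.pi * Complex.I * ex (η * Real.log t)))

lemma w1_deriv (i : ℕ) (η t : ℝ) (ht : t ≠ 0) : HasDerivAt (w1 i η) (w1' i η t) t := by
  unfold w1 w1'
  have h1 : HasDerivAt (fun t => (Real.log t) ^ i) (i * (Real.log t) ^ (i - 1) * t⁻¹) t :=
    (Real.hasDerivAt_log ht).pow i
  have h2 : HasDerivAt (fun t => η * Real.log t) (η * t⁻¹) t :=
    (Real.hasDerivAt_log ht).const_mul η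
  have h3 : HasDerivAt (fun t => ex (η * Real.log t))
      ((η * t⁻¹ : ℝ) * (2 * Real.pi * Complex.I * ex (η * Real.log t))) t := by
    have := (hasDerivAt_ex (η * Real.log t)).scomp t h2
    simpa [Function.comp_def] using this
  exact h1.ofReal_comp.mul h3

lemma w1_bound (i : ℕ) (hi : i ≤ 1) (η t L : ℝ) (ht : 1 ≤ t) (htL : t ≤ L) :
    ‖w1' i η t‖ ≤ ((1 + 2 * Real.pi * |η|) * (1 + Real.log L)) * t⁻¹ := by
  have hlt : 0 ≤ Real.log t := Real.log_nonneg ht
  have hlL : Real.log t ≤ Real.log L := Real.log_le_log (by linarith) htL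
  have ht0 : 0 < t⁻¹ := by positivity
  have hπ := Real.pi_pos
  have hη := abs_nonneg η
  unfold w1'
  refine (norm_add_le _ _).trans ?_
  rw [norm_mul, norm_mul, norm_mul, norm_mul, norm_mul, norm_mul, norm_ex, Complex.norm_I,
    Complex.norm_real, Complex.norm_real, Complex.norm_real, Complex.norm_real]
  simp only [Complex.norm_ofNat, Real.norm_eq_abs, mul_one]
  rw [abs_of_pos hπ, abs_mul _ t⁻¹, abs_of_pos ht0, abs_mul η, abs_of_pos ht0, abs_mul]
  interval_cases i
  · simp only [Nat.cast_zero, zero_mul, abs_zero, pow_zero, abs_one, zero_add, one_mul]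
    have : |η| * t⁻¹ * (2 * Real.pi) = (2 * Real.pi * |η|) * t⁻¹ := by ring
    rw [this]
    apply mul_le_mul_of_nonneg_right _ ht0.le
    have : 0 ≤ 2 * Real.pi * |η| := by positivity
    have hlL' : 0 ≤ Real.log L := hlt.trans hlL
    nlinarith
  · simp only [Nat.cast_one, Nat.sub_self, pow_zero, one_mul, pow_one, abs_one]
    rw [abs_of_nonneg hlt]
    have : t⁻¹ + Real.log t * (|η| * t⁻¹ * (2 * Real.pi)) =
      (1 + 2 * Real.pi * |η| * Real.log t) * t⁻¹ := by ring
    rw [this]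
    apply mul_le_mul_of_nonneg_right _ ht0.le
    have h1 : 0 ≤ 2 * Real.pi * |η| := by positivity
    have h2 : 2 * Real.pi * |η| * Real.log t ≤ 2 * Real.pi * |η| * Real.log L := by gcongr
    nlinarith

lemma w1'_cont (i : ℕ) (η : ℝ) (L : ℝ) (hL : 1 ≤ L) :
    ContinuousOn (w1' i η) (Set.uIcc 1 L) := by
  have hne : ∀ t ∈ Set.uIcc (1 : ℝ) L, t ≠ 0 := by
    intro t ht
    rw [Set.uIcc_of_le hL] at ht
    have := ht.1
    linarith [this]
  have hlog : ContinuousOn Real.log (Set.uIcc 1 L) := Real.continuousOn_log.mono (fun t ht => hne t ht)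
  have hinv : ContinuousOn (fun t : ℝ => t⁻¹) (Set.uIcc 1 L) := continuousOn_inv₀.mono (fun t ht => hne t ht)
  have hex : ContinuousOn (fun t : ℝ => ex (η * Real.log t)) (Set.uIcc 1 L) :=
    ex_cont.comp_continuousOn (continuousOn_const.mul hlog)
  unfold w1'
  apply ContinuousOn.add
  · apply ContinuousOn.mul _ hex
    exact Complex.continuous_ofReal.comp_continuousOn
      ((continuousOn_const.mul (hlog.pow _)).mul hinv)
  · apply ContinuousOn.mul
    · exact Complex.continuous_ofReal.comp_continuousOn (hlog.pow _)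
    · apply ContinuousOn.mul
      · exact Complex.continuous_ofReal.comp_continuousOn (continuousOn_const.mul hinv)
      · exact continuousOn_const.mul hex

lemma w1_V (i : ℕ) (hi : i ≤ 1) (η : ℝ) (L : ℕ) (hL : 1 ≤ L) :
    ‖w1 i η L‖ + ∫ t in ((1 : ℕ) : ℝ)..L, ‖deriv (w1 i η) t‖ ≤
      7 * (1 + |η|) * (1 + Real.log L) ^ 2 := by
  have hL' : (1 : ℝ) ≤ L := by exact_mod_cast hL
  have hlL : 0 ≤ Real.log L := Real.log_nonneg hL'
  have hη := abs_nonneg η
  have hπ := Real.pi_pos
  have h0 : ‖w1 i η L‖ ≤ 1 + Real.log L := by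
    unfold w1
    rw [norm_mul, norm_ex, mul_one, Complex.norm_real, Real.norm_eq_abs]
    interval_cases i
    · simp; exact hlL
    · rw [pow_one, abs_of_nonneg hlL]; linarith
  have h1 : ∫ t in ((1 : ℕ) : ℝ)..L, ‖deriv (w1 i η) t‖ ≤
      ∫ t in (1 : ℝ)..L, ((1 + 2 * Real.pi * |η|) * (1 + Real.log L)) * t⁻¹ := by
    rw [Nat.cast_one]
    have e1 : ∫ t in (1 : ℝ)..L, ‖deriv (w1 i η) t‖ = ∫ t in (1 : ℝ)..L, ‖w1' i η t‖ := by
      apply intervalIntegral.integral_congr
      intro t ht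
      rw [Set.uIcc_of_le hL'] at ht
      beta_reduce
      rw [(w1_deriv i η t (by linarith [ht.1])).deriv]
    rw [e1]
    apply intervalIntegral.integral_mono_on hL'
    · exact ((w1'_cont i η L hL').norm).intervalIntegrable
    · apply ContinuousOn.intervalIntegrable
      apply continuousOn_const.mul
      apply continuousOn_inv₀.mono
      intro t ht
      rw [Set.uIcc_of_le hL'] at ht
      have := ht.1
      simp only [Set.mem_compl_iff, Set.mem_singleton_iff]
      linarith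
    · intro t ht
      exact w1_bound i hi η t L ht.1 ht.2
  have h2 : ∫ t in (1 : ℝ)..L, ((1 + 2 * Real.pi * |η|) * (1 + Real.log L)) * t⁻¹ =
      ((1 + 2 * Real.pi * |η|) * (1 + Real.log L)) * Real.log L := by
    rw [intervalIntegral.integral_const_mul, integral_inv_of_pos one_pos (by linarith), div_one]
  rw [h2] at h1
  have h3 : 2 * Real.pi ≤ 7 := by have := Real.pi_lt_d2; linarith
  calc ‖w1 i η L‖ + ∫ t in ((1 : ℕ) : ℝ)..L, ‖deriv (w1 i η) t‖
      ≤ (1 + Real.log L) + ((1 + 2 * Real.pi * |η|) * (1 + Real.log L)) * Real.log L := by linarith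
    _ ≤ (1 + 2 * Real.pi * |η|) * (1 + Real.log L) ^ 2 := by
        have : 0 ≤ 2 * Real.pi * |η| * (1 + Real.log L) := by positivity
        nlinarith
    _ ≤ (7 * (1 + |η|)) * (1 + Real.log L) ^ 2 := by
        have : 2 * Real.pi * |η| ≤ 7 * |η| := by gcongr
        gcongr
        linarith
    _ = _ := by ring

/-- Polya-Vinogradov for the smooth coefficients -/
lemma PP_smooth (i : ℕ) (hi : i ≤ 1) (η : ℝ) (m L q : ℕ) (hm : 1 ≤ m) (hq : 2 ≤ q)
    (χ : DirichletCharacter ℂ q) (hχ : χ.IsPrimitive) :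
    ‖PP (fun n => (((Real.log n) ^ i : ℝ) : ℂ)) m L η χ‖ ≤
      2 * (7 * (1 + |η|) * (1 + Real.log L) ^ 2) *
        (m.divisors.card * (2 * Real.sqrt q * (1 + Real.log q))) := by
  have hq0 : 0 ≤ Real.log q := Real.log_natCast_nonneg q
  rcases Nat.eq_zero_or_pos L with hL | hL
  · subst hL
    simp only [PP]
    rw [Icc_eq_empty (by norm_num), sum_empty, norm_zero]
    positivity
  have hL' : (1 : ℝ) ≤ L := by exact_mod_cast hL
  have h := PV_weight q m 1 L hq hm le_rfl hL χ hχ (w1 i η) (by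
    unfold w1
    have hne : ∀ t ∈ Set.Icc ((1 : ℕ) : ℝ) L, t ≠ 0 := by
      intro t ht
      have := ht.1
      rw [Nat.cast_one] at this
      linarith
    have hlog : ContDiffOn ℝ 1 Real.log (Set.Icc ((1 : ℕ) : ℝ) L) :=
      Real.contDiffOn_log.mono (fun t ht => hne t ht)
    apply ContDiffOn.mul
    · exact Complex.ofRealCLM.contDiff.comp_contDiffOn (hlog.pow i)
    · exact contDiff_ex.comp_contDiffOn (contDiffOn_const.mul hlog)) _ (w1_V i hi η L hL)
  refine le_trans (le_of_eq ?_) h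
  congr 1
  unfold PP
  rw [sum_filter]
  apply sum_congr rfl
  intro n _
  unfold tw w1
  split_ifs
  · ring
  · simp

end H343.KF
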