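import Pool.Agent.H43.G.R_seed8.H343R2.KF7

open Finset MeasureTheory

namespace H343.KF

open Pool.Agent.Helper112 (betaV LamII)
open Pool.Agent.Helper112.TI (mu1 l1 mu1_apply l1_apply vaughan)

section
variable {B x Y s e : ℝ} {D m A N M J U : ℕ}

lemma Par.J_le (P : Par B x Y s e D m A N M J U) : (J : ℝ) ≤ (2 * |B| + 8) * (1 + Real.log s) := by
  have hs := P.hs
  have hls : 0 ≤ Real.log s := Real.log_nonneg hs
  have hB := abs_nonneg B
  rcases Nat.eq_zero_or_pos J with h0 | h0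
  · rw [h0]; simp only [Nat.cast_zero]; positivity
  · have h1 := P.K_le (j := J - 1) (by omega)
    have h1' : (2 : ℝ) ^ J ≤ 4 * Real.exp |B| * s ^ 3 := by
      have : J - 1 + 1 = J := by omega
      rw [this] at h1
      exact_mod_cast h1
    have h2 : Real.log ((2 : ℝ) ^ J) ≤ Real.log (4 * Real.exp |B| * s ^ 3) :=
      Real.log_le_log (by positivity) h1'
    rw [Real.log_mul (by positivity) (by positivity), Real.log_mul (by norm_num)
      (Real.exp_pos _).ne', Real.log_exp, Real.log_pow, Real.log_pow] at h2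
    have h3 : Real.log 4 = 2 * Real.log 2 := by
      rw [show (4 : ℝ) = 2 ^ 2 by norm_num, Real.log_pow]; norm_num
    rw [h3] at h2
    push_cast at h2
    have h4 := Real.log_two_gt_d9
    have h5 := Real.log_two_lt_d9
    have hJ1 : (1 : ℝ) ≤ J := by exact_mod_cast h0
    nlinarith

lemma Par.m_le (P : Par B x Y s e D m A N M J U) : (m : ℝ) ≤ s := by
  refine le_trans ?_ P.h1
  have hD : (1 : ℝ) ≤ D := by exact_mod_cast P.hD
  have hm : (0 : ℝ) ≤ m := Nat.cast_nonneg m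
  have he : 1 ≤ e ^ 20 := one_le_pow₀ P.he
  calc (m : ℝ) = 1 * m * 1 := by ring
    _ ≤ D * m * e ^ 20 := by gcongr

lemma Par.D_le (P : Par B x Y s e D m A N M J U) : (D : ℝ) ≤ s := by
  refine le_trans ?_ P.h1
  have hm : (1 : ℝ) ≤ m := by exact_mod_cast P.hm
  have hD : (0 : ℝ) ≤ D := Nat.cast_nonneg D
  have he : 1 ≤ e ^ 20 := one_le_pow₀ P.he
  calc (D : ℝ) = D * 1 * 1 := by ring
    _ ≤ D * m * e ^ 20 := by gcongr

end

/-- type I blocks -/
lemma blockI (B δ : ℝ) (hδ : 0 < δ) : ∃ C : ℝ, 0 < C ∧ ∀ (x Y s e : ℝ) (D m A N M J U : ℕ),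
    Par B x Y s e D m A N M J U → ∀ (i W : ℕ) (α : ℕ → ℂ), i ≤ 1 → (∀ n, W < n → α n = 0) →
    Y * W ≤ 4 * s * e ^ 12 → (∀ n, 1 ≤ n → ‖α n‖ ≤ 1 + Real.log n) → ∀ j ∈ range J, ∀ ξ η : ℝ,
    e ^ 2 * Real.sqrt D * ∑ p ∈ PC D, ‖PP (fun _ => 1) m A ξ p.2‖ *
      (‖PP (dy j α) m (2 ^ (j + 1)) η p.2‖ *
        ‖PP (fun n => (((Real.log n) ^ i : ℝ) : ℂ)) m ⌊Real.exp B * x / 2 ^ j⌋₊ η p.2‖) ≤
      C * ((1 + Real.log s) ^ 4 * s ^ (7 * δ)) * (D ^ 2 * m * s ^ 2) * (1 + |η|) := by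
  obtain ⟨C1, hC1, hdiv⟩ := div_bound δ hδ
  obtain ⟨C2, hC2, hls⟩ := ls2_PC' δ hδ
  set c : ℝ := 8 * Real.exp |B| with hc
  have hB1 : 1 ≤ Real.exp |B| := Real.one_le_exp (abs_nonneg B)
  have hB0 : 0 ≤ |B| := abs_nonneg B
  have hc1 : 1 ≤ c := by rw [hc]; linarith
  refine ⟨(C2 * (|B| + 6)) * (c * c) ^ δ * (2 * c ^ 2) * (112 * (|B| + 4) ^ 2 * C1), by positivity, ?_⟩
  intro x Y s e D m A N M J U P i W α hi hW hYW hα j hj ξ η
  rw [mem_range] at hj
  have hs := P.hs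
  have he := P.he
  have hx := P.hx
  have hY := P.hY
  have hη := abs_nonneg η
  have hls0 : 0 ≤ Real.log s := Real.log_nonneg hs
  have hD1 : (1 : ℝ) ≤ D := by exact_mod_cast P.hD
  have hD0 : (0 : ℝ) < D := by linarith
  have hm1 : (1 : ℝ) ≤ m := by exact_mod_cast P.hm
  set K : ℕ := 2 ^ (j + 1) with hK
  set L : ℕ := ⌊Real.exp B * x / 2 ^ j⌋₊ with hL
  have hs7 : 0 ≤ s ^ (7 * δ) := by positivity
  have hR : 0 ≤ (C2 * (|B| + 6)) * (c * c) ^ δ * (2 * c ^ 2) * (112 * (|B| + 4) ^ 2 * C1) *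
      ((1 + Real.log s) ^ 4 * s ^ (7 * δ)) * (D ^ 2 * m * s ^ 2) * (1 + |η|) := by
    positivity
  by_cases hWj : W < 2 ^ j
  · refine le_trans (le_of_eq ?_) hR
    rw [sum_eq_zero, mul_zero]
    intro p _
    have : PP (dy j α) m K η p.2 = 0 := by
      unfold PP
      apply sum_eq_zero
      intro k hk
      unfold tw dy
      by_cases hk2 : k ∈ Ico (2 ^ j) (2 ^ (j + 1))
      · rw [mem_Ico] at hk2
        rw [hW k (by omega)]
        simp
      · rw [if_neg hk2]; simp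
    rw [this]; simp
  push Not at hWj
  have hK0 : (0 : ℝ) < K := by rw [hK]; positivity
  have hKj : (K : ℝ) = 2 * 2 ^ j := by rw [hK]; push_cast; ring
  have hKs : (K : ℝ) ≤ c * s ^ 3 := by
    have := P.K_le hj
    refine this.trans ?_
    rw [hc]
    have h4 : 0 ≤ s ^ 3 := by positivity
    nlinarith
  have hA0 : (0 : ℝ) ≤ A := Nat.cast_nonneg _
  have hAs : (A : ℝ) ≤ c * s := by
    have := P.A_le
    rw [hc]
    refine this.trans ?_
    nlinarith
  have hAc : (A : ℝ) ≤ c * D * m * Y := by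
    refine P.A_le'.trans ?_
    rw [hc]
    gcongr
    norm_num
  have hYK : Y * K ≤ c * s * e ^ 12 := by
    have h1 : (2 : ℝ) ^ j ≤ W := by exact_mod_cast hWj
    calc Y * K ≤ Y * (2 * W) := by rw [hKj]; gcongr
      _ = 2 * (Y * W) := by ring
      _ ≤ 2 * (4 * s * e ^ 12) := by gcongr
      _ = 8 * s * e ^ 12 := by ring
      _ ≤ c * s * e ^ 12 := by
          have : 8 ≤ c := by rw [hc]; linarith
          gcongr
  have hnum := num1_sqrt c D m Y s e A K hc1 hD0 hm1 hY hs he P.h1 hA0 hAc hK0.le hYK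
  -- sup bound
  have hsup : ∀ p ∈ PC D, ‖PP (fun n => (((Real.log n) ^ i : ℝ) : ℂ)) m L η p.2‖ ≤
      (112 * (|B| + 4) ^ 2 * C1) * ((1 + Real.log s) ^ 3 * s ^ δ) * (1 + |η|) * Real.sqrt D := by
    intro p hp
    obtain ⟨hq1, hq2, hprim⟩ := mem_PC hp
    have hD1' := P.hD
    have h := PP_smooth i hi η m L p.1 P.hm (by omega) p.2 hprim
    refine h.trans ?_
    have hq0 : (1 : ℝ) ≤ p.1 := by
      have : 1 ≤ p.1 := by omega
      exact_mod_cast this
    have hq3 : (p.1 : ℝ) ≤ 2 * D := by exact_mod_cast hq2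
    have h1 : 1 + Real.log L ≤ (|B| + 4) * (1 + Real.log s) := by
      have h10 := P.logL j
      calc 1 + Real.log L ≤ 1 + (|B| + 3) * (1 + Real.log s) := by linarith
        _ ≤ (1 + Real.log s) + (|B| + 3) * (1 + Real.log s) := by linarith
        _ = _ := by ring
    have h1' : 0 ≤ Real.log L := Real.log_natCast_nonneg L
    have h2 : (m.divisors.card : ℝ) ≤ C1 * s ^ δ := by
      refine (hdiv m P.hm).trans ?_
      have := P.m_le
      gcongr
    have h3 : Real.sqrt p.1 ≤ 2 * Real.sqrt D := by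
      calc Real.sqrt p.1 ≤ Real.sqrt (2 ^ 2 * D) := by
            apply Real.sqrt_le_sqrt
            linarith
        _ = 2 * Real.sqrt D := by
            rw [Real.sqrt_mul (by norm_num), Real.sqrt_sq (by norm_num)]
    have h4 : 1 + Real.log p.1 ≤ 2 * (1 + Real.log s) := by
      have h5 : Real.log p.1 ≤ Real.log (2 * s) := by
        apply Real.log_le_log (by linarith)
        have := P.D_le
        linarith
      rw [Real.log_mul (by norm_num) (by linarith)] at h5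
      have h6 := Real.log_two_lt_d9
      linarith
    have h4' : 0 ≤ Real.log p.1 := Real.log_nonneg hq0
    calc 2 * (7 * (1 + |η|) * (1 + Real.log L) ^ 2) *
          (m.divisors.card * (2 * Real.sqrt p.1 * (1 + Real.log p.1)))
        ≤ 2 * (7 * (1 + |η|) * ((|B| + 4) * (1 + Real.log s)) ^ 2) *
          ((C1 * s ^ δ) * (2 * (2 * Real.sqrt D) * (2 * (1 + Real.log s)))) := by
          gcongr
      _ = _ := by ring
  have hlogK : ∀ n ∈ Icc 1 K, ‖dy j α n‖ ≤ (|B| + 6) * (1 + Real.log s) := by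
    intro n hn
    rw [mem_Icc] at hn
    refine (dy_norm _ _ _).trans ((hα n hn.1).trans ?_)
    have h1 : (n : ℝ) ≤ 4 * Real.exp |B| * s ^ 3 := by
      have : (n : ℝ) ≤ K := by exact_mod_cast hn.2
      exact this.trans (P.K_le hj)
    have h2 : Real.log n ≤ Real.log (4 * Real.exp |B| * s ^ 3) :=
      Real.log_le_log (by exact_mod_cast hn.1) h1
    rw [Real.log_mul (by positivity) (by positivity), Real.log_mul (by norm_num)
      (Real.exp_pos _).ne', Real.log_exp, Real.log_pow] at h2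
    have h3 : Real.log 4 = 2 * Real.log 2 := by
      rw [show (4 : ℝ) = 2 ^ 2 by norm_num, Real.log_pow]; norm_num
    rw [h3] at h2
    have h5 := Real.log_two_lt_d9
    push_cast at h2
    nlinarith
  have hb0 : 0 ≤ (|B| + 6) * (1 + Real.log s) := by positivity
  have h2 := hls D A K m (dy j α) _ P.hD hb0 hlogK ξ η
  set S : ℝ := (112 * (|B| + 4) ^ 2 * C1) * ((1 + Real.log s) ^ 3 * s ^ δ) * (1 + |η|) with hS
  have hS0 : 0 ≤ S := by rw [hS]; positivity
  have hAK : ((A * K : ℕ) : ℝ) ^ δ ≤ (c * c) ^ δ * s ^ (4 * δ) := by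
    push_cast
    calc ((A : ℝ) * K) ^ δ ≤ ((c * s) * (c * s ^ 3)) ^ δ := by gcongr
      _ = ((c * c) * s ^ (4 : ℝ)) ^ δ := by
          congr 1
          rw [show (4 : ℝ) = ((4 : ℕ) : ℝ) by norm_num, Real.rpow_natCast]
          ring
      _ = (c * c) ^ δ * s ^ (4 * δ) := by
          rw [Real.mul_rpow (by positivity) (by positivity), ← Real.rpow_mul (by linarith)]
  have hsum : ∑ p ∈ PC D, ‖PP (fun _ => 1) m A ξ p.2‖ * (‖PP (dy j α) m K η p.2‖ *
        ‖PP (fun n => (((Real.log n) ^ i : ℝ) : ℂ)) m L η p.2‖) ≤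
      (S * Real.sqrt D) * (C2 * ((|B| + 6) * (1 + Real.log s)) * ((c * c) ^ δ * s ^ (4 * δ)) * D *
        Real.sqrt (((A * K : ℝ) + (D : ℝ) ^ 2) * (A * K))) := by
    calc ∑ p ∈ PC D, ‖PP (fun _ => 1) m A ξ p.2‖ * (‖PP (dy j α) m K η p.2‖ *
        ‖PP (fun n => (((Real.log n) ^ i : ℝ) : ℂ)) m L η p.2‖)
        ≤ ∑ p ∈ PC D, (S * Real.sqrt D) * (‖PP (fun _ => 1) m A ξ p.2‖ *
          ‖PP (dy j α) m K η p.2‖) := by
          apply sum_le_sum
          intro p hp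
          have := hsup p hp
          have h9 : ‖PP (fun _ => 1) m A ξ p.2‖ * (‖PP (dy j α) m K η p.2‖ *
            ‖PP (fun n => (((Real.log n) ^ i : ℝ) : ℂ)) m L η p.2‖)
            ≤ ‖PP (fun _ => 1) m A ξ p.2‖ * (‖PP (dy j α) m K η p.2‖ * (S * Real.sqrt D)) := by
              gcongr
          exact h9.trans (le_of_eq (by ring))
      _ = (S * Real.sqrt D) * ∑ p ∈ PC D, (‖PP (fun _ => 1) m A ξ p.2‖ *
          ‖PP (dy j α) m K η p.2‖) := by rw [mul_sum]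
      _ ≤ (S * Real.sqrt D) * (C2 * ((|B| + 6) * (1 + Real.log s)) * ((A * K : ℕ) : ℝ) ^ δ * D *
        Real.sqrt (((A * K : ℝ) + (D : ℝ) ^ 2) * (A * K))) := by gcongr
      _ ≤ _ := by gcongr
  have he24 : e ^ 2 ≤ e ^ 4 := pow_le_pow_right₀ he (by norm_num)
  have hss : s ^ δ * s ^ (4 * δ) ≤ s ^ (7 * δ) := by
    rw [← Real.rpow_add (by linarith)]
    apply Real.rpow_le_rpow_of_exponent_le hs
    linarith
  calc e ^ 2 * Real.sqrt D * ∑ p ∈ PC D, ‖PP (fun _ => 1) m A ξ p.2‖ *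
      (‖PP (dy j α) m K η p.2‖ *
        ‖PP (fun n => (((Real.log n) ^ i : ℝ) : ℂ)) m L η p.2‖)
      ≤ e ^ 4 * Real.sqrt D * ((S * Real.sqrt D) * (C2 * ((|B| + 6) * (1 + Real.log s)) *
        ((c * c) ^ δ * s ^ (4 * δ)) * D *
        Real.sqrt (((A * K : ℝ) + (D : ℝ) ^ 2) * (A * K)))) := by
        gcongr
    _ = (Real.sqrt D * Real.sqrt D) * S * (C2 * ((|B| + 6) * (1 + Real.log s)) *
        ((c * c) ^ δ * s ^ (4 * δ)) * D) *
        (e ^ 4 * Real.sqrt (((A * K : ℝ) + (D : ℝ) ^ 2) * (A * K))) := by ring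
    _ ≤ (Real.sqrt D * Real.sqrt D) * S * (C2 * ((|B| + 6) * (1 + Real.log s)) *
        ((c * c) ^ δ * s ^ (4 * δ)) * D) * (2 * c ^ 2 * (m * s ^ 2)) := by
        gcongr
    _ = (C2 * (|B| + 6)) * (c * c) ^ δ * (2 * c ^ 2) * (112 * (|B| + 4) ^ 2 * C1) *
      ((1 + Real.log s) ^ 4 * (s ^ δ * s ^ (4 * δ))) * (D ^ 2 * m * s ^ 2) * (1 + |η|) := by
        rw [Real.mul_self_sqrt hD0.le, hS]
        ring
    _ ≤ _ := by gcongr

end H343.KF
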