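import Pool.Agent.H43.G.R_seed8.H343R2.KF8

open Finset MeasureTheory

namespace H343.KF

open Pool.Agent.Helper112 (betaV LamII)
open Pool.Agent.Helper112.TI (mu1 l1 mu1_apply l1_apply vaughan)

section
variable {B x Y s e : ℝ} {D m A N M J U : ℕ}

lemma Par.cut (P : Par B x Y s e D m A N M J U) {f : ℝ → ℝ} (hf : Test B f) {n : ℕ} (hn : 1 ≤ n)
    (hnU : n ≤ U) : f (Real.log (n / x)) = 0 := by
  have hx := P.hx
  have hs := P.hs
  have he := P.he
  have hn' : (0 : ℝ) < n := by exact_mod_cast hn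
  have hnU' : (n : ℝ) ≤ U := by exact_mod_cast hnU
  have h1 : Real.exp |B| * n ≤ x := by
    have h2 : Real.exp |B| * (n : ℝ) * e ^ 20 ≤ x * e ^ 20 := by
      calc Real.exp |B| * (n : ℝ) * e ^ 20 ≤ Real.exp |B| * (2 * s * e ^ 6) * e ^ 20 := by
            have := P.U_le
            gcongr
            linarith
        _ = (2 * Real.exp |B| * e ^ 26) * s := by ring
        _ ≤ s * s := by
            have := P.hes2
            gcongr
        _ ≤ x * e ^ 20 := by rw [← pow_two]; exact P.h3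
    exact le_of_mul_le_mul_right h2 (by positivity)
  have h3 : n / x ≤ Real.exp (-|B|) := by
    rw [div_le_iff₀ hx, Real.exp_neg, ← div_eq_inv_mul, le_div_iff₀ (Real.exp_pos _)]
    linarith
  have h4 : Real.log (n / x) ≤ -|B| := by
    rw [← Real.log_exp (-|B|)]
    exact Real.log_le_log (by positivity) h3
  apply hf.supp
  have h5 : |B| ≤ |Real.log (n / x)| := by
    rw [le_abs]; right; linarith
  exact (le_abs_self B).trans h5

lemma mu1_norm (V n : ℕ) : ‖((mu1 V n : ℝ) : ℂ)‖ ≤ 1 := by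
  rw [Complex.norm_real, Real.norm_eq_abs, mu1_apply]
  split_ifs
  · exact_mod_cast ArithmeticFunction.abs_moebius_le_one
  · simp

lemma mul1_norm (U V n : ℕ) : ‖(((mu1 U * l1 V) n : ℝ) : ℂ)‖ ≤ Real.log n := by
  rw [Complex.norm_real, Real.norm_eq_abs, ArithmeticFunction.mul_apply]
  refine (abs_sum_le_sum_abs _ _).trans ?_
  have h1 : ∀ i ∈ n.divisorsAntidiagonal, |mu1 U i.1 * l1 V i.2| ≤
      ArithmeticFunction.vonMangoldt i.2 := by
    intro i _
    rw [abs_mul]
    have h2 : |mu1 U i.1| ≤ 1 := by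
      have := mu1_norm U i.1
      rwa [Complex.norm_real, Real.norm_eq_abs] at this
    have h3 : |l1 V i.2| ≤ ArithmeticFunction.vonMangoldt i.2 := by
      rw [l1_apply]
      split_ifs
      · rw [abs_of_nonneg ArithmeticFunction.vonMangoldt_nonneg]
      · rw [abs_zero]; exact ArithmeticFunction.vonMangoldt_nonneg
    calc |mu1 U i.1| * |l1 V i.2| ≤ 1 * ArithmeticFunction.vonMangoldt i.2 := by gcongr
      _ = _ := one_mul _
  refine (sum_le_sum h1).trans ?_
  have h2 : ∑ i ∈ n.divisorsAntidiagonal, ArithmeticFunction.vonMangoldt i.2 = Real.log n := by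
    rw [Nat.sum_divisorsAntidiagonal' (f := fun _ b => ArithmeticFunction.vonMangoldt b)]
    exact ArithmeticFunction.vonMangoldt_sum
  rw [h2]

lemma mul1_zero (U n : ℕ) (hn : U * U < n) : (mu1 U * l1 U) n = 0 := by
  rw [ArithmeticFunction.mul_apply]
  apply sum_eq_zero
  intro i hi
  have h1 := (Nat.mem_divisorsAntidiagonal.1 hi).1
  rw [mu1_apply, l1_apply]
  by_cases h2 : i.1 ≤ U
  · by_cases h3 : i.2 ≤ U
    · exfalso
      have := Nat.mul_le_mul h2 h3
      omega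
    · rw [if_neg h3, mul_zero]
  · rw [if_neg h2, zero_mul]

lemma PSm_split (P : Par B x Y s e D m A N M J U) {f : ℝ → ℝ} (hf : Test B f) {q : ℕ}
    (χ : DirichletCharacter ℂ q) :
    PSm f x M m χ = TT f x M m (fun n => (betaV U n : ℂ)) (LU U) χ +
      TT f x M m (fun n => ((mu1 U n : ℝ) : ℂ)) (fun n => (((Real.log n) ^ 1 : ℝ) : ℂ)) χ -
      TT f x M m (fun n => (((mu1 U * l1 U) n : ℝ) : ℂ)) (fun n => (((Real.log n) ^ 0 : ℝ) : ℂ)) χ := by
  unfold PSm TT
  rw [← sum_add_distrib, ← sum_sub_distrib]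
  apply sum_congr rfl
  intro n hn
  rw [mem_filter, mem_Icc] at hn
  have hn1 := hn.1.1
  have hv := vaughan U U n
  have e1 : (∑ i ∈ n.divisorsAntidiagonal, (betaV U i.1 : ℂ) * LU U i.2) = ((LamII U U n : ℝ) : ℂ) := by
    unfold LamII LU
    push_cast
    rfl
  have e2 : (∑ i ∈ n.divisorsAntidiagonal, ((mu1 U i.1 : ℝ) : ℂ) * (((Real.log i.2) ^ 1 : ℝ) : ℂ)) =
      (((ArithmeticFunction.log * mu1 U) n : ℝ) : ℂ) := by
    rw [mul_comm, ArithmeticFunction.mul_apply]
    push_cast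
    apply sum_congr rfl
    intro i _
    rw [ArithmeticFunction.log_apply, pow_one]
    rw [Complex.natCast_log]
  have e3 : (∑ i ∈ n.divisorsAntidiagonal, (((mu1 U * l1 U) i.1 : ℝ) : ℂ) *
      (((Real.log i.2) ^ 0 : ℝ) : ℂ)) =
      (((((ArithmeticFunction.zeta : ArithmeticFunction ℕ) : ArithmeticFunction ℝ) *
        (mu1 U * l1 U)) n : ℝ) : ℂ) := by
    rw [mul_comm ((ArithmeticFunction.zeta : ArithmeticFunction ℕ) : ArithmeticFunction ℝ),
      ArithmeticFunction.mul_apply]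
    push_cast
    apply sum_congr rfl
    intro i hi
    have h1 := Nat.mem_divisorsAntidiagonal.1 hi
    have h2 : i.2 ≠ 0 := by
      intro h
      rw [h, mul_zero] at h1
      exact h1.2 h1.1.symm
    rw [ArithmeticFunction.natCoe_apply, ArithmeticFunction.zeta_apply_ne h2]
    simp
  rw [e1, e2, e3]
  by_cases hU : n ≤ U
  · rw [P.cut hf hn1 hU]
    simp
  · have h3 : l1 U n = 0 := by rw [l1_apply, if_neg hU]
    rw [h3, zero_add] at hv
    have h4 : ArithmeticFunction.vonMangoldt n = LamII U U n + (ArithmeticFunction.log * mu1 U) n -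
      (((ArithmeticFunction.zeta : ArithmeticFunction ℕ) : ArithmeticFunction ℝ) *
        (mu1 U * l1 U)) n := by linarith
    rw [h4]
    push_cast
    ring

end

lemma par_exists (B ε : ℝ) (hε : 0 < ε) (hε1 : ε ≤ 1 / 100) : ∃ H0 : ℝ, 1 ≤ H0 ∧
    ∀ x Y : ℝ, Range ε x Y → H0 ≤ x * Y →
    ∀ D m N M : ℕ, (x * Y) ^ (ε / 5) ≤ D → 1 ≤ m → (D * m : ℝ) ≤ (x * Y) ^ (1 / 2 - ε) →
      Real.exp B * (2 * D * m) * Y ≤ N → Real.exp B * x ≤ M →
      ∃ A J U : ℕ, Par B x Y ((x * Y) ^ (1 / 2 : ℝ)) ((x * Y) ^ (ε / 20)) D m A N M J U := by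
  obtain ⟨H0, hH0, hl⟩ := large (2 * Real.exp |B| + 1) (1 / 4) 0 (by norm_num)
  refine ⟨H0, hH0, ?_⟩
  intro x Y hR hH D m N M h1 h2 h3 h4 h5
  have hH1 : 1 ≤ x * Y := hR.h1
  have hx := hR.hx
  have hY := hR.hY
  set H := x * Y with hHdef
  have hH0' : 0 < H := by linarith
  have hl' := hl H hH
  rw [pow_zero, mul_one] at hl'
  have epow : ∀ k : ℕ, (H ^ (ε / 20)) ^ k = H ^ (ε / 20 * k) := by
    intro k
    rw [← Real.rpow_natCast, ← Real.rpow_mul hH0'.le]
  have spow : ∀ k : ℕ, (H ^ (1 / 2 : ℝ)) ^ k = H ^ ((1 / 2 : ℝ) * k) := by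
    intro k
    rw [← Real.rpow_natCast, ← Real.rpow_mul hH0'.le]
  have hU0 : 0 ≤ max 1 (1 / Y) * (H ^ (ε / 20)) ^ 6 := by positivity
  have he1 : 1 ≤ H ^ (ε / 20) := Real.one_le_rpow hH1 (by positivity)
  have hU1 : 1 ≤ max 1 (1 / Y) * (H ^ (ε / 20)) ^ 6 := by
    have h6 : 1 ≤ (H ^ (ε / 20)) ^ 6 := one_le_pow₀ he1
    have h7 : 1 ≤ max 1 (1 / Y) := le_max_left _ _
    calc (1 : ℝ) = 1 * 1 := by norm_num
      _ ≤ _ := by gcongr
  refine ⟨⌊Real.exp B * (2 * D * m) * Y⌋₊, Nat.clog 2 ⌈Real.exp B * x⌉₊,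
    ⌈max 1 (1 / Y) * (H ^ (ε / 20)) ^ 6⌉₊, ?_⟩
  exact {
    hx := hx
    hY := hY
    he := he1
    hs := Real.one_le_rpow hH1 (by norm_num)
    hxY := by
      rw [spow]
      norm_num
      rfl
    hD := by
      have : (1 : ℝ) ≤ D := (Real.one_le_rpow hH1 (by positivity)).trans h1
      exact_mod_cast this
    hm := h2
    h1 := by
      rw [epow]
      calc (D : ℝ) * m * H ^ (ε / 20 * (20 : ℕ)) ≤ H ^ (1 / 2 - ε) * H ^ (ε / 20 * (20 : ℕ)) := by
            gcongr
        _ = H ^ (1 / 2 : ℝ) := by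
            rw [← Real.rpow_add hH0']
            congr 1
            push_cast
            ring
    h2 := by
      rw [epow]
      refine le_trans (le_of_eq ?_) h1
      congr 1
      push_cast
      ring
    h3 := by
      rw [spow, epow]
      calc H ^ ((1 / 2 : ℝ) * (2 : ℕ)) = H ^ (1 - ε) * H ^ (ε / 20 * (20 : ℕ)) := by
            rw [← Real.rpow_add hH0']
            congr 1
            push_cast
            ring
        _ ≤ x * H ^ (ε / 20 * (20 : ℕ)) := by
            have := hR.hlow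
            gcongr
    h3' := by
      rw [spow]
      refine hR.hhigh.trans (le_of_eq ?_)
      congr 1
      norm_num
    hes := by
      rw [epow]
      apply Real.rpow_le_rpow_of_exponent_le hH1
      push_cast
      linarith
    hes2 := by
      rw [epow]
      have h6 : H ^ (ε / 20 * (26 : ℕ)) ≤ H ^ (1 / 4 : ℝ) := by
        apply Real.rpow_le_rpow_of_exponent_le hH1
        push_cast
        linarith
      have h7 : H ^ (1 / 2 : ℝ) = H ^ (1 / 4 : ℝ) * H ^ (1 / 4 : ℝ) := by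
        rw [← Real.rpow_add hH0']
        norm_num
      rw [h7]
      have h8 : 0 < H ^ (1 / 4 : ℝ) := by positivity
      calc 2 * Real.exp |B| * H ^ (ε / 20 * (26 : ℕ)) ≤ 2 * Real.exp |B| * H ^ (1 / 4 : ℝ) := by
            gcongr
        _ < H ^ (1 / 4 : ℝ) * H ^ (1 / 4 : ℝ) := by
            apply mul_lt_mul_of_pos_right _ h8
            linarith
    hA := Nat.lt_floor_add_one _
    hA' := Nat.floor_le (by positivity)
    hAN := by
      have h6 : ((⌊Real.exp B * (2 * D * m) * Y⌋₊ : ℕ) : ℝ) ≤ N :=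
        (Nat.floor_le (by positivity)).trans h4
      exact_mod_cast h6
    hM := h5
    hJ := by
      refine (Nat.le_ceil _).trans ?_
      exact_mod_cast Nat.le_pow_clog (by norm_num) _
    hJ' := by
      intro j hj
      have h6 : 2 ^ j < ⌈Real.exp B * x⌉₊ := (Nat.lt_clog_iff_pow_lt (by norm_num)).1 hj
      have h7 : ((2 ^ j : ℕ) : ℝ) < (⌈Real.exp B * x⌉₊ : ℕ) := by exact_mod_cast h6
      have h8 := Nat.ceil_lt_add_one (a := Real.exp B * x) (by positivity)
      push_cast at h7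
      linarith
    hU1 := by
      have h6 := Nat.le_ceil (max 1 (1 / Y) * (H ^ (ε / 20)) ^ 6)
      have h7 : (1 : ℝ) ≤ (⌈max 1 (1 / Y) * (H ^ (ε / 20)) ^ 6⌉₊ : ℕ) := hU1.trans h6
      exact_mod_cast h7
    hU2 := by
      have h6 := Nat.le_ceil (max 1 (1 / Y) * (H ^ (ε / 20)) ^ 6)
      calc (H ^ (ε / 20)) ^ 6 = 1 * (H ^ (ε / 20)) ^ 6 := (one_mul _).symm
        _ ≤ (max 1 (1 / Y) * Y) * (H ^ (ε / 20)) ^ 6 := by
            have : 1 ≤ max 1 (1 / Y) * Y := by
              calc (1 : ℝ) = 1 / Y * Y := by field_simp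
                _ ≤ _ := by gcongr; exact le_max_right _ _
            gcongr
        _ = (max 1 (1 / Y) * (H ^ (ε / 20)) ^ 6) * Y := by ring
        _ ≤ _ := by gcongr
    hU3 := by
      have h6 := Nat.ceil_lt_add_one hU0
      have h7 : ((⌈max 1 (1 / Y) * (H ^ (ε / 20)) ^ 6⌉₊ : ℕ) : ℝ) ≤
        2 * (max 1 (1 / Y) * (H ^ (ε / 20)) ^ 6) := by linarith
      rw [← mul_assoc] at h7
      exact h7
  }

end H343.KF
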