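import Pool.Agent.H43.G.R_seed8.H343R2.KF9

open Finset MeasureTheory

namespace H343

open Pool.Agent.Helper112 (betaV LamII)
open Pool.Agent.Helper112.TI (mu1 l1 mu1_apply l1_apply vaughan)

namespace KF

lemma TT_part {G F : ℝ → ℂ} (hGc : Continuous G) (hGi : Integrable (fun ξ => (1 + |ξ|) * ‖G ξ‖))
    (hFc : Continuous F) (hFi : Integrable (fun ξ => (1 + |ξ|) * ‖F ξ‖)) {f l : ℝ → ℝ}
    (hfG : ∀ v : ℝ, (f v : ℂ) = ∫ ξ, G ξ * ex (ξ * v))
    (hlF : ∀ v : ℝ, (l v : ℂ) = ∫ ξ, F ξ * ex (ξ * v)) {B : ℝ} (hf : Test B f) (hl : Test B l)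
    {x Y s e : ℝ} {D m A N M J U : ℕ} (P : Par B x Y s e D m A N M J U)
    (α β : ℕ → ℂ) (W : ℝ) (hW : 0 ≤ W) (hKb : ∀ j ∈ range J, ∀ ξ η : ℝ,
      e ^ 2 * Real.sqrt D * ∑ p ∈ PC D, ‖PP (fun _ => 1) m A ξ p.2‖ *
        (‖PP (dy j α) m (2 ^ (j + 1)) η p.2‖ *
        ‖PP β m ⌊Real.exp B * x / 2 ^ j⌋₊ η p.2‖) ≤ W * (1 + |η|)) :
    e ^ 2 * ∑ p ∈ PC D, Real.sqrt p.1 * (‖KKm l Y N m p.2‖ * ‖TT f x M m α β p.2‖) ≤
      2 * ((2 * |B| + 8) * (1 + Real.log s)) * W * ((∫ ξ, ‖F ξ‖) * ∫ η, (1 + |η|) * ‖G η‖) := by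
  have hs := P.hs
  have he := P.he
  have hls0 : 0 ≤ Real.log s := Real.log_nonneg hs
  have hB := abs_nonneg B
  have hD1 : (1 : ℝ) ≤ D := by exact_mod_cast P.hD
  have hsD : 0 < Real.sqrt D := Real.sqrt_pos.2 (by linarith)
  have he2 : 0 < e ^ 2 * Real.sqrt D := by positivity
  have h := TT_sum hGc hGi hFc hFi hfG hlF hf hl x Y P.hx P.hY D A N M m J P.hD P.hm P.hM P.hJ P.hA
    P.hAN α β (W / (e ^ 2 * Real.sqrt D)) (by
      intro j hj ξ η
      rw [div_mul_eq_mul_div, le_div_iff₀ he2, mul_comm]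
      exact hKb j hj ξ η)
  have hI : 0 ≤ (∫ ξ, ‖F ξ‖) * ∫ η, (1 + |η|) * ‖G η‖ := by
    apply mul_nonneg (integral_nonneg fun _ => norm_nonneg _)
    exact integral_nonneg fun _ => by positivity
  have hsq : Real.sqrt (2 * D) ≤ 2 * Real.sqrt D := by
    calc Real.sqrt (2 * D) ≤ Real.sqrt (2 ^ 2 * D) := by
          apply Real.sqrt_le_sqrt
          linarith
      _ = 2 * Real.sqrt D := by
          rw [Real.sqrt_mul (by norm_num), Real.sqrt_sq (by norm_num)]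
  calc e ^ 2 * ∑ p ∈ PC D, Real.sqrt p.1 * (‖KKm l Y N m p.2‖ * ‖TT f x M m α β p.2‖)
      ≤ e ^ 2 * (Real.sqrt (2 * D) * (J * (W / (e ^ 2 * Real.sqrt D) * (∫ ξ, ‖F ξ‖) *
          ∫ η, (1 + |η|) * ‖G η‖))) := by gcongr
    _ ≤ e ^ 2 * ((2 * Real.sqrt D) * (((2 * |B| + 8) * (1 + Real.log s)) *
          (W / (e ^ 2 * Real.sqrt D) * (∫ ξ, ‖F ξ‖) *
          ∫ η, (1 + |η|) * ‖G η‖))) := by
        have h1 := P.J_le
        have h2 : 0 ≤ W / (e ^ 2 * Real.sqrt D) * (∫ ξ, ‖F ξ‖) *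
          ∫ η, (1 + |η|) * ‖G η‖ := by
          rw [mul_assoc]
          exact mul_nonneg (by positivity) hI
        gcongr
    _ = _ := by
        field_simp

end KF

open KF in
open Classical in
theorem key_fixed {B : ℝ} {f l : ℝ → ℝ} (hf : Test B f) (hl : Test B l) (ε : ℝ) (hε : 0 < ε)
    (hε1 : ε ≤ 1 / 100) : ∃ H0 : ℝ, ∀ x Y : ℝ, Range ε x Y → H0 ≤ x * Y →
    ∀ D m N M : ℕ, (x * Y) ^ (ε / 5) ≤ D → 1 ≤ m → (D * m : ℝ) ≤ (x * Y) ^ (1 / 2 - ε) →
      Real.exp B * (2 * D * m) * Y ≤ N → Real.exp B * x ≤ M →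
    ∑ q ∈ Ioc D (2 * D), Real.sqrt q * ∑ χ ∈ (univ : Finset (DirichletCharacter ℂ q)).filter
        (fun χ => χ.IsPrimitive), ‖KKm l Y N m χ‖ * ‖PSm f x M m χ‖
      ≤ (x * Y) ^ (1 - ε / 20) * D ^ 2 * m := by
  obtain ⟨G, hGc, hGi, hfG⟩ := separation hf
  obtain ⟨F, hFc, hFi, hlF⟩ := separation hl
  have hδ : 0 < ε / 140 := by positivity
  obtain ⟨C1, hC1, hII⟩ := blockII B (ε / 140) hδ
  obtain ⟨C2, hC2, hI⟩ := blockI B (ε / 140) hδ
  obtain ⟨H1, hH1, hpar⟩ := par_exists B ε hε hε1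
  set IFG : ℝ := (∫ ξ, ‖F ξ‖) * ∫ η, (1 + |η|) * ‖G η‖ with hIFG
  have hI0 : 0 ≤ IFG := by
    apply mul_nonneg (integral_nonneg fun _ => norm_nonneg _)
    exact integral_nonneg fun _ => by positivity
  have hB := abs_nonneg B
  obtain ⟨H2, hH2, hlarge⟩ := large (2 * (2 * |B| + 8) * (C1 + 2 * C2) * IFG) (ε / 40) 5
    (by positivity)
  refine ⟨max H1 H2, ?_⟩
  intro x Y hR hH D m N M h1 h2 h3 h4 h5
  obtain ⟨A, J, U, P⟩ := hpar x Y hR ((le_max_left _ _).trans hH) D m N M h1 h2 h3 h4 h5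
  have hl' := hlarge (x * Y) ((le_max_right _ _).trans hH)
  have hXY1 := hR.h1
  set H := x * Y with hHdef
  set s := H ^ (1 / 2 : ℝ) with hs
  set e := H ^ (ε / 20) with he
  have hs1 := P.hs
  have he1 := P.he
  have hH0 : 0 < H := by linarith
  have hls0 : 0 ≤ Real.log s := Real.log_nonneg hs1
  set E : ℝ := (1 + Real.log s) ^ 4 * s ^ (7 * (ε / 140)) with hE
  have hE0 : 0 ≤ E := by rw [hE]; positivity
  set Z : ℝ := (D : ℝ) ^ 2 * m * s ^ 2 with hZ
  have hZ0 : 0 ≤ Z := by rw [hZ]; positivity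
  have hB1 := TT_part hGc hGi hFc hFi hfG hlF hf hl P (fun n => (betaV U n : ℂ)) (LU U)
    (C1 * E * Z) (by positivity) (by
      intro j hj ξ η
      refine (hII x Y s e D m A N M J U P j hj ξ η).trans ?_
      have h6 : (1 + Real.log s) * s ^ (7 * (ε / 140)) ≤ E := by
        rw [hE]
        have : 1 + Real.log s ≤ (1 + Real.log s) ^ 4 := by
          apply le_self_pow₀ (by linarith) (by norm_num)
        gcongr
      calc C1 * ((1 + Real.log s) * s ^ (7 * (ε / 140))) * Z ≤ C1 * E * Z := by gcongr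
        _ = C1 * E * Z * 1 := (mul_one _).symm
        _ ≤ C1 * E * Z * (1 + |η|) := by
            have := abs_nonneg η
            gcongr
            linarith)
  have hU1 := P.hU1
  have hB2 := TT_part hGc hGi hFc hFi hfG hlF hf hl P (fun n => ((mu1 U n : ℝ) : ℂ))
    (fun n => (((Real.log n) ^ 1 : ℝ) : ℂ)) (C2 * E * Z) (by positivity) (by
      intro j hj ξ η
      refine hI x Y s e D m A N M J U P 1 U _ le_rfl (fun n hn => ?_) ?_ (fun n hn => ?_) j hj ξ η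
      · rw [mu1_apply, if_neg (by omega)]; simp
      · refine P.YU.trans ?_
        have : e ^ 6 ≤ e ^ 12 := pow_le_pow_right₀ he1 (by norm_num)
        gcongr
        norm_num
      · refine (mu1_norm U n).trans ?_
        have := Real.log_natCast_nonneg n
        linarith)
  have hB3 := TT_part hGc hGi hFc hFi hfG hlF hf hl P (fun n => (((mu1 U * l1 U) n : ℝ) : ℂ))
    (fun n => (((Real.log n) ^ 0 : ℝ) : ℂ)) (C2 * E * Z) (by positivity) (by
      intro j hj ξ η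
      refine hI x Y s e D m A N M J U P 0 (U * U) _ (by norm_num) (fun n hn => ?_) ?_
        (fun n hn => ?_) j hj ξ η
      · rw [mul1_zero U n hn]; simp
      · push_cast
        exact P.YUU
      · refine (mul1_norm U U n).trans ?_
        linarith)
  have hsum : ∑ q ∈ Ioc D (2 * D), Real.sqrt q *
      ∑ χ ∈ (univ : Finset (DirichletCharacter ℂ q)).filter
        (fun χ => χ.IsPrimitive), ‖KKm l Y N m χ‖ * ‖PSm f x M m χ‖ =
      ∑ p ∈ PC D, Real.sqrt p.1 * (‖KKm l Y N m p.2‖ * ‖PSm f x M m p.2‖) := by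
    unfold PC
    rw [sum_sigma]
    apply sum_congr rfl
    intro q _
    rw [mul_sum]
  rw [hsum]
  have hle : ∑ p ∈ PC D, Real.sqrt p.1 * (‖KKm l Y N m p.2‖ * ‖PSm f x M m p.2‖) ≤
      ∑ p ∈ PC D, Real.sqrt p.1 * (‖KKm l Y N m p.2‖ *
        ‖TT f x M m (fun n => (betaV U n : ℂ)) (LU U) p.2‖) +
      ∑ p ∈ PC D, Real.sqrt p.1 * (‖KKm l Y N m p.2‖ *
        ‖TT f x M m (fun n => ((mu1 U n : ℝ) : ℂ)) (fun n => (((Real.log n) ^ 1 : ℝ) : ℂ)) p.2‖) +
      ∑ p ∈ PC D, Real.sqrt p.1 * (‖KKm l Y N m p.2‖ *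
        ‖TT f x M m (fun n => (((mu1 U * l1 U) n : ℝ) : ℂ))
          (fun n => (((Real.log n) ^ 0 : ℝ) : ℂ)) p.2‖) := by
    rw [← sum_add_distrib, ← sum_add_distrib]
    apply sum_le_sum
    intro p _
    rw [← mul_add, ← mul_add, ← mul_add, ← mul_add]
    rw [PSm_split P hf p.2]
    gcongr
    refine (norm_sub_le _ _).trans ?_
    gcongr
    exact norm_add_le _ _
  have he2 : 0 < e ^ 2 := by positivity
  have hfin : e ^ 2 * ∑ p ∈ PC D, Real.sqrt p.1 * (‖KKm l Y N m p.2‖ * ‖PSm f x M m p.2‖) ≤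
      e ^ 2 * (H ^ (1 - ε / 20) * D ^ 2 * m) := by
    calc e ^ 2 * ∑ p ∈ PC D, Real.sqrt p.1 * (‖KKm l Y N m p.2‖ * ‖PSm f x M m p.2‖)
        ≤ 2 * ((2 * |B| + 8) * (1 + Real.log s)) * (C1 * E * Z) * IFG +
          2 * ((2 * |B| + 8) * (1 + Real.log s)) * (C2 * E * Z) * IFG +
          2 * ((2 * |B| + 8) * (1 + Real.log s)) * (C2 * E * Z) * IFG := by
          refine (mul_le_mul_of_nonneg_left hle he2.le).trans ?_
          rw [mul_add, mul_add]
          exact add_le_add (add_le_add hB1 hB2) hB3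
      _ = (2 * (2 * |B| + 8) * (C1 + 2 * C2) * IFG * (1 + Real.log s) ^ 5) *
          s ^ (7 * (ε / 140)) * Z := by rw [hE]; ring
      _ ≤ H ^ (ε / 40) * s ^ (7 * (ε / 140)) * Z := by
          have h6 : 2 * (2 * |B| + 8) * (C1 + 2 * C2) * IFG * (1 + Real.log s) ^ 5 ≤
            H ^ (ε / 40) := by
            refine le_trans ?_ hl'
            have h7 : Real.log s ≤ Real.log H := by
              rw [hs, Real.log_rpow hH0]
              have := Real.log_nonneg hXY1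
              linarith
            have h8 : 0 ≤ 2 * (2 * |B| + 8) * (C1 + 2 * C2) * IFG := by positivity
            gcongr
          gcongr
      _ = e ^ 2 * (H ^ (1 - ε / 20) * D ^ 2 * m) := by
          have h6 : s ^ (7 * (ε / 140)) = H ^ (ε / 40) := by
            rw [hs, ← Real.rpow_mul hH0.le]
            congr 1
            ring
          have h7 : s ^ 2 = H := by
            have := P.hxY
            rw [← this]
          have h8 : e ^ 2 * H ^ (1 - ε / 20) = H ^ (ε / 40) * H ^ (ε / 40) * H := by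
            have : H ^ (ε / 40) * H ^ (ε / 40) * H = H ^ (ε / 40) * H ^ (ε / 40) * H ^ (1 : ℝ) := by
              rw [Real.rpow_one]
            rw [this, he, ← Real.rpow_natCast, ← Real.rpow_mul hH0.le, ← Real.rpow_add hH0,
              ← Real.rpow_add hH0, ← Real.rpow_add hH0]
            congr 1
            push_cast
            ring
          rw [hZ, h6, h7]
          calc H ^ (ε / 40) * H ^ (ε / 40) * ((D : ℝ) ^ 2 * m * H) =
              (H ^ (ε / 40) * H ^ (ε / 40) * H) * (D ^ 2 * m) := by ring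
            _ = (e ^ 2 * H ^ (1 - ε / 20)) * (D ^ 2 * m) := by rw [h8]
            _ = _ := by ring
  exact le_of_mul_le_mul_left hfin he2

end H343
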