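import Pool.Agent.H43.G.R_seed8.H343R2.KeyAux
import Pool.Agent.H43.G.R_seed8.H343R2.Count
import Pool.Agent.H43.G.R_seed8.H343R2.KeyFixed

open Finset MeasureTheory

namespace H343

namespace KeyAux

/-- powers: `1/φ(n)^2 ≤ c⁻² n^{2δ-2}` in the form used -/
theorem phi_inv_sq {δ c : ℝ} (hδ : 0 < δ) (hc : 0 < c)
    (h : ∀ n : ℕ, 1 ≤ n → c * (n : ℝ) ^ (1 - δ) ≤ (Nat.totient n : ℝ)) (H : ℝ) (n : ℕ)
    (hn : 1 ≤ n) (hnH : (n : ℝ) ≤ H) :
    1 / (Nat.totient n : ℝ) ^ 2 ≤ (1 / c ^ 2) * H ^ (2 * δ) * (1 / (n : ℝ) ^ 2) := by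
  have hn0 : (0 : ℝ) < n := by exact_mod_cast hn
  have h1 := h n hn
  have h2 : 0 < c * (n : ℝ) ^ (1 - δ) := by positivity
  have h3 : 1 / (Nat.totient n : ℝ) ^ 2 ≤ 1 / (c * (n : ℝ) ^ (1 - δ)) ^ 2 := by
    apply one_div_le_one_div_of_le (by positivity)
    gcongr
  refine h3.trans ?_
  have h4 : ((n : ℝ) ^ (1 - δ)) ^ 2 = (n : ℝ) ^ 2 / (n : ℝ) ^ (2 * δ) := by
    rw [← Real.rpow_natCast, ← Real.rpow_mul hn0.le, ← Real.rpow_natCast, ← Real.rpow_sub hn0]
    congr 1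
    push_cast
    ring
  rw [mul_pow, h4]
  have h5 : (n : ℝ) ^ (2 * δ) ≤ H ^ (2 * δ) := by gcongr
  have h6 : 0 < (n : ℝ) ^ (2 * δ) := by positivity
  have h7 : 1 / (c ^ 2 * ((n : ℝ) ^ 2 / (n : ℝ) ^ (2 * δ))) =
      (1 / c ^ 2) * (n : ℝ) ^ (2 * δ) * (1 / (n : ℝ) ^ 2) := by
    field_simp
  rw [h7]
  gcongr

theorem sum_inv_sq_Ioc (Q R : ℕ) (hQ : 1 ≤ Q) : ∑ q ∈ Ioc Q R, 1 / (q : ℝ) ^ 2 ≤ 1 / (Q : ℝ) := by
  rcases le_total Q R with h | h
  · have h1 := sum_Ioc_inv_sq_le_sub (α := ℝ) (by omega : Q ≠ 0) h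
    have h2 : ∑ q ∈ Ioc Q R, 1 / (q : ℝ) ^ 2 = ∑ q ∈ Ioc Q R, ((q : ℝ) ^ 2)⁻¹ :=
      sum_congr rfl fun q _ => one_div _
    rw [h2]
    have h3 : (0 : ℝ) ≤ (R : ℝ)⁻¹ := by positivity
    rw [one_div]
    linarith
  · rw [Ioc_eq_empty (by omega)]
    simp

end KeyAux

open KeyAux Classical in
theorem key {B : ℝ} {f l : ℝ → ℝ} (hf : Test B f) (hl : Test B l) (ε : ℝ) (hε : 0 < ε)
    (hε1 : ε ≤ 1 / 100) : ∃ H0 : ℝ, ∀ x Y : ℝ, Range ε x Y → H0 ≤ x * Y →
    ∀ Q R N M : ℕ, Cuts ε B x Y Q R N M →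
    ∑ q ∈ Mod Q R, 1 / (Nat.totient q : ℝ) ^ 2 *
      ∑ χ ∈ (univ : Finset (DirichletCharacter ℂ q)).filter (fun χ => χ ≠ 1),
        ‖GS χ⁻¹‖ * ‖KK l Y N χ‖ * ‖PS f x M χ‖ ≤ (x * Y) ^ (1 - ε / 40) := by
  set δ : ℝ := ε / 1000 with hδdef
  have hδ : 0 < δ := by positivity
  obtain ⟨C1, hC1, hdiv⟩ := div_bound δ hδ
  obtain ⟨c2, hc2, hphi⟩ := phi_bound δ hδ
  obtain ⟨C3, hC3, hGG⟩ := GG_le hf hl
  obtain ⟨HK, hKF⟩ := key_fixed hf hl ε hε hε1
  -- constants
  set K1 : ℝ := 8 * ((1 / c2 ^ 2) * (C3 * C1 ^ 2)) with hK1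
  set K2 : ℝ := (1 / c2 ^ 2) * (3 * (1 + 1 / δ) ^ 2) with hK2
  have hK1p : 0 < K1 := by positivity
  have hK2p : 0 < K2 := by positivity
  have hev := (tendsto_rpow_atTop (by positivity : 0 < ε / 100)).eventually_ge_atTop (K1 + K2)
  obtain ⟨HE, hHE⟩ := Filter.eventually_atTop.mp hev
  refine ⟨max (max HK HE) 1, ?_⟩
  intro x Y hr hH0 Q R N M hcut
  set H : ℝ := x * Y with hHdef
  have hH1 : 1 ≤ H := le_trans (le_max_right _ _) hH0
  have hHK : HK ≤ H := le_trans ((le_max_left _ _).trans (le_max_left _ _)) hH0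
  have hHE' : HE ≤ H := le_trans ((le_max_right _ _).trans (le_max_left _ _)) hH0
  have hHpos : 0 < H := by linarith
  have hx := hr.hx
  have hY := hr.hY
  have hfin := hHE H hHE'
  -- facts on the cutoffs
  have hQ4 : 1 ≤ H ^ (4 * ε) := Real.one_le_rpow hH1 (by positivity)
  have hQ1 : 1 ≤ Q := by
    have := hcut.hQ1
    have h2 : (1 : ℝ) ≤ Q := hQ4.trans this
    exact_mod_cast h2
  have hQ0 : (0 : ℝ) < Q := by exact_mod_cast hQ1
  have hRH : (R : ℝ) ≤ H ^ (1 / 2 - ε) := hcut.hR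
  have hRH1 : (R : ℝ) ≤ H := by
    refine hRH.trans ?_
    calc H ^ (1 / 2 - ε) ≤ H ^ (1 : ℝ) := Real.rpow_le_rpow_of_exponent_le hH1 (by linarith)
      _ = H := Real.rpow_one H
  set D0 : ℕ := ⌈H ^ (ε / 5)⌉₊ with hD0
  have hHe5 : 1 ≤ H ^ (ε / 5) := Real.one_le_rpow hH1 (by positivity)
  have hD0le : (D0 : ℝ) ≤ 2 * H ^ (ε / 5) := by
    have := Nat.ceil_lt_add_one (by linarith : 0 ≤ H ^ (ε / 5))
    linarith
  have hD0ge : H ^ (ε / 5) ≤ D0 := Nat.le_ceil _
  have hD01 : 1 ≤ D0 := by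
    have : (1 : ℝ) ≤ D0 := hHe5.trans hD0ge
    exact_mod_cast this
  -- step 1 : reduction to primitive characters
  have hs1 : ∀ q ∈ Mod Q R, 1 / (Nat.totient q : ℝ) ^ 2 *
      ∑ χ ∈ (univ : Finset (DirichletCharacter ℂ q)).filter (fun χ => χ ≠ 1),
        ‖GS χ⁻¹‖ * ‖KK l Y N χ‖ * ‖PS f x M χ‖ ≤
      1 / (Nat.totient q : ℝ) ^ 2 * ∑ d ∈ q.divisors.filter (fun d => d ≠ 1 ∧ d ≤ D0),
          GG f l x Y N M (q / d) d +
        ∑ d ∈ q.divisors.filter (fun d => D0 < d),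
          1 / (Nat.totient (d * (q / d)) : ℝ) ^ 2 * GG f l x Y N M (q / d) d := by
    intro q hq
    unfold Mod at hq
    rw [mem_filter, mem_Ioc] at hq
    have h1 := inner_le f l x Y N M q (by omega) hq.2
    have h2 : ∑ d ∈ q.divisors.filter (fun d => d ≠ 1), GG f l x Y N M (q / d) d ≤
        ∑ d ∈ q.divisors.filter (fun d => d ≠ 1 ∧ d ≤ D0), GG f l x Y N M (q / d) d +
        ∑ d ∈ q.divisors.filter (fun d => D0 < d), GG f l x Y N M (q / d) d := by
      have hsub : q.divisors.filter (fun d => d ≠ 1) ⊆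
          q.divisors.filter (fun d => d ≠ 1 ∧ d ≤ D0) ∪ q.divisors.filter (fun d => D0 < d) := by
        intro d hd
        rw [mem_filter] at hd
        rw [mem_union, mem_filter, mem_filter]
        rcases le_or_gt d D0 with h | h
        · left; exact ⟨hd.1, hd.2, h⟩
        · right; exact ⟨hd.1, h⟩
      refine (sum_le_sum_of_subset_of_nonneg hsub
        (fun d _ _ => GG_nonneg f l x Y N M (q / d) d)).trans ?_
      rw [← sum_union_inter]
      have : 0 ≤ ∑ d ∈ q.divisors.filter (fun d => d ≠ 1 ∧ d ≤ D0) ∩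
          q.divisors.filter (fun d => D0 < d), GG f l x Y N M (q / d) d :=
        sum_nonneg fun d _ => GG_nonneg f l x Y N M (q / d) d
      linarith
    have h3 : ∑ d ∈ q.divisors.filter (fun d => D0 < d),
          1 / (Nat.totient (d * (q / d)) : ℝ) ^ 2 * GG f l x Y N M (q / d) d =
        1 / (Nat.totient q : ℝ) ^ 2 * ∑ d ∈ q.divisors.filter (fun d => D0 < d),
          GG f l x Y N M (q / d) d := by
      rw [mul_sum]
      apply sum_congr rfl
      intro d hd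
      rw [mem_filter, Nat.mem_divisors] at hd
      rw [Nat.mul_div_cancel' hd.1.1]
    rw [h3, ← mul_add]
    exact mul_le_mul_of_nonneg_left (h1.trans h2) (by positivity)
  refine (sum_le_sum hs1).trans ?_
  rw [sum_add_distrib]
  -- step 2 : small conductors
  have hsmall : ∑ q ∈ Mod Q R, 1 / (Nat.totient q : ℝ) ^ 2 *
      ∑ d ∈ q.divisors.filter (fun d => d ≠ 1 ∧ d ≤ D0), GG f l x Y N M (q / d) d ≤
      K1 * H ^ (1 - 3 * ε) := by
    have h1 : ∀ q ∈ Mod Q R, 1 / (Nat.totient q : ℝ) ^ 2 *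
        ∑ d ∈ q.divisors.filter (fun d => d ≠ 1 ∧ d ≤ D0), GG f l x Y N M (q / d) d ≤
        ((1 / c2 ^ 2) * (C3 * C1 ^ 2) * H ^ (4 * δ) * x * (D0 : ℝ) ^ 3) * (1 / (q : ℝ) ^ 2) := by
      intro q hq
      unfold Mod at hq
      rw [mem_filter, mem_Ioc] at hq
      have hq1 : 1 ≤ q := by omega
      have hqR : (q : ℝ) ≤ H := by
        refine le_trans ?_ hRH1
        exact_mod_cast hq.1.2
      have hq0 : (0 : ℝ) < q := by exact_mod_cast hq1
      have h2 := phi_inv_sq hδ hc2 hphi H q hq1 hqR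
      have hdq : (q.divisors.card : ℝ) ≤ C1 * H ^ δ := by
        refine (hdiv q hq1).trans ?_
        gcongr
      have h3 : ∀ d ∈ q.divisors.filter (fun d => d ≠ 1 ∧ d ≤ D0),
          GG f l x Y N M (q / d) d ≤ C3 * x * (C1 * H ^ δ) * (D0 : ℝ) ^ 3 := by
        intro d hd
        rw [mem_filter, Nat.mem_divisors] at hd
        have hd0 : 0 < d := Nat.pos_of_dvd_of_pos hd.1.1 hq1
        have hm1 : 1 ≤ q / d := Nat.div_pos (Nat.le_of_dvd hq1 hd.1.1) hd0
        refine (hGG x Y N M (q / d) d hx hY hm1 (by omega)).trans ?_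
        have h4 : ((q / d).divisors.card : ℝ) ≤ C1 * H ^ δ := by
          refine le_trans ?_ hdq
          have h5 : (q / d).divisors ⊆ q.divisors :=
            Nat.divisors_subset_of_dvd (by omega) (Nat.div_dvd_of_dvd hd.1.1)
          exact_mod_cast card_le_card h5
        have h6 : (d : ℝ) ≤ D0 := by exact_mod_cast hd.2.2
        gcongr
      have h4 := sum_le_card_nsmul _ _ _ h3
      rw [nsmul_eq_mul] at h4
      have h5 : ((q.divisors.filter (fun d => d ≠ 1 ∧ d ≤ D0)).card : ℝ) ≤ C1 * H ^ δ := by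
        refine le_trans ?_ hdq
        exact_mod_cast card_le_card (filter_subset _ _)
      calc _ ≤ ((1 / c2 ^ 2) * H ^ (2 * δ) * (1 / (q : ℝ) ^ 2)) *
            ((C1 * H ^ δ) * (C3 * x * (C1 * H ^ δ) * (D0 : ℝ) ^ 3)) := by
            apply mul_le_mul h2 _ _ (by positivity)
            · refine h4.trans ?_
              gcongr
            · exact sum_nonneg fun d _ => GG_nonneg f l x Y N M (q / d) d
        _ = ((1 / c2 ^ 2) * (C3 * C1 ^ 2) * (H ^ (2 * δ) * H ^ δ * H ^ δ) * x * (D0 : ℝ) ^ 3) *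
            (1 / (q : ℝ) ^ 2) := by ring
        _ = _ := by
            rw [← Real.rpow_add hHpos, ← Real.rpow_add hHpos]
            congr 4
            ring_nf
    refine (sum_le_sum h1).trans ?_
    rw [← mul_sum]
    have h2 : ∑ q ∈ Mod Q R, 1 / (q : ℝ) ^ 2 ≤ 1 / (Q : ℝ) := by
      refine le_trans ?_ (sum_inv_sq_Ioc Q R hQ1)
      unfold Mod
      exact sum_le_sum_of_subset_of_nonneg (filter_subset _ _) fun q _ _ => by positivity
    have h3 : x * (1 / (Q : ℝ)) ≤ H ^ (1 - 4 * ε) := by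
      have h4 := hcut.hQ2
      rw [div_le_iff₀ hY] at h4
      rw [mul_one_div, div_le_iff₀ hQ0]
      have h5 : H ^ (1 - 4 * ε) * H ^ (4 * ε) = x * Y := by
        rw [← Real.rpow_add hHpos]
        have : 1 - 4 * ε + 4 * ε = 1 := by ring
        rw [this, Real.rpow_one]
      have h6 : 0 < H ^ (1 - 4 * ε) := by positivity
      have h7 : x * Y ≤ H ^ (1 - 4 * ε) * (Q * Y) := by
        rw [← h5]
        exact mul_le_mul_of_nonneg_left h4 h6.le
      have h8 : x * Y ≤ (H ^ (1 - 4 * ε) * Q) * Y := by linarith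
      exact le_of_mul_le_mul_right h8 hY
    have h9 : (D0 : ℝ) ^ 3 ≤ 8 * H ^ (3 * ε / 5) := by
      calc (D0 : ℝ) ^ 3 ≤ (2 * H ^ (ε / 5)) ^ 3 := by gcongr
        _ = 8 * (H ^ (ε / 5)) ^ 3 := by ring
        _ = 8 * H ^ (3 * ε / 5) := by
            rw [← Real.rpow_natCast, ← Real.rpow_mul hHpos.le]
            congr 2
            push_cast
            ring
    calc _ ≤ ((1 / c2 ^ 2) * (C3 * C1 ^ 2) * H ^ (4 * δ) * x * (D0 : ℝ) ^ 3) * (1 / (Q : ℝ)) := by
          gcongr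
      _ = (1 / c2 ^ 2) * (C3 * C1 ^ 2) * H ^ (4 * δ) * (x * (1 / (Q : ℝ))) * (D0 : ℝ) ^ 3 := by ring
      _ ≤ (1 / c2 ^ 2) * (C3 * C1 ^ 2) * H ^ (4 * δ) * H ^ (1 - 4 * ε) *
          (8 * H ^ (3 * ε / 5)) := by gcongr
      _ = K1 * (H ^ (4 * δ) * H ^ (1 - 4 * ε) * H ^ (3 * ε / 5)) := by rw [hK1]; ring
      _ = K1 * H ^ (4 * δ + (1 - 4 * ε) + 3 * ε / 5) := by
          rw [← Real.rpow_add hHpos, ← Real.rpow_add hHpos]
      _ ≤ K1 * H ^ (1 - 3 * ε) :=
          mul_le_mul_of_nonneg_left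
            (Real.rpow_le_rpow_of_exponent_le hH1 (by rw [hδdef]; linarith)) hK1p.le
  -- step 3 : large conductors
  have hlarge : ∑ q ∈ Mod Q R, ∑ d ∈ q.divisors.filter (fun d => D0 < d),
          1 / (Nat.totient (d * (q / d)) : ℝ) ^ 2 * GG f l x Y N M (q / d) d ≤
      K2 * H ^ (1 - ε / 20 + 4 * δ) := by
    rcases Nat.eq_zero_or_pos R with hR0 | hR0
    · subst hR0
      have : Mod Q 0 = ∅ := by
        unfold Mod
        rw [Ioc_eq_empty (by omega)]
        simp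
      rw [this, sum_empty]
      positivity
    set J : ℕ := Nat.log 2 R + 1 with hJ
    have hJR : R ≤ 2 ^ J * D0 := by
      have h1 : R < 2 ^ J := Nat.lt_pow_succ_log_self (by norm_num) R
      calc R ≤ 2 ^ J * 1 := by omega
        _ ≤ 2 ^ J * D0 := Nat.mul_le_mul_left _ hD01
    have h1 := rearrange (fun d m => 1 / (Nat.totient (d * m) : ℝ) ^ 2 * GG f l x Y N M m d)
      (fun d m => mul_nonneg (by positivity) (GG_nonneg f l x Y N M m d)) Q R D0 J hJR
    refine h1.trans ?_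
    have hHs : 0 < H ^ (1 - ε / 20) := by positivity
    have h2 : ∀ j ∈ range J, ∀ m ∈ Icc 1 R, ∑ d ∈ Ioc (2 ^ j * D0) (2 * (2 ^ j * D0)),
        (if d * m ≤ R then 1 / (Nat.totient (d * m) : ℝ) ^ 2 * GG f l x Y N M m d else 0) ≤
        (1 / c2 ^ 2) * H ^ (2 * δ) * H ^ (1 - ε / 20) * (1 / (m : ℝ)) := by
      intro j _ m hm
      rw [mem_Icc] at hm
      set D : ℕ := 2 ^ j * D0 with hD
      have hDD0 : D0 ≤ D := Nat.le_mul_of_pos_left _ (by positivity)
      have hDpos : 0 < D := by omega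
      have hD0' : (0 : ℝ) < D := by exact_mod_cast hDpos
      have hm0 : (0 : ℝ) < m := by exact_mod_cast hm.1
      rcases Nat.lt_or_ge R (D * m) with hbig | hsm
      · -- empty
        have h3 : ∀ d ∈ Ioc D (2 * D), (if d * m ≤ R then
            1 / (Nat.totient (d * m) : ℝ) ^ 2 * GG f l x Y N M m d else 0) = 0 := by
          intro d hd
          rw [mem_Ioc] at hd
          rw [if_neg]
          intro h
          have : D * m ≤ d * m := Nat.mul_le_mul_right _ hd.1.le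
          omega
        rw [sum_eq_zero h3]
        positivity
      · have h3 : ∀ d ∈ Ioc D (2 * D), (if d * m ≤ R then
            1 / (Nat.totient (d * m) : ℝ) ^ 2 * GG f l x Y N M m d else 0) ≤
            ((1 / c2 ^ 2) * H ^ (2 * δ) * (1 / ((D : ℝ) * m) ^ 2)) *
              GG f l x Y (2 * N) M m d := by
          intro d hd
          rw [mem_Ioc] at hd
          have hd0 : 0 < d := by omega
          have hG0 := GG_nonneg f l x Y (2 * N) M m d
          split_ifs with h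
          · have hdm1 : 1 ≤ d * m := Nat.mul_pos hd0 hm.1
            have hdmH : ((d * m : ℕ) : ℝ) ≤ H := by
              refine le_trans ?_ hRH1
              exact_mod_cast h
            have h4 := phi_inv_sq hδ hc2 hphi H (d * m) hdm1 hdmH
            have h5 : GG f l x Y N M m d = GG f l x Y (2 * N) M m d := by
              apply GG_mono f hl x Y N (2 * N) M m d hY hm.1 hd0 (by omega)
              refine le_trans ?_ hcut.hN
              have : ((d * m : ℕ) : ℝ) ≤ R := by exact_mod_cast h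
              calc Real.exp B * (((d * m : ℕ) : ℝ) * Y) ≤ Real.exp B * ((R : ℝ) * Y) := by gcongr
                _ = _ := by ring
            rw [h5]
            apply mul_le_mul_of_nonneg_right _ hG0
            refine h4.trans ?_
            have h6 : (D : ℝ) * m ≤ ((d * m : ℕ) : ℝ) := by
              push_cast
              have : (D : ℝ) ≤ d := by exact_mod_cast hd.1.le
              gcongr
            gcongr
          · positivity
        refine (sum_le_sum h3).trans ?_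
        rw [← mul_sum]
        have h4 := hKF x Y hr hHK D m (2 * N) M ?_ hm.1 ?_ ?_ hcut.hM
        · have h5 : ∑ d ∈ Ioc D (2 * D), GG f l x Y (2 * N) M m d ≤
              H ^ (1 - ε / 20) * D ^ 2 * m := h4
          calc _ ≤ ((1 / c2 ^ 2) * H ^ (2 * δ) * (1 / ((D : ℝ) * m) ^ 2)) *
                (H ^ (1 - ε / 20) * D ^ 2 * m) := by gcongr
            _ = _ := by field_simp
        · refine hD0ge.trans ?_
          exact_mod_cast hDD0
        · refine le_trans ?_ hRH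
          exact_mod_cast hsm
        · have h6 := hcut.hN
          have h7 : ((D : ℝ) * m) ≤ R := by exact_mod_cast hsm
          push_cast
          calc Real.exp B * (2 * D * m) * Y = 2 * (Real.exp B * ((D : ℝ) * m) * Y) := by ring
            _ ≤ 2 * (Real.exp B * R * Y) := by gcongr
            _ ≤ 2 * N := by gcongr
    have h3 : ∑ j ∈ range J, ∑ m ∈ Icc 1 R, ∑ d ∈ Ioc (2 ^ j * D0) (2 * (2 ^ j * D0)),
        (if d * m ≤ R then 1 / (Nat.totient (d * m) : ℝ) ^ 2 * GG f l x Y N M m d else 0) ≤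
        ∑ j ∈ range J, ∑ m ∈ Icc 1 R,
          (1 / c2 ^ 2) * H ^ (2 * δ) * H ^ (1 - ε / 20) * (1 / (m : ℝ)) :=
      sum_le_sum fun j hj => sum_le_sum fun m hm => h2 j hj m hm
    refine h3.trans ?_
    rw [sum_const, card_range, nsmul_eq_mul, ← mul_sum]
    -- harmonic sum and J
    have hR1 : (1 : ℝ) ≤ R := by exact_mod_cast hR0
    have hlogR0 : 0 ≤ Real.log R := Real.log_nonneg hR1
    have hlogRH : Real.log R ≤ Real.log H := Real.log_le_log (by linarith) hRH1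
    have hlogH : Real.log H ≤ H ^ δ / δ := Real.log_le_rpow_div hHpos.le hδ
    have hHδ : 1 ≤ H ^ δ := Real.one_le_rpow hH1 hδ.le
    have h4 : ∑ m ∈ Icc 1 R, 1 / (m : ℝ) ≤ (1 + 1 / δ) * H ^ δ := by
      have h := harmonic_le_one_add_log R
      have h5 : ∑ m ∈ Icc 1 R, 1 / (m : ℝ) = (harmonic R : ℝ) := by
        rw [harmonic_eq_sum_Icc]
        push_cast
        exact sum_congr rfl fun m _ => one_div _
      rw [h5]
      have h6 : (1 + 1 / δ) * H ^ δ = H ^ δ + H ^ δ / δ := by ring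
      rw [h6]
      linarith
    have h5 : (J : ℝ) ≤ 3 * ((1 + 1 / δ) * H ^ δ) := by
      have h6 : ((Nat.log 2 R : ℕ) : ℝ) * Real.log 2 ≤ Real.log R := by
        have h7 : (2 : ℝ) ^ (Nat.log 2 R) ≤ R := by
          exact_mod_cast Nat.pow_log_le_self 2 (by omega)
        have h8 := Real.log_le_log (by positivity) h7
        rwa [Real.log_pow] at h8
      have hl2 : 1 / 2 < Real.log 2 := by
        have := Real.log_two_gt_d9
        linarith
      have hn0 : (0 : ℝ) ≤ ((Nat.log 2 R : ℕ) : ℝ) := by positivity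
      rw [hJ]
      push_cast
      have h6 : 3 * ((1 + 1 / δ) * H ^ δ) = 3 * H ^ δ + 3 * (H ^ δ / δ) := by ring
      rw [h6]
      have h9 : 0 ≤ H ^ δ / δ := by positivity
      nlinarith
    have h6 : 0 ≤ ∑ m ∈ Icc 1 R, 1 / (m : ℝ) := sum_nonneg fun m _ => by positivity
    calc (J : ℝ) * ((1 / c2 ^ 2) * H ^ (2 * δ) * H ^ (1 - ε / 20) * ∑ m ∈ Icc 1 R, 1 / (m : ℝ))
        ≤ (3 * ((1 + 1 / δ) * H ^ δ)) * ((1 / c2 ^ 2) * H ^ (2 * δ) * H ^ (1 - ε / 20) *
            ((1 + 1 / δ) * H ^ δ)) := by gcongr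
      _ = K2 * (H ^ δ * H ^ (2 * δ) * H ^ (1 - ε / 20) * H ^ δ) := by rw [hK2]; ring
      _ = K2 * H ^ (1 - ε / 20 + 4 * δ) := by
          rw [← Real.rpow_add hHpos, ← Real.rpow_add hHpos, ← Real.rpow_add hHpos]
          congr 2
          ring
  -- conclusion
  have hA : H ^ (1 - 3 * ε) ≤ H ^ (1 - ε / 20 + 4 * δ) :=
    Real.rpow_le_rpow_of_exponent_le hH1 (by rw [hδdef]; linarith)
  calc _ ≤ K1 * H ^ (1 - 3 * ε) + K2 * H ^ (1 - ε / 20 + 4 * δ) := add_le_add hsmall hlarge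
    _ ≤ K1 * H ^ (1 - ε / 20 + 4 * δ) + K2 * H ^ (1 - ε / 20 + 4 * δ) := by gcongr
    _ = (K1 + K2) * H ^ (1 - ε / 20 + 4 * δ) := by ring
    _ ≤ H ^ (ε / 100) * H ^ (1 - ε / 20 + 4 * δ) := by gcongr
    _ = H ^ (ε / 100 + (1 - ε / 20 + 4 * δ)) := by rw [← Real.rpow_add hHpos]
    _ ≤ H ^ (1 - ε / 40) := Real.rpow_le_rpow_of_exponent_le hH1 (by rw [hδdef]; linarith)

end H343
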