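import Pool.Agent.H43.G.R_seed8.H343R2.KeyDefs
import Pool.Agent.H43.G.R_seed8.H343R2.PV

open Finset MeasureTheory

namespace H343

namespace KeyAux

open Classical in
/-- reduction to primitive characters -/
theorem step2' (m : ℕ) (hm0 : m ≠ 0) (w : DirichletCharacter ℂ m → ℝ) (hw : ∀ χ, 0 ≤ w χ)
    (W : (f : ℕ) → DirichletCharacter ℂ f → ℝ)
    (hW : ∀ f (h : f ∣ m) (ψ : DirichletCharacter ℂ f), ψ.IsPrimitive →
      w (DirichletCharacter.changeLevel h ψ) ≤ W f ψ) :
    ∑ χ ∈ (univ : Finset (DirichletCharacter ℂ m)).filter (fun χ => χ ≠ 1), w χ ≤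
      ∑ f ∈ m.divisors.filter (fun f => f ≠ 1),
        ∑ ψ ∈ (univ : Finset (DirichletCharacter ℂ f)).filter (fun χ => χ.IsPrimitive), W f ψ := by
  have h1 : ∀ χ ∈ (univ : Finset (DirichletCharacter ℂ m)).filter (fun χ => χ ≠ 1),
      χ.conductor ∈ m.divisors.filter (fun f => f ≠ 1) := by
    intro χ hχ
    rw [mem_filter] at hχ ⊢
    refine ⟨Nat.mem_divisors.mpr ⟨χ.conductor_dvd_level, hm0⟩, ?_⟩
    intro h
    have : NeZero m := ⟨hm0⟩
    exact hχ.2 (DirichletCharacter.eq_one_iff_conductor_eq_one.mpr h)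
  rw [← sum_fiberwise_of_maps_to h1]
  apply sum_le_sum
  intro f hf
  rw [mem_filter, Nat.mem_divisors] at hf
  have hfm := hf.1.1
  have h2 : (((univ : Finset (DirichletCharacter ℂ m)).filter (fun χ => χ ≠ 1)).filter
      (fun χ => χ.conductor = f)) ⊆
      ((univ : Finset (DirichletCharacter ℂ f)).filter (fun χ => χ.IsPrimitive)).image
        (DirichletCharacter.changeLevel hfm) := by
    intro χ hχ
    rw [mem_filter] at hχ
    obtain ⟨_, hc⟩ := hχ
    subst hc
    rw [mem_image]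
    exact ⟨χ.primitiveCharacter, by
      rw [mem_filter]; exact ⟨mem_univ _, χ.primitiveCharacter_isPrimitive⟩,
      χ.changeLevel_primitiveCharacter⟩
  calc _ ≤ ∑ χ ∈ ((univ : Finset (DirichletCharacter ℂ f)).filter (fun χ => χ.IsPrimitive)).image
        (DirichletCharacter.changeLevel hfm), w χ :=
        sum_le_sum_of_subset_of_nonneg h2 fun χ _ _ => hw χ
    _ = ∑ ψ ∈ (univ : Finset (DirichletCharacter ℂ f)).filter (fun χ => χ.IsPrimitive),
        w (DirichletCharacter.changeLevel hfm ψ) := by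
        rw [sum_image]
        intro x _ y _ hxy
        have : NeZero m := ⟨hm0⟩
        exact DirichletCharacter.changeLevel_injective hfm hxy
    _ ≤ _ := sum_le_sum fun ψ hψ => hW f hfm ψ (mem_filter.mp hψ).2

theorem sum_changeLevel (f g : ℕ) (h : f ∣ f * g) (ψ : DirichletCharacter ℂ f) (s : Finset ℕ)
    (u : ℕ → ℂ) :
    ∑ a ∈ s, DirichletCharacter.changeLevel h ψ (a : ZMod (f * g)) * u a =
      ∑ a ∈ s.filter (fun a => a.Coprime g), ψ (a : ZMod f) * u a := by
  rw [sum_filter]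
  apply sum_congr rfl
  intro b _
  by_cases hb : b.Coprime (f * g)
  · have h1 := DirichletCharacter.changeLevel_eq_cast_of_dvd' ψ h (a := (b : ℤ))
      (by exact_mod_cast Nat.isCoprime_iff_coprime.mpr hb)
    push_cast at h1
    rw [h1, if_pos (Nat.Coprime.coprime_mul_left_right hb)]
  · rw [MulChar.map_nonunit _ (fun hu => hb ((ZMod.isUnit_iff_coprime b _).mp hu)), zero_mul]
    split_ifs with hg
    · have : ¬ b.Coprime f := fun hf => hb (Nat.Coprime.mul_right hf hg)
      rw [MulChar.map_nonunit _ (fun hu => this ((ZMod.isUnit_iff_coprime b _).mp hu)), zero_mul]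
    · rfl

theorem KK_changeLevel (l : ℝ → ℝ) (Y : ℝ) (N f g : ℕ) (h : f ∣ f * g)
    (ψ : DirichletCharacter ℂ f) :
    KK l Y N (DirichletCharacter.changeLevel h ψ) = KKm l Y N g ψ := by
  unfold KK KKm
  exact sum_changeLevel f g h ψ (Icc 1 N) (fun a => (l (Real.log (a / ((f * g : ℕ) * Y))) : ℂ))

theorem PS_changeLevel (F : ℝ → ℝ) (x : ℝ) (M f g : ℕ) (h : f ∣ f * g)
    (ψ : DirichletCharacter ℂ f) :
    PS F x M (DirichletCharacter.changeLevel h ψ) = PSm F x M g ψ := by
  unfold PS PSm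
  have h1 := sum_changeLevel f g h ψ (Icc 1 M)
    (fun n => (ArithmeticFunction.vonMangoldt n : ℂ) * (F (Real.log (n / x)) : ℂ))
  calc _ = ∑ n ∈ Icc 1 M, DirichletCharacter.changeLevel h ψ (n : ZMod (f * g)) *
        ((ArithmeticFunction.vonMangoldt n : ℂ) * (F (Real.log (n / x)) : ℂ)) := by
        apply sum_congr rfl
        intro n _
        ring
    _ = _ := h1
    _ = _ := by
        apply sum_congr rfl
        intro n _
        ring

open Classical in
/-- conductor `q`, cofactor `m` contribution -/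
noncomputable def GG (f l : ℝ → ℝ) (x Y : ℝ) (N M m q : ℕ) : ℝ :=
  Real.sqrt q * ∑ χ ∈ (univ : Finset (DirichletCharacter ℂ q)).filter
        (fun χ => χ.IsPrimitive), ‖KKm l Y N m χ‖ * ‖PSm f x M m χ‖

theorem GG_nonneg (f l : ℝ → ℝ) (x Y : ℝ) (N M m q : ℕ) : 0 ≤ GG f l x Y N M m q :=
  mul_nonneg (Real.sqrt_nonneg _) (sum_nonneg fun _ _ => by positivity)

open Classical in
theorem inner_le (f l : ℝ → ℝ) (x Y : ℝ) (N M q : ℕ) (hq1 : 1 ≤ q) (hq : Squarefree q) :
    ∑ χ ∈ (univ : Finset (DirichletCharacter ℂ q)).filter (fun χ => χ ≠ 1),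
        ‖GS χ⁻¹‖ * ‖KK l Y N χ‖ * ‖PS f x M χ‖ ≤
      ∑ d ∈ q.divisors.filter (fun d => d ≠ 1), GG f l x Y N M (q / d) d := by
  unfold GG
  simp_rw [mul_sum]
  apply step2' q (by omega) (fun χ => ‖GS χ⁻¹‖ * ‖KK l Y N χ‖ * ‖PS f x M χ‖) (fun χ => by positivity)
    (fun d ψ => Real.sqrt d * (‖KKm l Y N (q / d) ψ‖ * ‖PSm f x M (q / d) ψ‖))
  intro d h ψ hψ
  obtain ⟨g, rfl⟩ := h
  have hd : 0 < d := Nat.pos_of_ne_zero (by rintro rfl; simp at hq1)
  have hg : 0 < g := Nat.pos_of_ne_zero (by rintro rfl; simp at hq1)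
  rw [Nat.mul_div_cancel_left g hd]
  rw [KK_changeLevel, PS_changeLevel]
  have h1 := GS_imprimitive d g hd hg (Nat.coprime_of_squarefree_mul hq) ψ hψ
  rw [mul_assoc]
  exact mul_le_mul_of_nonneg_right h1 (by positivity)

/-! ### bounds for test functions -/

theorem test_bound {B : ℝ} {f : ℝ → ℝ} (hf : Test B f) : ∃ C : ℝ, 0 < C ∧ ∀ v, |f v| ≤ C := by
  have hc : HasCompactSupport f := by
    apply HasCompactSupport.intro (isCompact_Icc : IsCompact (Set.Icc (-B) B))
    intro v hv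
    apply hf.supp
    by_contra h
    push Not at h
    rw [abs_lt] at h
    exact hv ⟨h.1.le, h.2.le⟩
  obtain ⟨C, hC⟩ := hf.smooth.continuous.bounded_above_of_compact_support hc
  refine ⟨max C 1, by positivity, fun v => ?_⟩
  have := hC v
  rw [Real.norm_eq_abs] at this
  exact this.trans (le_max_left _ _)

theorem test_hasCompactSupport {B : ℝ} {f : ℝ → ℝ} (hf : Test B f) : HasCompactSupport f := by
  apply HasCompactSupport.intro (isCompact_Icc : IsCompact (Set.Icc (-B) B))
  intro v hv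
  apply hf.supp
  by_contra h
  push Not at h
  rw [abs_lt] at h
  exact hv ⟨h.1.le, h.2.le⟩

theorem test_eq_zero_of_le {B : ℝ} {f : ℝ → ℝ} (hf : Test B f) {a c : ℝ} (hc : 0 < c) 
    (h : Real.exp B * c ≤ a) : f (Real.log (a / c)) = 0 := by
  apply hf.supp
  have h1 : Real.exp B ≤ a / c := by rwa [le_div_iff₀ hc]
  have h2 := Real.log_le_log (Real.exp_pos B) h1
  rw [Real.log_exp] at h2
  exact h2.trans (le_abs_self _)

/-- sum of `Λ` against a test function -/
theorem sum_Lambda_le {B : ℝ} {f : ℝ → ℝ} (hf : Test B f) : ∃ C : ℝ, 0 < C ∧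
    ∀ (x : ℝ) (M : ℕ), 0 < x → ∑ n ∈ Icc 1 M, ArithmeticFunction.vonMangoldt n *
      |f (Real.log (n / x))| ≤ C * x := by
  obtain ⟨C, hC0, hC⟩ := test_bound hf
  have h4 : 0 < Real.log 4 := Real.log_pos (by norm_num)
  refine ⟨C * ((Real.log 4 + 4) * Real.exp B), by positivity, ?_⟩
  intro x M hx
  have h1 : ∑ n ∈ Icc 1 M, ArithmeticFunction.vonMangoldt n * |f (Real.log (n / x))| ≤
      ∑ n ∈ Ioc 0 ⌊Real.exp B * x⌋₊, C * ArithmeticFunction.vonMangoldt n := by
    have h2 : ∑ n ∈ Icc 1 M, ArithmeticFunction.vonMangoldt n * |f (Real.log (n / x))| =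
        ∑ n ∈ (Icc 1 M).filter (fun n => n ≤ ⌊Real.exp B * x⌋₊),
          ArithmeticFunction.vonMangoldt n * |f (Real.log (n / x))| := by
      rw [sum_filter]
      apply sum_congr rfl
      intro n _
      split_ifs with h
      · rfl
      · rw [test_eq_zero_of_le hf hx, abs_zero, mul_zero]
        push Not at h
        exact (Nat.lt_of_floor_lt h).le
    rw [h2]
    have h3 : ∀ n ∈ (Icc 1 M).filter (fun n => n ≤ ⌊Real.exp B * x⌋₊),
        ArithmeticFunction.vonMangoldt n * |f (Real.log (n / x))| ≤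
        C * ArithmeticFunction.vonMangoldt n := by
      intro n _
      have := hC (Real.log (n / x))
      have h0 : 0 ≤ ArithmeticFunction.vonMangoldt n := ArithmeticFunction.vonMangoldt_nonneg
      nlinarith
    refine (sum_le_sum h3).trans ?_
    apply sum_le_sum_of_subset_of_nonneg
    · intro n hn
      rw [mem_filter, mem_Icc] at hn
      rw [mem_Ioc]
      omega
    · intro n _ _
      have h0 : 0 ≤ ArithmeticFunction.vonMangoldt n := ArithmeticFunction.vonMangoldt_nonneg
      positivity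
  refine h1.trans ?_
  rw [← mul_sum]
  have h5 := Chebyshev.psi_le_const_mul_self (x := Real.exp B * x) (by positivity)
  unfold Chebyshev.psi at h5
  calc _ ≤ C * ((Real.log 4 + 4) * (Real.exp B * x)) := by gcongr
    _ = _ := by ring

theorem PSm_le {B : ℝ} {f : ℝ → ℝ} (hf : Test B f) : ∃ C : ℝ, 0 < C ∧
    ∀ (x : ℝ) (M m q : ℕ) (χ : DirichletCharacter ℂ q), 0 < x → ‖PSm f x M m χ‖ ≤ C * x := by
  obtain ⟨C, hC0, hC⟩ := sum_Lambda_le hf
  refine ⟨C, hC0, ?_⟩
  intro x M m q χ hx
  refine le_trans ?_ (hC x M hx)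
  unfold PSm
  refine (norm_sum_le _ _).trans ?_
  refine le_trans (sum_le_sum (g := fun n : ℕ => ArithmeticFunction.vonMangoldt n *
      |f (Real.log (n / x))|) ?_) ?_
  · intro n _
    rw [norm_mul, norm_mul, Complex.norm_real, Complex.norm_real, Real.norm_eq_abs,
      Real.norm_eq_abs, abs_of_nonneg ArithmeticFunction.vonMangoldt_nonneg]
    have h1 : ‖χ (n : ZMod q)‖ ≤ 1 := DirichletCharacter.norm_le_one _ _
    have h0 : 0 ≤ ArithmeticFunction.vonMangoldt n := ArithmeticFunction.vonMangoldt_nonneg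
    calc _ ≤ ArithmeticFunction.vonMangoldt n * 1 * |f (Real.log (n / x))| := by gcongr
      _ = _ := by ring
  · apply sum_le_sum_of_subset_of_nonneg (filter_subset _ _)
    intro n _ _
    have h0 : 0 ≤ ArithmeticFunction.vonMangoldt n := ArithmeticFunction.vonMangoldt_nonneg
    positivity

/-- derivative of `l (log (t / c))` -/
theorem hasDerivAt_comp_log {l : ℝ → ℝ} (hl : Differentiable ℝ l) {c t : ℝ} (hc : 0 < c)
    (ht : 0 < t) : HasDerivAt (fun t => ((l (Real.log (t / c)) : ℝ) : ℂ))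
      (((deriv l (Real.log (t / c)) * t⁻¹ : ℝ)) : ℂ) t := by
  have h1 : HasDerivAt (fun t : ℝ => Real.log (t / c)) (t⁻¹) t := by
    have h2 : HasDerivAt (fun t : ℝ => t / c) (1 / c) t := (hasDerivAt_id t).div_const c
    have h3 := h2.log (by positivity)
    convert h3 using 1
    field_simp
  have h4 : HasDerivAt (fun t : ℝ => l (Real.log (t / c))) (deriv l (Real.log (t / c)) * t⁻¹) t :=
    ((hl (Real.log (t / c))).hasDerivAt).comp t h1
  exact h4.ofReal_comp

theorem KKm_le {B : ℝ} {l : ℝ → ℝ} (hl : Test B l) : ∃ C : ℝ, 0 < C ∧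
    ∀ (Y : ℝ) (N m q : ℕ) (χ : DirichletCharacter ℂ q), 0 < Y → 1 ≤ m → 2 ≤ q → χ.IsPrimitive →
      ‖KKm l Y N m χ‖ ≤ C * (m.divisors.card * (Real.sqrt q * (1 + Real.log q))) := by
  obtain ⟨C, hC0, hC⟩ := test_bound hl
  have hcs := test_hasCompactSupport hl
  have hld : Differentiable ℝ l := hl.smooth.differentiable (by simp)
  have hdc : Continuous (deriv l) := hl.smooth.continuous_deriv (by simp)
  have hint : Integrable (fun v => |deriv l v|) :=
    (hdc.abs).integrable_of_hasCompactSupport hcs.deriv.abs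
  set V : ℝ := C + ∫ v, |deriv l v| with hV
  have hI0 : 0 ≤ ∫ v, |deriv l v| := integral_nonneg fun v => abs_nonneg _
  refine ⟨4 * V, by positivity, ?_⟩
  intro Y N m q χ hY hm hq hχ
  rcases Nat.eq_zero_or_pos N with hN | hN
  · subst hN
    have : KKm l Y 0 m χ = 0 := by unfold KKm; simp
    rw [this, norm_zero]
    have hlog : 0 ≤ Real.log q := Real.log_natCast_nonneg q
    positivity
  · have hqm : (0 : ℝ) < (q * m : ℕ) := by
      have : 0 < q * m := by positivity
      exact_mod_cast this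
    set c : ℝ := (q * m : ℕ) * Y with hc
    have hc0 : 0 < c := by positivity
    have hN1 : (1 : ℝ) ≤ N := by exact_mod_cast hN
    have hder : ∀ t : ℝ, 0 < t → HasDerivAt (fun t => ((l (Real.log (t / c)) : ℝ) : ℂ))
      (((deriv l (Real.log (t / c)) * t⁻¹ : ℝ)) : ℂ) t := fun t ht =>
        hasDerivAt_comp_log hld hc0 ht
    have h1 := PV_weight q m 1 N hq hm le_rfl hN χ hχ
      (fun t => ((l (Real.log (t / c)) : ℝ) : ℂ)) ?_ V ?_
    · unfold KKm
      rw [← hc]
      refine h1.trans (le_of_eq ?_)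
      ring
    · -- ContDiffOn
      have hsm : ContDiffOn ℝ 1 (fun t : ℝ => l (Real.log (t / c))) (Set.Icc ((1 : ℕ) : ℝ) N) := by
        apply (hl.smooth.of_le (by simp)).comp_contDiffOn
        apply ContDiffOn.log
        · exact contDiffOn_id.div_const c
        · intro t ht
          have : (0 : ℝ) < t := by
            have := ht.1
            push_cast at this
            linarith
          positivity
      exact Complex.ofRealCLM.contDiff.comp_contDiffOn hsm
    · have h2 : ‖((l (Real.log ((N : ℝ) / c)) : ℝ) : ℂ)‖ ≤ C := by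
        rw [Complex.norm_real, Real.norm_eq_abs]; exact hC _
      have h3 : ∫ t in ((1 : ℕ) : ℝ)..N, ‖deriv (fun t => ((l (Real.log (t / c)) : ℝ) : ℂ)) t‖ ≤
          ∫ v, |deriv l v| := by
        push_cast
        have h4 : ∫ t in (1 : ℝ)..N, ‖deriv (fun t => ((l (Real.log (t / c)) : ℝ) : ℂ)) t‖ =
            ∫ t in (1 : ℝ)..N, ((fun v => |deriv l v|) ∘ (fun t => Real.log (t / c))) t * t⁻¹ := by
          apply intervalIntegral.integral_congr
          intro t ht
          rw [Set.uIcc_of_le hN1] at ht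
          have ht0 : 0 < t := by linarith [ht.1]
          dsimp only [Function.comp]
          rw [(hder t ht0).deriv, Complex.norm_real, Real.norm_eq_abs, abs_mul,
            abs_of_pos (inv_pos.mpr ht0)]
        rw [h4]
        have h5 := intervalIntegral.integral_comp_mul_deriv (a := (1 : ℝ)) (b := N)
          (f := fun t => Real.log (t / c)) (f' := fun t => t⁻¹) (g := fun v => |deriv l v|) (by
            intro t ht
            rw [Set.uIcc_of_le hN1] at ht
            have ht0 : 0 < t := by linarith [ht.1]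
            have h2 : HasDerivAt (fun t : ℝ => t / c) (1 / c) t := (hasDerivAt_id t).div_const c
            have h3 := h2.log (by positivity)
            convert h3 using 1
            field_simp) (by
            intro t ht
            rw [Set.uIcc_of_le hN1] at ht
            have ht0 : 0 < t := by linarith [ht.1]
            exact (continuousAt_inv₀ ht0.ne').continuousWithinAt) hdc.abs
        rw [h5]
        have hle : Real.log (1 / c) ≤ Real.log (N / c) := by
          apply Real.log_le_log (by positivity)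
          gcongr
        rw [intervalIntegral.integral_of_le hle]
        exact setIntegral_le_integral hint (Filter.Eventually.of_forall fun v => abs_nonneg _)
      have h2' : ‖(fun t => ((l (Real.log (t / c)) : ℝ) : ℂ)) (N : ℝ)‖ ≤ C := h2
      rw [hV]
      linarith

open Classical in
theorem card_prim_le (q : ℕ) (hq : 1 ≤ q) :
    (((univ : Finset (DirichletCharacter ℂ q)).filter (fun χ => χ.IsPrimitive)).card : ℝ) ≤ q := by
  have : NeZero q := ⟨by omega⟩
  have h1 : ((univ : Finset (DirichletCharacter ℂ q)).filter (fun χ => χ.IsPrimitive)).card ≤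
      Fintype.card (DirichletCharacter ℂ q) := card_le_univ _
  have h2 : Fintype.card (DirichletCharacter ℂ q) = q.totient := by
    rw [← Nat.card_eq_fintype_card]
    exact DirichletCharacter.card_eq_totient_of_hasEnoughRootsOfUnity ℂ q
  rw [h2] at h1
  exact_mod_cast h1.trans (Nat.totient_le q)

/-- small conductors: trivial bound via Pólya–Vinogradov -/
theorem GG_le {B : ℝ} {f l : ℝ → ℝ} (hf : Test B f) (hl : Test B l) : ∃ C : ℝ, 0 < C ∧
    ∀ (x Y : ℝ) (N M m q : ℕ), 0 < x → 0 < Y → 1 ≤ m → 2 ≤ q →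
      GG f l x Y N M m q ≤ C * x * m.divisors.card * (q : ℝ) ^ 3 := by
  obtain ⟨C1, hC1, h1⟩ := KKm_le hl
  obtain ⟨C2, hC2, h2⟩ := PSm_le hf
  refine ⟨C1 * C2, by positivity, ?_⟩
  intro x Y N M m q hx hY hm hq
  classical
  unfold GG
  have hq0 : (0 : ℝ) < q := by
    have : 0 < q := by omega
    exact_mod_cast this
  have hlog : 0 ≤ Real.log q := Real.log_natCast_nonneg q
  have hlog2 : 1 + Real.log q ≤ q := by
    have := Real.log_le_sub_one_of_pos hq0
    linarith
  have h3 : ∀ χ ∈ (univ : Finset (DirichletCharacter ℂ q)).filter (fun χ => χ.IsPrimitive),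
      ‖KKm l Y N m χ‖ * ‖PSm f x M m χ‖ ≤
        (C1 * (m.divisors.card * (Real.sqrt q * q))) * (C2 * x) := by
    intro χ hχ
    rw [mem_filter] at hχ
    have h4 := h1 Y N m q χ hY hm hq hχ.2
    have h5 := h2 x M m q χ hx
    have h6 : C1 * (m.divisors.card * (Real.sqrt q * (1 + Real.log q))) ≤
        C1 * (m.divisors.card * (Real.sqrt q * q)) := by gcongr
    exact mul_le_mul (h4.trans h6) h5 (norm_nonneg _) (by positivity)
  have h7 := sum_le_card_nsmul _ _ _ h3
  rw [nsmul_eq_mul] at h7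
  have h8 := card_prim_le q (by omega)
  calc _ ≤ Real.sqrt q * ((q : ℝ) * ((C1 * (m.divisors.card * (Real.sqrt q * q))) * (C2 * x))) := by
        gcongr
        refine h7.trans ?_
        gcongr
    _ = C1 * C2 * x * m.divisors.card * ((Real.sqrt q * Real.sqrt q) * q ^ 2) := by ring
    _ = _ := by rw [Real.mul_self_sqrt hq0.le]; ring

/-- extending the range of the numerators -/
theorem KKm_mono {B : ℝ} {l : ℝ → ℝ} (hl : Test B l) (Y : ℝ) (N N' m q : ℕ)
    (χ : DirichletCharacter ℂ q) (hY : 0 < Y) (hm : 1 ≤ m) (hq : 1 ≤ q) (hNN : N ≤ N')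
    (hN : Real.exp B * ((q * m : ℕ) * Y) ≤ N) :
    KKm l Y N m χ = KKm l Y N' m χ := by
  unfold KKm
  have hqm : (0 : ℝ) < (q * m : ℕ) := by
    have : 0 < q * m := by positivity
    exact_mod_cast this
  apply sum_subset
  · intro a ha
    rw [mem_filter, mem_Icc] at ha ⊢
    exact ⟨⟨ha.1.1, ha.1.2.trans hNN⟩, ha.2⟩
  · intro a ha ha'
    rw [mem_filter, mem_Icc] at ha ha'
    have h1 : N < a := by
      by_contra h
      exact ha' ⟨⟨ha.1.1, not_lt.mp h⟩, ha.2⟩
    have h2 : (N : ℝ) ≤ a := by exact_mod_cast h1.le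
    rw [test_eq_zero_of_le hl (by positivity) (hN.trans h2)]
    simp

theorem GG_mono {B : ℝ} {l : ℝ → ℝ} (f : ℝ → ℝ) (hl : Test B l) (x Y : ℝ) (N N' M m q : ℕ)
    (hY : 0 < Y) (hm : 1 ≤ m) (hq : 1 ≤ q) (hNN : N ≤ N')
    (hN : Real.exp B * ((q * m : ℕ) * Y) ≤ N) :
    GG f l x Y N M m q = GG f l x Y N' M m q := by
  unfold GG
  congr 1
  apply sum_congr rfl
  intro χ _
  rw [KKm_mono hl Y N N' m q χ hY hm hq hNN hN]

/-! ### combinatorial rearrangement -/

theorem dyadic_split (g : ℕ → ℝ) (hg : ∀ n, 0 ≤ g n) (D0 J : ℕ) :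
    ∑ f ∈ Ioc D0 (2 ^ J * D0), g f ≤
      ∑ j ∈ range J, ∑ f ∈ Ioc (2 ^ j * D0) (2 * (2 ^ j * D0)), g f := by
  induction J with
  | zero => simp
  | succ J ih =>
    rw [sum_range_succ]
    have h1 : Ioc D0 (2 ^ (J + 1) * D0) ⊆
        Ioc D0 (2 ^ J * D0) ∪ Ioc (2 ^ J * D0) (2 * (2 ^ J * D0)) := by
      intro f hf
      rw [mem_Ioc] at hf
      rw [mem_union, mem_Ioc, mem_Ioc]
      have : 2 ^ (J + 1) * D0 = 2 * (2 ^ J * D0) := by ring
      rw [this] at hf
      omega
    calc _ ≤ ∑ f ∈ Ioc D0 (2 ^ J * D0) ∪ Ioc (2 ^ J * D0) (2 * (2 ^ J * D0)), g f :=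
          sum_le_sum_of_subset_of_nonneg h1 fun n _ _ => hg n
      _ ≤ ∑ f ∈ Ioc D0 (2 ^ J * D0), g f + ∑ f ∈ Ioc (2 ^ J * D0) (2 * (2 ^ J * D0)), g f := by
          rw [← sum_union_inter]
          have : 0 ≤ ∑ f ∈ Ioc D0 (2 ^ J * D0) ∩ Ioc (2 ^ J * D0) (2 * (2 ^ J * D0)), g f :=
            sum_nonneg fun n _ => hg n
          linarith
      _ ≤ _ := by linarith

theorem rearrange (T : ℕ → ℕ → ℝ) (hT : ∀ f m, 0 ≤ T f m) (Q R D0 J : ℕ)
    (hJ : R ≤ 2 ^ J * D0) :
    ∑ q ∈ Mod Q R, ∑ f ∈ q.divisors.filter (fun f => D0 < f), T f (q / f) ≤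
      ∑ j ∈ range J, ∑ m ∈ Icc 1 R, ∑ f ∈ Ioc (2 ^ j * D0) (2 * (2 ^ j * D0)),
        if f * m ≤ R then T f m else 0 := by
  have h1 : ∀ q ∈ Mod Q R, ∑ f ∈ q.divisors.filter (fun f => D0 < f), T f (q / f) ≤
      ∑ f ∈ Ioc D0 R, ∑ m ∈ Icc 1 R, if f * m = q then T f m else 0 := by
    intro q hq
    unfold Mod at hq
    rw [mem_filter, mem_Ioc] at hq
    have hsub : q.divisors.filter (fun f => D0 < f) ⊆ Ioc D0 R := by
      intro f hf
      rw [mem_filter, Nat.mem_divisors] at hf
      rw [mem_Ioc]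
      exact ⟨hf.2, (Nat.le_of_dvd (by omega) hf.1.1).trans hq.1.2⟩
    refine le_trans (sum_le_sum (g := fun f => ∑ m ∈ Icc 1 R, if f * m = q then T f m else 0) ?_)
      (sum_le_sum_of_subset_of_nonneg hsub ?_)
    · intro f hf
      rw [mem_filter, Nat.mem_divisors] at hf
      have hfq := hf.1.1
      have hf0 : 0 < f := Nat.pos_of_dvd_of_pos hfq (by omega)
      have hmem : q / f ∈ Icc 1 R := by
        rw [mem_Icc]
        exact ⟨Nat.div_pos (Nat.le_of_dvd (by omega) hfq) hf0,
          (Nat.div_le_self _ _).trans hq.1.2⟩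
      have h2 := single_le_sum (f := fun m => if f * m = q then T f m else 0)
        (fun m _ => by split_ifs <;> simp [hT]) hmem
      rw [if_pos (Nat.mul_div_cancel' hfq)] at h2
      exact h2
    · intro f _ _
      exact sum_nonneg fun m _ => by split_ifs <;> simp [hT]
  refine (sum_le_sum h1).trans ?_
  have h2 : ∑ q ∈ Mod Q R, ∑ f ∈ Ioc D0 R, ∑ m ∈ Icc 1 R, (if f * m = q then T f m else 0) ≤
      ∑ f ∈ Ioc D0 R, ∑ m ∈ Icc 1 R, if f * m ≤ R then T f m else 0 := by
    rw [sum_comm]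
    apply sum_le_sum
    intro f _
    rw [sum_comm]
    apply sum_le_sum
    intro m _
    rw [sum_ite_eq]
    by_cases h : f * m ≤ R
    · rw [if_pos h]
      split_ifs
      · exact le_rfl
      · exact hT f m
    · rw [if_neg h, if_neg]
      intro h'
      unfold Mod at h'
      rw [mem_filter, mem_Ioc] at h'
      exact h h'.1.2
  refine h2.trans ?_
  have h3 : ∑ f ∈ Ioc D0 R, ∑ m ∈ Icc 1 R, (if f * m ≤ R then T f m else 0) ≤
      ∑ f ∈ Ioc D0 (2 ^ J * D0), ∑ m ∈ Icc 1 R, (if f * m ≤ R then T f m else 0) := by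
    apply sum_le_sum_of_subset_of_nonneg
    · exact Ioc_subset_Ioc_right hJ
    · intro f _ _
      exact sum_nonneg fun m _ => by split_ifs <;> simp [hT]
  refine h3.trans ((dyadic_split _ (fun f => sum_nonneg fun m _ => by
    split_ifs <;> simp [hT]) D0 J).trans (le_of_eq ?_))
  apply sum_congr rfl
  intro j _
  rw [sum_comm]

end KeyAux

end H343
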