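import Pool.Agent.H43.G.R_seed8.H343R2.Defs

open Finset

namespace H343

/-- numerators for a primitive character `χ` mod `q`, modulus `q m` -/
noncomputable def KKm (l : ℝ → ℝ) (Y : ℝ) (N m : ℕ) {q : ℕ} (χ : DirichletCharacter ℂ q) : ℂ :=
  ∑ a ∈ (Icc 1 N).filter (fun a => a.Coprime m), χ (a : ZMod q) *
    (l (Real.log (a / ((q * m : ℕ) * Y))) : ℂ)

/-- primes coprime to `m`: smooth sum of `Λ χ` over `n ≈ x` -/
noncomputable def PSm (f : ℝ → ℝ) (x : ℝ) (M m : ℕ) {q : ℕ} (χ : DirichletCharacter ℂ q) : ℂ :=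
  ∑ n ∈ (Icc 1 M).filter (fun n => n.Coprime m), (ArithmeticFunction.vonMangoldt n : ℂ) *
    χ (n : ZMod q) * (f (Real.log (n / x)) : ℂ)

end H343
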